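import Mathlib

/-!
# Definitions for the central limit theorem question for complex Henon maps
-/

set_option autoImplicit false

open MeasureTheory Filter Topology

namespace Pool.Agent.Work.MP_9ac7bc_an

/-! ### Complex Henon maps -/

/-- The elementary map `h(x, y) = (y, P(y) - a x)`. -/
def henonStep (P : Polynomial ℂ) (a : ℂ) (p : ℂ × ℂ) : ℂ × ℂ := (p.2, P.eval p.2 - a * p.1)

/-- Complex Henon maps: the compositions `h₁ ∘ ⋯ ∘ hₖ` (`k ≥ 1`) of maps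
`hᵢ(x, y) = (y, Pᵢ(y) - aᵢ x)` with `aᵢ ≠ 0` and `Pᵢ` a polynomial of degree at least `2`. -/
inductive IsHenon : (ℂ × ℂ → ℂ × ℂ) → Prop
  | single (P : Polynomial ℂ) (a : ℂ) (hP : 2 ≤ P.natDegree) (ha : a ≠ 0) : IsHenon (henonStep P a)
  | comp (P : Polynomial ℂ) (a : ℂ) (hP : 2 ≤ P.natDegree) (ha : a ≠ 0)
      (f : ℂ × ℂ → ℂ × ℂ) (hf : IsHenon f) : IsHenon (henonStep P a ∘ f)

/-! ### Measure-theoretic entropy -/

section Entropy

variable {X : Type*} [MeasurableSpace X]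

/-- Static entropy `∑ -ν(q = a) log ν(q = a)` of the finite partition of `X` into the
fibres of `q`. -/
noncomputable def Hent {α : Type*} [Fintype α] (ν : Measure X) (q : X → α) : ℝ :=
  ∑ a, Real.negMulLog (ν.real (q ⁻¹' {a}))

/-- The `n`-itinerary `(q(x), q(f x), ..., q(f^(n-1) x))`; its fibres form the join
of the first `n` pullbacks of the partition into the fibres of `q`. -/
def itin {α : Type*} (f : X → X) (q : X → α) (n : ℕ) (x : X) : Fin n → α := fun i => q (f^[i] x)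

/-- Entropy of `f` with respect to the finite partition into the fibres of `q`:
the (upper) limit of `(1/n) H(q ∨ f⁻¹ q ∨ ⋯ ∨ f^(-(n-1)) q)`. -/
noncomputable def partEntropy {α : Type*} [Fintype α] (ν : Measure X) (f : X → X) (q : X → α) :
    EReal :=
  Filter.limsup (fun n : ℕ => ((Hent ν (itin f q n) / n : ℝ) : EReal)) atTop

/-- Measure-theoretic (Kolmogorov-Sinai) entropy `h_ν(f)`: supremum over all finite
measurable partitions. -/
noncomputable def ksEntropy (f : X → X) (ν : Measure X) : EReal :=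
  ⨆ (k : ℕ) (q : X → Fin k) (_ : Measurable q), partEntropy ν f q

end Entropy

/-! ### Pressure and equilibrium states -/

/-- `ν` is an `f`-invariant Borel probability measure on `ℂ²`. -/
def IsInvProb (f : ℂ × ℂ → ℂ × ℂ) (ν : Measure (ℂ × ℂ)) : Prop :=
  IsProbabilityMeasure ν ∧ MeasurePreserving f ν ν

/-- `h_ν(f) + ⟨ν, φ⟩`. -/
noncomputable def freeEnergy (f : ℂ × ℂ → ℂ × ℂ) (φ : ℂ × ℂ → ℝ) (ν : Measure (ℂ × ℂ)) : EReal :=
  ksEntropy f ν + ((∫ p, φ p ∂ν : ℝ) : EReal)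

/-- The pressure `P(φ)`: supremum of `h_ν(f) + ⟨ν, φ⟩` over all invariant probability
measures `ν`. -/
noncomputable def pressure (f : ℂ × ℂ → ℂ × ℂ) (φ : ℂ × ℂ → ℝ) : EReal :=
  ⨆ (ν : Measure (ℂ × ℂ)) (_ : IsInvProb f ν), freeEnergy f φ ν

/-- `μ` is an equilibrium state of the weight `φ`: it attains the supremum defining `P(φ)`. -/
def IsEquilibrium (f : ℂ × ℂ → ℂ × ℂ) (φ : ℂ × ℂ → ℝ) (μ : Measure (ℂ × ℂ)) : Prop :=
  IsInvProb f μ ∧ freeEnergy f φ μ = pressure f φ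

/-- `μ` is the unique equilibrium state of the weight `φ`. -/
def IsUniqueEquilibrium (f : ℂ × ℂ → ℂ × ℂ) (φ : ℂ × ℂ → ℝ) (μ : Measure (ℂ × ℂ)) : Prop :=
  IsEquilibrium f φ μ ∧ ∀ μ', IsEquilibrium f φ μ' → μ' = μ

/-! ### Hoelder functions and the central limit theorem -/

/-- Hoelder continuity on `ℂ²` with some exponent in `(0, 1]`. -/
def IsHolder (g : ℂ × ℂ → ℝ) : Prop :=
  ∃ C r : ℝ, 0 < r ∧ r ≤ 1 ∧ ∀ p p', |g p - g p'| ≤ C * dist p p' ^ r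

/-- Birkhoff sum `S_n(g) = g + g ∘ f + ⋯ + g ∘ f^(n-1)`. -/
def birkhoff (f : ℂ × ℂ → ℂ × ℂ) (g : ℂ × ℂ → ℝ) (n : ℕ) (p : ℂ × ℂ) : ℝ :=
  ∑ k ∈ Finset.range n, g (f^[k] p)

/-- `Z_n = (S_n(g) - n ⟨μ, g⟩) / √n`. -/
noncomputable def Zn (f : ℂ × ℂ → ℂ × ℂ) (μ : Measure (ℂ × ℂ)) (g : ℂ × ℂ → ℝ) (n : ℕ)
    (p : ℂ × ℂ) : ℝ :=
  (birkhoff f g n p - n * ∫ x, g x ∂μ) / Real.sqrt n

/-- The conclusion of the central limit theorem with parameter `σ`: if `σ > 0`, then for every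
interval `I`, `μ(Z_n ∈ I) → (2πσ²)^(-1/2) ∫_I exp(-t²/(2σ²)) dt`; if `σ = 0`, then for every
`δ > 0`, `μ(Z_n ∈ (-δ, δ)) → 1`. -/
def SatisfiesCLT (f : ℂ × ℂ → ℂ × ℂ) (μ : Measure (ℂ × ℂ)) (g : ℂ × ℂ → ℝ) (σ : ℝ) : Prop :=
  (0 < σ → ∀ I : Set ℝ, I.OrdConnected →
    Tendsto (fun n : ℕ => μ.real {p | Zn f μ g n p ∈ I}) atTop
      (𝓝 ((Real.sqrt (2 * Real.pi * σ ^ 2))⁻¹ * ∫ t in I, Real.exp (-t ^ 2 / (2 * σ ^ 2))))) ∧
  (σ = 0 → ∀ δ > 0,
    Tendsto (fun n : ℕ => μ.real {p | Zn f μ g n p ∈ Set.Ioo (-δ) δ}) atTop (𝓝 1))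

end Pool.Agent.Work.MP_9ac7bc_an
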