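import Mathlib

set_option autoImplicit false

open MeasureTheory

namespace Pool.Agent.Work.MP_9ac7bc_an

/-- negMulLog is subadditive on nonnegative reals -/
lemma negMulLog_add_le {x y : ℝ} (hx : 0 ≤ x) (hy : 0 ≤ y) :
    Real.negMulLog (x + y) ≤ Real.negMulLog x + Real.negMulLog y := by
  unfold Real.negMulLog
  rcases hx.eq_or_lt with rfl | hx'
  · simp
  rcases hy.eq_or_lt with rfl | hy'
  · simp
  have h1 : Real.log x ≤ Real.log (x + y) := Real.log_le_log hx' (by linarith)
  have h2 : Real.log y ≤ Real.log (x + y) := Real.log_le_log hy' (by linarith)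
  nlinarith

lemma negMulLog_sum_le {ι : Type*} (s : Finset ι) (p : ι → ℝ) (hp : ∀ i, 0 ≤ p i) :
    Real.negMulLog (∑ i ∈ s, p i) ≤ ∑ i ∈ s, Real.negMulLog (p i) := by
  classical
  induction s using Finset.induction_on with
  | empty => simp
  | insert i s hi ih =>
    rw [Finset.sum_insert hi, Finset.sum_insert hi]
    exact (negMulLog_add_le (hp i) (Finset.sum_nonneg fun j _ => hp j)).trans
      (add_le_add le_rfl ih)

/-- finite-sum version of: conditioning on more reduces entropy -/
lemma gibbs {α β γ : Type*} [Fintype α] [Fintype β] [Fintype γ] [DecidableEq γ]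
    (P : α → β → ℝ) (hP : ∀ a b, 0 ≤ P a b) (g : β → γ) :
    (∑ b, ∑ a, Real.negMulLog (P a b)) +
      ∑ c, Real.negMulLog (∑ b, if g b = c then ∑ a, P a b else 0) ≤
    (∑ c, ∑ a, Real.negMulLog (∑ b, if g b = c then P a b else 0)) +
      ∑ b, Real.negMulLog (∑ a, P a b) := by
  set Pb : β → ℝ := fun b => ∑ a, P a b with hPb
  set Pg : α → γ → ℝ := fun a c => ∑ b, if g b = c then P a b else 0 with hPg
  set Pc : γ → ℝ := fun c => ∑ b, if g b = c then Pb b else 0 with hPc
  have hPb0 : ∀ b, 0 ≤ Pb b := fun b => Finset.sum_nonneg fun a _ => hP a b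
  have hPg0 : ∀ a c, 0 ≤ Pg a c := fun a c => Finset.sum_nonneg fun b _ => by
    split_ifs <;> simp [hP]
  have hPc0 : ∀ c, 0 ≤ Pc c := fun c => Finset.sum_nonneg fun b _ => by
    split_ifs <;> simp [hPb0]
  have hsumPg : ∀ c, ∑ a, Pg a c = Pc c := by
    intro c
    simp only [hPg, hPc, hPb]
    rw [Finset.sum_comm]
    refine Finset.sum_congr rfl fun b _ => ?_
    split_ifs <;> simp
  have lePb : ∀ a b, P a b ≤ Pb b := fun a b =>
    Finset.single_le_sum (f := fun a => P a b) (fun a _ => hP a b) (Finset.mem_univ a)
  have lePg : ∀ a b, P a b ≤ Pg a (g b) := by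
    intro a b
    have := Finset.single_le_sum (f := fun b' => if g b' = g b then P a b' else 0)
      (fun b' _ => by split_ifs <;> simp [hP]) (Finset.mem_univ b)
    simpa using this
  have lePc : ∀ b, Pb b ≤ Pc (g b) := by
    intro b
    have := Finset.single_le_sum (f := fun b' => if g b' = g b then Pb b' else 0)
      (fun b' _ => by split_ifs <;> simp [hPb0]) (Finset.mem_univ b)
    simpa using this
  -- rewrite each term as a double sum
  have e1 : ∑ c, Real.negMulLog (Pc c) = ∑ b, ∑ a, -(P a b * Real.log (Pc (g b))) := by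
    have : ∀ c, Real.negMulLog (Pc c) = ∑ b, if g b = c then ∑ a, -(P a b * Real.log (Pc (g b))) else 0 := by
      intro c
      have h1 : Real.negMulLog (Pc c) = ∑ b, if g b = c then Pb b * (-Real.log (Pc c)) else 0 := by
        have h2 : Real.negMulLog (Pc c) = Pc c * (-Real.log (Pc c)) := by
          unfold Real.negMulLog; ring
        rw [h2]
        have h3 : Pc c = ∑ b, if g b = c then Pb b else 0 := rfl
        generalize -Real.log (Pc c) = t
        rw [h3, Finset.sum_mul]
        refine Finset.sum_congr rfl fun b _ => ?_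
        split_ifs <;> simp
      rw [h1]
      refine Finset.sum_congr rfl fun b _ => ?_
      split_ifs with h
      · rw [← h, hPb]; simp only
        rw [Finset.sum_mul]
        refine Finset.sum_congr rfl fun a _ => by ring
      · rfl
    rw [Finset.sum_congr rfl fun c _ => this c, Finset.sum_comm]
    refine Finset.sum_congr rfl fun b _ => ?_
    simp
  have e2 : ∑ c, ∑ a, Real.negMulLog (Pg a c) = ∑ b, ∑ a, -(P a b * Real.log (Pg a (g b))) := by
    have : ∀ c a, Real.negMulLog (Pg a c) =
        ∑ b, if g b = c then -(P a b * Real.log (Pg a (g b))) else 0 := by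
      intro c a
      have h1 : Real.negMulLog (Pg a c) = ∑ b, if g b = c then P a b * (-Real.log (Pg a c)) else 0 := by
        have h2 : Real.negMulLog (Pg a c) = Pg a c * (-Real.log (Pg a c)) := by
          unfold Real.negMulLog; ring
        rw [h2]
        have h3 : Pg a c = ∑ b, if g b = c then P a b else 0 := rfl
        generalize -Real.log (Pg a c) = t
        rw [h3, Finset.sum_mul]
        refine Finset.sum_congr rfl fun b _ => ?_
        split_ifs <;> simp
      rw [h1]
      refine Finset.sum_congr rfl fun b _ => ?_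
      split_ifs with h
      · rw [← h]; ring
      · rfl
    simp only [this]
    rw [Finset.sum_comm]
    simp_rw [Finset.sum_comm (s := (Finset.univ : Finset γ))]
    rw [Finset.sum_comm]
    refine Finset.sum_congr rfl fun b _ => ?_
    refine Finset.sum_congr rfl fun a _ => ?_
    simp
  have e3 : ∑ b, Real.negMulLog (Pb b) = ∑ b, ∑ a, -(P a b * Real.log (Pb b)) := by
    refine Finset.sum_congr rfl fun b _ => ?_
    have h2 : Real.negMulLog (Pb b) = Pb b * (-Real.log (Pb b)) := by
      unfold Real.negMulLog; ring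
    rw [h2]
    conv_lhs => rw [hPb]
    simp only
    rw [Finset.sum_mul]
    refine Finset.sum_congr rfl fun a _ => by ring
  rw [e1, e2, e3, ← Finset.sum_add_distrib, ← Finset.sum_add_distrib]
  simp only [← Finset.sum_add_distrib]
  -- compare, with correction terms summing to zero
  have key : ∀ b a, Real.negMulLog (P a b) + -(P a b * Real.log (Pc (g b))) ≤
      (-(P a b * Real.log (Pg a (g b))) + -(P a b * Real.log (Pb b))) +
      (Pg a (g b) * Pb b / Pc (g b) - P a b) := by
    intro b a
    rcases (hP a b).eq_or_lt with h0 | hpos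
    · rw [← h0]
      simp only [Real.negMulLog_zero, zero_mul, neg_zero, add_zero, sub_zero, zero_add]
      exact div_nonneg (mul_nonneg (hPg0 _ _) (hPb0 _)) (hPc0 _)
    · have p1 : 0 < Pb b := hpos.trans_le (lePb a b)
      have p2 : 0 < Pg a (g b) := hpos.trans_le (lePg a b)
      have p3 : 0 < Pc (g b) := p1.trans_le (lePc b)
      have ht : 0 < Pg a (g b) * Pb b / (P a b * Pc (g b)) := by positivity
      have hlog := Real.log_le_sub_one_of_pos ht
      have hl : Real.log (Pg a (g b) * Pb b / (P a b * Pc (g b))) =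
          Real.log (Pg a (g b)) + Real.log (Pb b) - Real.log (P a b) - Real.log (Pc (g b)) := by
        rw [Real.log_div (by positivity) (by positivity), Real.log_mul p2.ne' p1.ne',
          Real.log_mul hpos.ne' p3.ne']
        ring
      rw [hl] at hlog
      have := mul_le_mul_of_nonneg_left hlog hpos.le
      have hr : P a b * (Pg a (g b) * Pb b / (P a b * Pc (g b)) - 1) =
          Pg a (g b) * Pb b / Pc (g b) - P a b := by
        field_simp
      rw [hr] at this
      unfold Real.negMulLog
      nlinarith
  have hsum0 : ∑ b, ∑ a, (Pg a (g b) * Pb b / Pc (g b) - P a b) = 0 := by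
    refine Finset.sum_eq_zero fun b _ => ?_
    rw [Finset.sum_sub_distrib]
    have : ∑ a, Pg a (g b) * Pb b / Pc (g b) = Pb b := by
      rw [← Finset.sum_div, ← Finset.sum_mul, hsumPg]
      rcases (hPb0 b).eq_or_lt with h0 | hpos
      · rw [← h0]; simp
      · have := (hpos.trans_le (lePc b)).ne'
        field_simp
    rw [this]
    simp [hPb]
  calc _ ≤ ∑ b, ∑ a, ((-(P a b * Real.log (Pg a (g b))) + -(P a b * Real.log (Pb b))) +
      (Pg a (g b) * Pb b / Pc (g b) - P a b)) :=
        Finset.sum_le_sum fun b _ => Finset.sum_le_sum fun a _ => key b a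
    _ = ∑ b, ∑ a, (-(P a b * Real.log (Pg a (g b))) + -(P a b * Real.log (Pb b))) +
        ∑ b, ∑ a, (Pg a (g b) * Pb b / Pc (g b) - P a b) := by
        rw [← Finset.sum_add_distrib]
        refine Finset.sum_congr rfl fun b _ => ?_
        rw [← Finset.sum_add_distrib]
    _ = _ := by rw [hsum0, add_zero]

end Pool.Agent.Work.MP_9ac7bc_an
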