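import Mathlib
import Pool.Agent.Work.MP_9ac7bc_an.Entropy
import Pool.Agent.Work.MP_9ac7bc_an.Defs

set_option autoImplicit false

open MeasureTheory Filter Topology

namespace Pool.Agent.Work.MP_9ac7bc_an

variable {X : Type*} [MeasurableSpace X]

/-- all fibres are measurable -/
def MQ {α : Type*} (q : X → α) : Prop := ∀ a, MeasurableSet (q ⁻¹' {a})

lemma MQ.comp {α β : Type*} [Finite α] {q : X → α} (hq : MQ q) (g : α → β) : MQ (g ∘ q) := by
  intro b
  have : (g ∘ q) ⁻¹' {b} = ⋃ a ∈ {a | g a = b}, q ⁻¹' {a} := by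
    ext x; simp
  rw [this]
  exact MeasurableSet.biUnion (Set.to_countable _) fun a _ => hq a

lemma MQ.prod {α β : Type*} {q : X → α} {r : X → β} (hq : MQ q) (hr : MQ r) :
    MQ (fun x => (q x, r x)) := by
  rintro ⟨a, b⟩
  have : (fun x => (q x, r x)) ⁻¹' {(a, b)} = q ⁻¹' {a} ∩ r ⁻¹' {b} := by
    ext x; simp
  rw [this]
  exact (hq a).inter (hr b)

lemma MQ.comp_meas {Y : Type*} [MeasurableSpace Y] {α : Type*} {q : X → α} (hq : MQ q)
    {f : Y → X} (hf : Measurable f) : MQ (q ∘ f) := fun a => hf (hq a)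

lemma MQ.pi {ι α : Type*} [Finite ι] {q : ι → X → α} (hq : ∀ i, MQ (q i)) :
    MQ (fun x i => q i x) := by
  intro a
  have : (fun x i => q i x) ⁻¹' {a} = ⋂ i, q i ⁻¹' {a i} := by
    ext x
    simp only [Set.mem_preimage, Set.mem_singleton_iff, Set.mem_iInter]
    exact funext_iff
  rw [this]
  exact MeasurableSet.iInter fun i => hq i _

lemma real_sum_fiber {β : Type*} [Fintype β] (ν : Measure X) [IsFiniteMeasure ν] {r : X → β}
    (hr : MQ r) {S : Set X} (hS : MeasurableSet S) (P : β → Prop) [DecidablePred P] :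
    ν.real (S ∩ {x | P (r x)}) = ∑ b, if P b then ν.real (S ∩ r ⁻¹' {b}) else 0 := by
  have h1 : S ∩ {x | P (r x)} = ⋃ b ∈ (Finset.univ.filter P), (S ∩ r ⁻¹' {b}) := by
    ext x; simp
  rw [h1, measureReal_biUnion_finset]
  · rw [Finset.sum_filter]
  · intro a _ b _ hab
    simp only [Function.onFun]
    rw [Set.disjoint_left]
    rintro x ⟨_, hx1⟩ ⟨_, hx2⟩
    simp at hx1 hx2
    exact hab (hx1.symm.trans hx2)
  · intro b _
    exact hS.inter (hr b)

lemma real_sum_univ {β : Type*} [Fintype β] (ν : Measure X) [IsFiniteMeasure ν] {r : X → β}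
    (hr : MQ r) {S : Set X} (hS : MeasurableSet S) :
    ν.real S = ∑ b, ν.real (S ∩ r ⁻¹' {b}) := by
  have := real_sum_fiber ν hr hS (fun _ => True)
  simpa using this

/-- conditioning on a finer partition reduces entropy -/
lemma cond_mono {α β γ : Type*} [Fintype α] [Fintype β] [Fintype γ]
    (ν : Measure X) [IsFiniteMeasure ν] {q : X → α} {r : X → β} (hq : MQ q) (hr : MQ r)
    (g : β → γ) :
    Hent ν (fun x => (q x, r x)) + Hent ν (fun x => g (r x)) ≤
      Hent ν (fun x => (q x, g (r x))) + Hent ν r := by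
  classical
  have h := gibbs (fun a b => ν.real (q ⁻¹' {a} ∩ r ⁻¹' {b})) (fun a b => measureReal_nonneg) g
  have hb : ∀ b, ∑ a, ν.real (q ⁻¹' {a} ∩ r ⁻¹' {b}) = ν.real (r ⁻¹' {b}) := by
    intro b
    rw [real_sum_univ ν hq (hr b)]
    refine Finset.sum_congr rfl fun a _ => by rw [Set.inter_comm]
  have e1 : Hent ν (fun x => (q x, r x)) =
      ∑ b, ∑ a, Real.negMulLog (ν.real (q ⁻¹' {a} ∩ r ⁻¹' {b})) := by
    unfold Hent
    rw [Fintype.sum_prod_type_right]
    refine Finset.sum_congr rfl fun b _ => Finset.sum_congr rfl fun a _ => ?_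
    congr 2
    ext x; simp
  have e2 : Hent ν (fun x => g (r x)) =
      ∑ c, Real.negMulLog (∑ b, if g b = c then ∑ a, ν.real (q ⁻¹' {a} ∩ r ⁻¹' {b}) else 0) := by
    unfold Hent
    refine Finset.sum_congr rfl fun c _ => ?_
    congr 1
    simp only [hb]
    have := real_sum_fiber ν hr MeasurableSet.univ (fun b => g b = c)
    simp only [Set.univ_inter] at this
    rw [← this]
    congr 1
  have e3 : Hent ν (fun x => (q x, g (r x))) =
      ∑ c, ∑ a, Real.negMulLog (∑ b, if g b = c then ν.real (q ⁻¹' {a} ∩ r ⁻¹' {b}) else 0) := by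
    unfold Hent
    rw [Fintype.sum_prod_type_right]
    refine Finset.sum_congr rfl fun c _ => Finset.sum_congr rfl fun a _ => ?_
    congr 1
    have := real_sum_fiber ν hr (hq a) (fun b => g b = c)
    rw [← this]
    congr 1
    ext x; simp
  have e4 : Hent ν r = ∑ b, Real.negMulLog (∑ a, ν.real (q ⁻¹' {a} ∩ r ⁻¹' {b})) := by
    unfold Hent
    simp only [hb]
  rw [e1, e2, e3, e4]
  exact h

lemma Hent_mono {α β : Type*} [Fintype α] [Fintype β]
    (ν : Measure X) [IsFiniteMeasure ν] {q : X → α} {r : X → β} (hq : MQ q) (hr : MQ r) :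
    Hent ν r ≤ Hent ν (fun x => (q x, r x)) := by
  unfold Hent
  rw [Fintype.sum_prod_type_right]
  refine Finset.sum_le_sum fun b _ => ?_
  rw [real_sum_univ ν hq (hr b)]
  refine (negMulLog_sum_le _ _ fun _ => measureReal_nonneg).trans (le_of_eq ?_)
  refine Finset.sum_congr rfl fun a _ => ?_
  congr 2
  ext x; simp [and_comm]

lemma Hent_equiv {α β : Type*} [Fintype α] [Fintype β] (ν : Measure X) (e : α ≃ β) (q : X → α) :
    Hent ν (fun x => e (q x)) = Hent ν q := by
  unfold Hent
  rw [← Equiv.sum_comp e]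
  refine Finset.sum_congr rfl fun a _ => ?_
  congr 2
  ext x; simp

lemma Hent_comp {α : Type*} [Fintype α] {ν : Measure X} {f : X → X}
    (hf : MeasurePreserving f ν ν) {q : X → α} (hq : MQ q) :
    Hent ν (fun x => q (f x)) = Hent ν q := by
  unfold Hent
  refine Finset.sum_congr rfl fun a _ => ?_
  have : (fun x => q (f x)) ⁻¹' {a} = f ⁻¹' (q ⁻¹' {a}) := rfl
  rw [this, hf.measureReal_preimage (hq a).nullMeasurableSet]

lemma sum_negMulLog_le {ι : Type*} (A : Finset ι) (p : ι → ℝ) (hp : ∀ i, 0 ≤ p i)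
    (C : ℝ) (hA : (A.card : ℝ) ≤ C) :
    ∑ i ∈ A, Real.negMulLog (p i) ≤ Real.negMulLog (∑ i ∈ A, p i) + (∑ i ∈ A, p i) * Real.log C := by
  rcases A.eq_empty_or_nonempty with rfl | hne
  · simp
  set P := ∑ i ∈ A, p i with hP
  have hP0 : 0 ≤ P := Finset.sum_nonneg fun i _ => hp i
  have hcard : (0 : ℝ) < A.card := by exact_mod_cast hne.card_pos
  have hlogC : P * Real.log A.card ≤ P * Real.log C :=
    mul_le_mul_of_nonneg_left (Real.log_le_log hcard hA) hP0
  have key : ∀ i ∈ A, Real.negMulLog (p i) ≤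
      -(p i * Real.log P) + p i * Real.log A.card + (P / A.card - p i) := by
    intro i hi
    rcases (hp i).eq_or_lt with h0 | hpos
    · rw [← h0]; simp; positivity
    · have hPi : p i ≤ P := Finset.single_le_sum (fun j _ => hp j) hi
      have hPpos : 0 < P := hpos.trans_le hPi
      have ht : 0 < P / (A.card * p i) := by positivity
      have hlog := Real.log_le_sub_one_of_pos ht
      have hl : Real.log (P / (A.card * p i)) = Real.log P - Real.log A.card - Real.log (p i) := by
        rw [Real.log_div hPpos.ne' (by positivity), Real.log_mul hcard.ne' hpos.ne']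
        ring
      rw [hl] at hlog
      have := mul_le_mul_of_nonneg_left hlog hpos.le
      have hr : p i * (P / (A.card * p i) - 1) = P / A.card - p i := by field_simp
      rw [hr] at this
      unfold Real.negMulLog
      nlinarith
  calc ∑ i ∈ A, Real.negMulLog (p i)
      ≤ ∑ i ∈ A, (-(p i * Real.log P) + p i * Real.log A.card + (P / A.card - p i)) :=
        Finset.sum_le_sum key
    _ = Real.negMulLog P + P * Real.log A.card := by
        rw [Finset.sum_add_distrib, Finset.sum_add_distrib, Finset.sum_sub_distrib,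
          Finset.sum_neg_distrib, ← Finset.sum_mul, ← Finset.sum_mul, Finset.sum_const, ← hP,
          nsmul_eq_mul]
        unfold Real.negMulLog
        field_simp
        ring
    _ ≤ _ := by linarith

/-- if, given `r`, there are at most `C` possible values of `q` -/
lemma cond_card {α β : Type*} [Fintype α] [Fintype β]
    (ν : Measure X) [IsFiniteMeasure ν] {q : X → α} {r : X → β} (hq : MQ q) (hr : MQ r)
    (C : ℝ) (A : β → Finset α) (hA : ∀ b, ((A b).card : ℝ) ≤ C)
    (h0 : ∀ b, ∀ a ∉ A b, ν.real (q ⁻¹' {a} ∩ r ⁻¹' {b}) = 0) :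
    Hent ν (fun x => (q x, r x)) ≤ Hent ν r + ν.real Set.univ * Real.log C := by
  classical
  have hb : ∀ b, ∑ a, ν.real (q ⁻¹' {a} ∩ r ⁻¹' {b}) = ν.real (r ⁻¹' {b}) := by
    intro b
    rw [real_sum_univ ν hq (hr b)]
    refine Finset.sum_congr rfl fun a _ => by rw [Set.inter_comm]
  have e1 : Hent ν (fun x => (q x, r x)) =
      ∑ b, ∑ a, Real.negMulLog (ν.real (q ⁻¹' {a} ∩ r ⁻¹' {b})) := by
    unfold Hent
    rw [Fintype.sum_prod_type_right]
    refine Finset.sum_congr rfl fun b _ => Finset.sum_congr rfl fun a _ => ?_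
    congr 2
    ext x; simp
  have e2 : ν.real Set.univ = ∑ b, ν.real (r ⁻¹' {b}) := by
    rw [real_sum_univ ν hr MeasurableSet.univ]; simp
  rw [e1, e2, Finset.sum_mul]
  unfold Hent
  rw [← Finset.sum_add_distrib]
  refine Finset.sum_le_sum fun b _ => ?_
  have h1 : ∑ a, Real.negMulLog (ν.real (q ⁻¹' {a} ∩ r ⁻¹' {b})) =
      ∑ a ∈ A b, Real.negMulLog (ν.real (q ⁻¹' {a} ∩ r ⁻¹' {b})) := by
    symm
    refine Finset.sum_subset (Finset.subset_univ _) fun a _ ha => ?_
    rw [h0 b a ha]; simp
  have h2 : ν.real (r ⁻¹' {b}) = ∑ a ∈ A b, ν.real (q ⁻¹' {a} ∩ r ⁻¹' {b}) := by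
    rw [← hb b]
    symm
    exact Finset.sum_subset (Finset.subset_univ _) fun a _ ha => h0 b a ha
  rw [h1, h2]
  exact sum_negMulLog_le _ _ (fun _ => measureReal_nonneg) C (hA b)

lemma Hent_add_measure {α : Type*} [Fintype α] (ν1 ν2 : Measure X) [IsFiniteMeasure ν1]
    [IsFiniteMeasure ν2] (q : X → α) : Hent (ν1 + ν2) q ≤ Hent ν1 q + Hent ν2 q := by
  unfold Hent
  rw [← Finset.sum_add_distrib]
  refine Finset.sum_le_sum fun a _ => ?_
  rw [measureReal_add_apply]
  exact negMulLog_add_le measureReal_nonneg measureReal_nonneg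

/-- continuity of conditional entropy -/
lemma tendsto_cond {α : Type*} [Fintype α] (ν : Measure X) [IsFiniteMeasure ν] {q : X → α}
    (hq : MQ q) {r : ℕ → X → α} (hr : ∀ n, MQ (r n))
    (h : Tendsto (fun n => ν.real {x | q x ≠ r n x}) atTop (𝓝 0)) :
    Tendsto (fun n => Hent ν (fun x => (q x, r n x)) - Hent ν (r n)) atTop (𝓝 0) := by
  classical
  have hmE : ∀ n, MeasurableSet {x | q x ≠ r n x} := by
    intro n
    have : {x | q x ≠ r n x} = ((fun x => (q x, r n x)) ⁻¹' {p | p.1 ≠ p.2}) := rfl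
    have h2 : MQ (fun x => (q x, r n x)) := (hq.prod (hr n))
    have h3 := h2.comp (fun p : α × α => decide (p.1 ≠ p.2))
    have := h3 true
    convert this using 1
    ext x; simp
  have diff_le : ∀ n (S T : Set X), (∀ x, q x = r n x → (x ∈ S ↔ x ∈ T)) →
      |ν.real S - ν.real T| ≤ ν.real {x | q x ≠ r n x} := by
    intro n S T hST
    have h1 : S ⊆ T ∪ {x | q x ≠ r n x} := by
      intro x hx
      by_cases hqr : q x = r n x
      · left; exact (hST x hqr).1 hx
      · right; exact hqr
    have h2 : T ⊆ S ∪ {x | q x ≠ r n x} := by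
      intro x hx
      by_cases hqr : q x = r n x
      · left; exact (hST x hqr).2 hx
      · right; exact hqr
    have g1 : ν.real S ≤ ν.real T + ν.real {x | q x ≠ r n x} :=
      (measureReal_mono h1).trans (measureReal_union_le _ _)
    have g2 : ν.real T ≤ ν.real S + ν.real {x | q x ≠ r n x} :=
      (measureReal_mono h2).trans (measureReal_union_le _ _)
    rw [abs_le]; constructor <;> linarith
  have lim : ∀ (S : ℕ → Set X) (T : Set X), (∀ n x, q x = r n x → (x ∈ S n ↔ x ∈ T)) →
      Tendsto (fun n => ν.real (S n)) atTop (𝓝 (ν.real T)) := by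
    intro S T hST
    rw [tendsto_iff_norm_sub_tendsto_zero]
    refine squeeze_zero (fun _ => norm_nonneg _) (fun n => ?_) h
    rw [Real.norm_eq_abs]
    exact diff_le n _ _ (hST n)
  have t1 : Tendsto (fun n => Hent ν (fun x => (q x, r n x))) atTop
      (𝓝 (Hent ν (fun x => (q x, q x)))) := by
    unfold Hent
    refine tendsto_finsetSum _ fun p _ => ?_
    refine (Real.continuous_negMulLog.tendsto _).comp (lim _ _ fun n x hx => ?_)
    simp [hx]
  have t2 : Tendsto (fun n => Hent ν (r n)) atTop (𝓝 (Hent ν q)) := by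
    unfold Hent
    refine tendsto_finsetSum _ fun p _ => ?_
    refine (Real.continuous_negMulLog.tendsto _).comp (lim _ _ fun n x hx => ?_)
    simp [hx]
  have e : Hent ν (fun x => (q x, q x)) = Hent ν q := by
    unfold Hent
    rw [Fintype.sum_prod_type]
    refine Finset.sum_congr rfl fun a _ => ?_
    rw [Finset.sum_eq_single a]
    · congr 2
      ext x; simp
    · intro b _ hba
      have : (fun x => (q x, q x)) ⁻¹' {(a, b)} = ∅ := by
        ext x
        simp only [Set.mem_preimage, Set.mem_singleton_iff, Prod.mk.injEq, Set.mem_empty_iff_false,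
          iff_false, not_and]
        intro h1 h2
        exact hba (h2.symm.trans h1)
      rw [this]; simp
    · intro h; exact absurd (Finset.mem_univ _) h
  have := t1.sub t2
  rwa [e, sub_self] at this

end Pool.Agent.Work.MP_9ac7bc_an
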