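import Mathlib
import Pool.Agent.Work.MP_9ac7bc_an.Partition

set_option autoImplicit false

open MeasureTheory Filter Topology

namespace Pool.Agent.Work.MP_9ac7bc_an

variable {X : Type*} [MeasurableSpace X]

lemma Hent_comp_le {α β : Type*} [Fintype α] [Fintype β]
    (ν : Measure X) [IsFiniteMeasure ν] {r : X → α} (hr : MQ r) (g : α → β) :
    Hent ν (fun x => g (r x)) ≤ Hent ν r := by
  classical
  unfold Hent
  have h1 : ∀ c, ν.real ((fun x => g (r x)) ⁻¹' {c}) = ∑ b, if g b = c then ν.real (r ⁻¹' {b}) else 0 := by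
    intro c
    have := real_sum_fiber ν hr MeasurableSet.univ (fun b => g b = c)
    simp only [Set.univ_inter] at this
    rw [← this]
    congr 1
  calc ∑ c, Real.negMulLog (ν.real ((fun x => g (r x)) ⁻¹' {c}))
      ≤ ∑ c, ∑ b, Real.negMulLog (if g b = c then ν.real (r ⁻¹' {b}) else 0) := by
        refine Finset.sum_le_sum fun c _ => ?_
        rw [h1]
        exact negMulLog_sum_le _ _ fun b => by split_ifs <;> simp [measureReal_nonneg]
    _ = ∑ b, Real.negMulLog (ν.real (r ⁻¹' {b})) := by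
        rw [Finset.sum_comm]
        refine Finset.sum_congr rfl fun b _ => ?_
        rw [Finset.sum_eq_single (g b)]
        · simp
        · intro c _ hc
          rw [if_neg (Ne.symm hc)]; simp
        · intro h; exact absurd (Finset.mem_univ _) h

lemma MQ_itin {α : Type*} {f : X → X} (hf : Measurable f) {q : X → α} (hq : MQ q) (n : ℕ) :
    MQ (itin f q n) := MQ.pi fun i => hq.comp_meas (hf.iterate i)

/-- increments of the itinerary entropy -/
lemma Hent_itin_succ {α β : Type*} [Fintype α] [Fintype β] {ν : Measure X} [IsFiniteMeasure ν]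
    {f : X → X} (hf : MeasurePreserving f ν ν) {Q : X → α} (hQ : MQ Q) (g : α → β)
    (m n : ℕ) (hm : 1 ≤ m) (hmn : m ≤ n) :
    Hent ν (itin f Q (n + 1)) ≤ Hent ν (itin f Q n) +
      (Hent ν (fun x => (Q (f^[m] x), g (Q x))) - Hent ν (fun x => g (Q x))) := by
  have e1 : Hent ν (itin f Q (n + 1)) = Hent ν (fun x => (Q (f^[n] x), itin f Q n x)) := by
    rw [← Hent_equiv ν (Fin.snocEquiv (fun _ : Fin (n + 1) => α))]
    congr 1
    funext x
    funext i
    simp only [itin, Fin.snocEquiv, Equiv.coe_fn_mk]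
    refine Fin.lastCases ?_ (fun j => ?_) i
    · simp
    · simp only [Fin.snoc_castSucc, Fin.val_castSucc]
      rfl
  have hn : n - m < n := by omega
  have h := cond_mono ν (q := fun x => Q (f^[n] x)) (r := itin f Q n)
    (hQ.comp_meas (hf.measurable.iterate n)) (MQ_itin hf.measurable hQ n)
    (fun s => g (s ⟨n - m, hn⟩))
  have e2 : Hent ν (fun x => g (itin f Q n x ⟨n - m, hn⟩)) = Hent ν (fun x => g (Q x)) := by
    have := Hent_comp (hf.iterate (n - m)) (q := fun x => g (Q x)) (hQ.comp g)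
    rw [← this]
    rfl
  have e3 : Hent ν (fun x => (Q (f^[n] x), g (itin f Q n x ⟨n - m, hn⟩))) =
      Hent ν (fun x => (Q (f^[m] x), g (Q x))) := by
    have := Hent_comp (hf.iterate (n - m)) (q := fun x => (Q (f^[m] x), g (Q x)))
      ((hQ.comp_meas (hf.measurable.iterate m)).prod (hQ.comp g))
    rw [← this]
    congr 1
    funext x
    simp only [itin]
    rw [← Function.iterate_add_apply]
    congr 4
    omega
  rw [e2, e3] at h
  rw [e1]
  linarith

lemma Hent_itin_le {α β : Type*} [Fintype α] [Fintype β] {ν : Measure X} [IsFiniteMeasure ν]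
    {f : X → X} (hf : MeasurePreserving f ν ν) {Q : X → α} (hQ : MQ Q) (g : α → β)
    (m : ℕ) (hm : 1 ≤ m) (D : ℝ) (hD0 : 0 ≤ D)
    (hD : Hent ν (fun x => (Q (f^[m] x), g (Q x))) - Hent ν (fun x => g (Q x)) ≤ D) :
    ∃ A : ℝ, ∀ n : ℕ, Hent ν (itin f Q n) ≤ A + n * D := by
  refine ⟨∑ k ∈ Finset.range (m + 1), |Hent ν (itin f Q k)|, fun n => ?_⟩
  induction n with
  | zero =>
    have := Finset.single_le_sum (f := fun k => |Hent ν (itin f Q k)|) (s := Finset.range (m + 1))
      (fun k _ => abs_nonneg _) (Finset.mem_range.2 (Nat.succ_pos m) : 0 ∈ Finset.range (m + 1))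
    have h2 := le_abs_self (Hent ν (itin f Q 0))
    simp only [Nat.cast_zero, zero_mul, add_zero]
    exact h2.trans this
  | succ n ih =>
    by_cases hmn : m ≤ n
    · have := Hent_itin_succ hf hQ g m n hm hmn
      push_cast
      nlinarith
    · have := Finset.single_le_sum (f := fun k => |Hent ν (itin f Q k)|) (s := Finset.range (m + 1))
        (fun k _ => abs_nonneg _) (Finset.mem_range.2 (by omega) : n + 1 ∈ Finset.range (m + 1))
      have h2 := le_abs_self (Hent ν (itin f Q (n + 1)))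
      have h3 : 0 ≤ ((n + 1 : ℕ) : ℝ) * D := by positivity
      linarith [h2.trans this]

/-- rate of growth of itinerary entropy is at most `D` -/
def RateLe {α : Type*} [Fintype α] (ν : Measure X) (f : X → X) (q : X → α) (D : ℝ) : Prop :=
  ∀ δ > 0, ∃ A : ℝ, ∀ n : ℕ, Hent ν (itin f q n) ≤ A + n * (D + δ)

lemma RateLe.partEntropy_le {α : Type*} [Fintype α] {ν : Measure X} {f : X → X} {q : X → α} {D : ℝ}
    (h : RateLe ν f q D) : partEntropy ν f q ≤ (D : EReal) := by
  unfold partEntropy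
  refine EReal.le_of_forall_lt_iff_le.1 fun z hz => ?_
  have hz' : D < z := by exact_mod_cast hz
  obtain ⟨A, hA⟩ := h ((z - D) / 2) (by linarith)
  refine limsup_le_of_le ?_ ?_
  · isBoundedDefault
  · have hlarge : ∀ᶠ n : ℕ in atTop, |A| / ((z - D) / 2) ≤ (n : ℝ) :=
      tendsto_natCast_atTop_atTop.eventually_ge_atTop _
    filter_upwards [hlarge, eventually_gt_atTop 0] with n hn hn0
    have hnpos : (0 : ℝ) < n := by exact_mod_cast hn0
    rw [EReal.coe_le_coe_iff, div_le_iff₀ hnpos]
    rw [div_le_iff₀ (by linarith)] at hn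
    have := hA n
    have := le_abs_self A
    nlinarith

lemma RateLe.add_measure {α : Type*} [Fintype α] {ν1 ν2 : Measure X} [IsFiniteMeasure ν1]
    [IsFiniteMeasure ν2] {f : X → X} {q : X → α} {D1 D2 : ℝ} (h1 : RateLe ν1 f q D1)
    (h2 : RateLe ν2 f q D2) : RateLe (ν1 + ν2) f q (D1 + D2) := by
  intro δ hδ
  obtain ⟨A1, hA1⟩ := h1 (δ / 2) (by positivity)
  obtain ⟨A2, hA2⟩ := h2 (δ / 2) (by positivity)
  refine ⟨A1 + A2, fun n => ?_⟩
  refine (Hent_add_measure ν1 ν2 _).trans ?_
  have := hA1 n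
  have := hA2 n
  linarith

/-- rigid systems have zero entropy -/
lemma RateLe.of_rigid {α : Type*} [Fintype α] {ν : Measure X} [IsFiniteMeasure ν]
    {f : X → X} (hf : MeasurePreserving f ν ν) {q : X → α} (hq : MQ q) (m : ℕ → ℕ)
    (hm : ∀ j, 1 ≤ m j)
    (h : Tendsto (fun j => ν.real {x | q x ≠ q (f^[m j] x)}) atTop (𝓝 0)) : RateLe ν f q 0 := by
  intro δ hδ
  have hr : ∀ j, MQ (fun x => q (f^[m j] x)) := fun j => hq.comp_meas (hf.measurable.iterate _)
  have ht := tendsto_cond ν hq (r := fun j x => q (f^[m j] x)) hr h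
  obtain ⟨j, hj⟩ := (ht.eventually (gt_mem_nhds hδ)).exists
  have e1 : Hent ν (fun x => (q (f^[m j] x), q x)) = Hent ν (fun x => (q x, q (f^[m j] x))) := by
    rw [← Hent_equiv ν (Equiv.prodComm α α)]
    rfl
  have e2 : Hent ν (fun x => q (f^[m j] x)) = Hent ν q := Hent_comp (hf.iterate _) hq
  have hD : Hent ν (fun x => (q (f^[m j] x), id (q x))) - Hent ν (fun x => id (q x)) ≤ δ := by
    simp only [id]
    rw [e1, ← e2]
    exact hj.le
  obtain ⟨A, hA⟩ := Hent_itin_le hf hq id (m j) (hm j) δ hδ.le hD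
  exact ⟨A, fun n => by rw [zero_add]; exact hA n⟩

/-- rate bound through an auxiliary sequence of partitions -/
lemma RateLe.of_cells {α : Type*} [Fintype α] {ν : Measure X} [IsFiniteMeasure ν]
    {f : X → X} (hf : MeasurePreserving f ν ν) {q : X → α} (hq : MQ q) (D : ℝ) (hD0 : 0 ≤ D)
    (β : ℕ → Type) [∀ j, Fintype (β j)] (c : ∀ j, X → β j) (hc : ∀ j, MQ (c j))
    (hcf : ∀ j, Hent ν (fun x => (c j (f x), c j x)) ≤ Hent ν (c j) + D)
    (happ : ∀ ε > 0, ∃ (j : ℕ) (g : β j → α), ν.real {x | q x ≠ g (c j x)} < ε) :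
    RateLe ν f q D := by
  intro δ hδ
  -- choose approximating partitions
  have hex : ∀ i : ℕ, ∃ (j : ℕ) (g : β j → α), ν.real {x | q x ≠ g (c j x)} < 1 / (i + 1) :=
    fun i => happ _ (by positivity)
  choose j g hjg using hex
  have ht := tendsto_cond ν hq (r := fun i x => g i (c (j i) x)) (fun i => (hc (j i)).comp (g i))
    (squeeze_zero (fun _ => measureReal_nonneg) (fun i => (hjg i).le)
      tendsto_one_div_add_atTop_nhds_zero_nat)
  obtain ⟨i, hi⟩ := (ht.eventually (gt_mem_nhds hδ)).exists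
  -- conditional entropy given the cells
  set C := c (j i) with hC
  have hCm : MQ C := hc (j i)
  have h1 := cond_mono ν hq hCm (g i)
  have h2 : Hent ν (fun x => (q x, C x)) - Hent ν C ≤ δ := by linarith
  -- joint partition
  have hQ : MQ (fun x => (q x, C x)) := hq.prod hCm
  have h3 := cond_mono ν (q := fun x => q (f x)) (r := fun x => (C (f x), C x))
    (hq.comp_meas hf.measurable) ((hCm.comp_meas hf.measurable).prod hCm) Prod.fst
  have e1 : Hent ν (fun x => C (f x)) = Hent ν C := Hent_comp hf hCm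
  have e2 : Hent ν (fun x => (q (f x), C (f x))) = Hent ν (fun x => (q x, C x)) :=
    Hent_comp hf hQ
  have e3 : Hent ν (fun x => (q (f x), (C (f x), C x))) =
      Hent ν (fun x => ((q (f x), C (f x)), C x)) := by
    rw [← Hent_equiv ν (Equiv.prodAssoc _ _ _)]
    rfl
  simp only at h3
  rw [e1, e2, e3] at h3
  have h4 := hcf (j i)
  have hD : Hent ν (fun x => ((fun x => (q x, C x)) (f^[1] x), Prod.snd ((fun x => (q x, C x)) x))) -
      Hent ν (fun x => Prod.snd ((fun x => (q x, C x)) x)) ≤ D + δ := by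
    simp only [Function.iterate_one]
    linarith
  obtain ⟨A, hA⟩ := Hent_itin_le hf hQ Prod.snd 1 le_rfl (D + δ) (by linarith) hD
  refine ⟨A, fun n => ?_⟩
  have : Hent ν (itin f q n) ≤ Hent ν (itin f (fun x => (q x, C x)) n) :=
    Hent_comp_le ν (MQ_itin hf.measurable hQ n) (fun s i => (s i).1)
  exact this.trans (hA n)

end Pool.Agent.Work.MP_9ac7bc_an
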