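import Mathlib

set_option autoImplicit false

namespace Pool.Agent.Work.MP_9ac7bc_an

/-- binary trees -/
inductive BT : Type
  | leaf : BT
  | node : BT → BT → BT

namespace BT

/-- number of leaves -/
def lv : BT → ℕ
  | leaf => 1
  | node l r => lv l + lv r

/-- number of bad nodes; a node with `k` leaves below it is bad if `b k` -/
def cnt (b : ℕ → Prop) [DecidablePred b] : BT → ℕ
  | leaf => 0
  | node l r => (if b (lv l + lv r) then 1 else 0) + (cnt b l + cnt b r)

/-- weight of a tree -/
noncomputable def wt (e : ℕ → ℝ) : BT → ℝ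
  | leaf => 1
  | node l r => e (lv l + lv r) * (wt e l * wt e r)

lemma one_le_lv (T : BT) : 1 ≤ lv T := by
  induction T with
  | leaf => simp [lv]
  | node l r ihl ihr => simp only [lv]; omega

lemma cnt_bound (b : ℕ → Prop) [DecidablePred b] (m : ℝ) (hm : 0 < m)
    (h1 : ∀ k, b k → m < k) (h2 : ∀ k k', b k → b k' → k' < k → m ≤ (k : ℝ) - k') (T : BT) :
    ((cnt b T : ℝ) ≤ max 0 (2 * (lv T : ℝ) / m - 1)) ∧
    ∀ K : ℕ, b K → lv T < K → (cnt b T : ℝ) ≤ max 0 (2 * (K : ℝ) / m - 2) := by
  induction T with
  | leaf =>
    refine ⟨?_, fun K hK hlt => ?_⟩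
    · simp [cnt]
    · simp [cnt]
  | node l r ihl ihr =>
    obtain ⟨al, bl⟩ := ihl
    obtain ⟨ar, br⟩ := ihr
    have hl1 : (1 : ℝ) ≤ lv l := by exact_mod_cast one_le_lv l
    have hr1 : (1 : ℝ) ≤ lv r := by exact_mod_cast one_le_lv r
    have hlN := one_le_lv l
    have hrN := one_le_lv r
    -- dichotomy for a subtree
    have dich : ∀ S : BT, ((cnt b S : ℝ) ≤ max 0 (2 * (lv S : ℝ) / m - 1)) →
        ((cnt b S : ℝ) ≤ 2 * (lv S : ℝ) / m - 1) ∨ (cnt b S : ℝ) = 0 := by
      intro S hS
      rcases le_total 0 (2 * (lv S : ℝ) / m - 1) with h | h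
      · left; rwa [max_eq_right h] at hS
      · right; rw [max_eq_left h] at hS
        exact le_antisymm hS (Nat.cast_nonneg _)
    have hlv : (lv (node l r) : ℝ) = lv l + lv r := by simp [lv]
    have hA : (cnt b (node l r) : ℝ) ≤ max 0 (2 * (lv (node l r) : ℝ) / m - 1) := by
      by_cases hb : b (lv l + lv r)
      · have hc : (cnt b (node l r) : ℝ) = 1 + (cnt b l + cnt b r) := by
          simp [cnt, hb]
        have hbig := h1 _ hb
        push_cast at hbig
        have hK : (1 : ℝ) ≤ 2 * ((lv l : ℝ) + lv r) / m - 1 := by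
          rw [le_sub_iff_add_le, le_div_iff₀ hm]; linarith
        have h2K : (0:ℝ) ≤ 2 * ((lv l : ℝ) + lv r) / m - 2 := by linarith
        rw [hc, hlv]
        refine le_max_of_le_right ?_
        rcases dich l al with hl | hl <;> rcases dich r ar with hr | hr
        · have : 2 * ((lv l : ℝ) + lv r) / m = 2 * (lv l : ℝ) / m + 2 * (lv r : ℝ) / m := by ring
          linarith
        · have := bl (lv l + lv r) hb (by omega)
          push_cast at this
          rw [max_eq_right h2K] at this
          linarith
        · have := br (lv l + lv r) hb (by omega)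
          push_cast at this
          rw [max_eq_right h2K] at this
          linarith
        · rw [hl, hr]; linarith
      · have hc : (cnt b (node l r) : ℝ) = cnt b l + cnt b r := by
          simp [cnt, hb]
        rw [hc, hlv]
        have e : 2 * ((lv l : ℝ) + lv r) / m = 2 * (lv l : ℝ) / m + 2 * (lv r : ℝ) / m := by ring
        have pl : 0 ≤ 2 * (lv l : ℝ) / m := by positivity
        have pr : 0 ≤ 2 * (lv r : ℝ) / m := by positivity
        rcases dich l al with hl | hl <;> rcases dich r ar with hr | hr
        · refine le_max_of_le_right ?_; linarith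
        · refine le_max_of_le_right ?_; linarith
        · refine le_max_of_le_right ?_; linarith
        · refine le_max_of_le_left ?_; linarith
    refine ⟨hA, fun K hK hlt => ?_⟩
    have hltR : (lv l : ℝ) + lv r < K := by
      have : lv l + lv r < K := hlt
      exact_mod_cast this
    by_cases hfar : m ≤ (K : ℝ) - (lv l + lv r)
    · refine hA.trans (max_le_max le_rfl ?_)
      rw [hlv]
      have : 2 * ((lv l : ℝ) + lv r) / m ≤ 2 * (K - m) / m := by gcongr; linarith
      have e : 2 * ((K : ℝ) - m) / m = 2 * K / m - 2 := by field_simp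
      linarith
    · have hb : ¬ b (lv l + lv r) := by
        intro hb
        have := h2 K (lv l + lv r) hK hb (by simpa [lv] using hlt)
        push_cast at this
        exact hfar this
      have hc : (cnt b (node l r) : ℝ) = cnt b l + cnt b r := by
        simp [cnt, hb]
      rw [hc]
      have hltN : lv l + lv r < K := hlt
      have e : 2 * ((lv l : ℝ) + lv r) / m = 2 * (lv l : ℝ) / m + 2 * (lv r : ℝ) / m := by ring
      have e2 : 2 * ((lv l : ℝ) + lv r) / m ≤ 2 * K / m := by gcongr
      rcases dich l al with hl | hl <;> rcases dich r ar with hr | hr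
      · refine le_max_of_le_right ?_; linarith
      · have := bl K hK (by omega)
        rw [hr, add_zero]; exact this
      · have := br K hK (by omega)
        rw [hl, zero_add]; exact this
      · rw [hl, hr, add_zero]; exact le_max_left _ _

end BT

end Pool.Agent.Work.MP_9ac7bc_an
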