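import Mathlib
import Pool.Agent.Work.MP_9ac7bc_an.Trees

set_option autoImplicit false

namespace Pool.Agent.Work.MP_9ac7bc_an

lemma le_two_pow_count (J : ℕ) (x : ℝ) (hx : x < 2 ^ (J + 1)) :
    x ≤ 2 ^ (1 + ∑ j ∈ Finset.Icc 1 J, (if (2 : ℝ) ^ j ≤ x then 1 else 0)) := by
  induction J with
  | zero =>
    simp at hx ⊢
    exact hx.le
  | succ J ih =>
    by_cases h : x < 2 ^ (J + 1)
    · have hnot : ¬ ((2 : ℝ) ^ (J + 1) ≤ x) := not_le.2 h
      rw [Finset.sum_Icc_succ_top (by omega), if_neg hnot, add_zero]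
      exact ih h
    · push Not at h
      have hall : ∑ j ∈ Finset.Icc 1 (J + 1), (if (2 : ℝ) ^ j ≤ x then 1 else 0) = J + 1 := by
        have : ∀ j ∈ Finset.Icc 1 (J + 1), (if (2 : ℝ) ^ j ≤ x then 1 else 0) = 1 := by
          intro j hj
          rw [if_pos]
          refine le_trans ?_ h
          exact pow_le_pow_right₀ (by norm_num) (Finset.mem_Icc.1 hj).2
        rw [Finset.sum_congr rfl this]
        simp
      rw [hall]
      rw [show 1 + (J + 1) = J + 1 + 1 by ring]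
      exact hx.le

open BT in
/-- main bound for the weight of a tree -/
lemma wt_le (e : ℕ → ℝ) (he0 : ∀ k, 0 ≤ e k) (he1 : ∀ k, 2 ≤ k → e k ≤ (k : ℝ) - 1)
    (he2 : ∀ k k', 2 ≤ k' → k' < k → ∀ l : ℝ, 0 < l → l ≤ e k → l ≤ e k' → l / 2 ≤ (k : ℝ) - k')
    (T : BT) : wt e T ≤ 2 ^ (5 * lv T) := by
  classical
  let b : ℕ → ℕ → Prop := fun j k => 2 ≤ k ∧ (2 : ℝ) ^ j ≤ e k
  -- step 1
  have step1 : ∀ (J : ℕ) (T : BT), lv T ≤ 2 ^ J →
      wt e T ≤ 2 ^ ((lv T - 1) + ∑ j ∈ Finset.Icc 1 J, cnt (b j) T) := by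
    intro J T
    induction T with
    | leaf => intro _; simp [wt, lv, cnt]
    | node l r ihl ihr =>
      intro hJ
      have h1 := one_le_lv l
      have h2 := one_le_lv r
      have hlr : lv l + lv r ≤ 2 ^ J := hJ
      have il := ihl (by omega)
      have ir := ihr (by omega)
      have hw : ∀ S : BT, 0 ≤ wt e S := by
        intro S
        induction S with
        | leaf => simp [wt]
        | node a c iha ihc => exact mul_nonneg (he0 _) (mul_nonneg iha ihc)
      have hk2 : 2 ≤ lv l + lv r := by omega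
      have he : e (lv l + lv r) < 2 ^ (J + 1) := by
        have a1 := he1 (lv l + lv r) hk2
        have a2 : ((lv l + lv r : ℕ) : ℝ) ≤ 2 ^ J := by exact_mod_cast hlr
        have a3 : (2 : ℝ) ^ (J + 1) = 2 * 2 ^ J := by ring
        have a4 : (0 : ℝ) < 2 ^ J := by positivity
        linarith
      have hcount := le_two_pow_count J _ he
      have hcnt : ∑ j ∈ Finset.Icc 1 J, cnt (b j) (node l r) =
          ∑ j ∈ Finset.Icc 1 J, (if (2 : ℝ) ^ j ≤ e (lv l + lv r) then 1 else 0) +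
          (∑ j ∈ Finset.Icc 1 J, cnt (b j) l + ∑ j ∈ Finset.Icc 1 J, cnt (b j) r) := by
        rw [← Finset.sum_add_distrib, ← Finset.sum_add_distrib]
        refine Finset.sum_congr rfl fun j _ => ?_
        simp only [cnt, b, hk2, true_and]
      have hexp : (lv (node l r) - 1) + ∑ j ∈ Finset.Icc 1 J, cnt (b j) (node l r) =
          (1 + ∑ j ∈ Finset.Icc 1 J, (if (2 : ℝ) ^ j ≤ e (lv l + lv r) then 1 else 0)) +
          (((lv l - 1) + ∑ j ∈ Finset.Icc 1 J, cnt (b j) l) +
           ((lv r - 1) + ∑ j ∈ Finset.Icc 1 J, cnt (b j) r)) := by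
        rw [hcnt]
        simp only [lv]
        omega
      rw [hexp]
      show e (lv l + lv r) * (wt e l * wt e r) ≤ _
      generalize 1 + ∑ j ∈ Finset.Icc 1 J, (if (2 : ℝ) ^ j ≤ e (lv l + lv r) then 1 else 0) = A
        at hcount ⊢
      generalize (lv l - 1) + ∑ j ∈ Finset.Icc 1 J, cnt (b j) l = B at il ⊢
      generalize (lv r - 1) + ∑ j ∈ Finset.Icc 1 J, cnt (b j) r = C at ir ⊢
      rw [pow_add, pow_add]
      refine mul_le_mul hcount ?_ (mul_nonneg (hw l) (hw r)) (by positivity)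
      exact mul_le_mul il ir (hw r) (by positivity)
  -- step 2
  have step2 : ∀ (j : ℕ) (T : BT), 1 ≤ j → (cnt (b j) T : ℝ) ≤ 4 * (lv T : ℝ) / 2 ^ j := by
    intro j T hj
    have hm : (0 : ℝ) < 2 ^ j / 2 := by positivity
    have h := (cnt_bound (b j) (2 ^ j / 2) hm (fun k hk => by
      have a1 := he1 k hk.1
      have a2 := hk.2
      have a3 : (0 : ℝ) < 2 ^ j := by positivity
      linarith) (fun k k' hk hk' hlt => he2 k k' hk'.1 hlt _ (by positivity) hk.2 hk'.2) T).1
    refine h.trans (max_le (by positivity) ?_)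
    have : 2 * (lv T : ℝ) / (2 ^ j / 2) = 4 * (lv T : ℝ) / 2 ^ j := by field_simp; ring
    linarith
  -- step 3
  obtain ⟨J, hJ⟩ : ∃ J : ℕ, lv T ≤ 2 ^ J := ⟨lv T, Nat.lt_two_pow_self.le⟩
  refine (step1 J T hJ).trans ?_
  refine pow_le_pow_right₀ (by norm_num) ?_
  have hs : ((∑ j ∈ Finset.Icc 1 J, cnt (b j) T : ℕ) : ℝ) ≤ 4 * lv T := by
    push_cast
    calc ∑ j ∈ Finset.Icc 1 J, (cnt (b j) T : ℝ)
        ≤ ∑ j ∈ Finset.Icc 1 J, 4 * (lv T : ℝ) / 2 ^ j :=
          Finset.sum_le_sum fun j hj => step2 j T (Finset.mem_Icc.1 hj).1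
      _ = 4 * (lv T : ℝ) * ∑ j ∈ Finset.Icc 1 J, (1 : ℝ) / 2 ^ j := by
          rw [Finset.mul_sum]; refine Finset.sum_congr rfl fun j _ => by ring
      _ ≤ 4 * (lv T : ℝ) * 1 := by
          refine mul_le_mul_of_nonneg_left ?_ (by positivity)
          have : ∀ J : ℕ, ∑ j ∈ Finset.Icc 1 J, (1 : ℝ) / 2 ^ j = 1 - 1 / 2 ^ J := by
            intro J
            induction J with
            | zero => simp
            | succ J ih =>
              rw [Finset.sum_Icc_succ_top (by omega), ih, pow_succ]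
              field_simp
              ring
          rw [this J]
          have : (0 : ℝ) < 1 / 2 ^ J := by positivity
          linarith
      _ = 4 * lv T := by ring
  have hs' : ∑ j ∈ Finset.Icc 1 J, cnt (b j) T ≤ 4 * lv T := by exact_mod_cast hs
  omega

open BT in
/-- coefficients bounded by tree weights -/
lemma exists_tree (e : ℕ → ℝ) (he0 : ∀ k, 0 ≤ e k) (κ : ℝ) (hκ : 0 ≤ κ) (v : ℕ → ℂ) (h0 : ‖v 0‖ ≤ 1)
    (hv : ∀ n, ‖v (n + 1)‖ ≤ κ * e (n + 2) * ∑ i : Fin n.succ, ‖v i‖ * ‖v (n - i)‖) (n : ℕ) :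
    ∃ T : BT, lv T = n + 1 ∧ ‖v n‖ ≤ catalan n * κ ^ n * wt e T := by
  induction n using Nat.strong_induction_on with
  | _ n ih =>
    cases n with
    | zero => exact ⟨leaf, rfl, by simpa [wt] using h0⟩
    | succ n =>
      have hc : ∀ i : Fin n.succ, ∃ T : BT, (lv T = (i : ℕ) + 1 + ((n - i) + 1)) ∧
          ‖v i‖ * ‖v (n - i)‖ * e (n + 2) ≤ catalan i * catalan (n - i) * κ ^ n * wt e T := by
        intro i
        have hi : (i : ℕ) < n + 1 := i.2
        obtain ⟨T1, hT1, hb1⟩ := ih i (by omega)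
        obtain ⟨T2, hT2, hb2⟩ := ih (n - i) (by omega)
        refine ⟨node T1 T2, by simp [lv, hT1, hT2], ?_⟩
        have hn : lv T1 + lv T2 = n + 2 := by rw [hT1, hT2]; omega
        have hw : wt e (node T1 T2) = e (n + 2) * (wt e T1 * wt e T2) := by
          simp only [wt, hn]
        rw [hw]
        have hpow : κ ^ n = κ ^ (i : ℕ) * κ ^ (n - i) := by
          rw [← pow_add]; congr 1; omega
        rw [hpow]
        have := mul_le_mul hb1 hb2 (norm_nonneg _) ((norm_nonneg _).trans hb1)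
        calc ‖v i‖ * ‖v (n - i)‖ * e (n + 2)
            ≤ (catalan i * κ ^ (i : ℕ) * wt e T1 * (catalan (n - i) * κ ^ (n - i) * wt e T2)) * e (n + 2) :=
              mul_le_mul_of_nonneg_right this (he0 _)
          _ = _ := by ring
      choose T hT hTb using hc
      obtain ⟨i0, -, hi0⟩ := Finset.exists_max_image (Finset.univ : Finset (Fin n.succ))
        (fun i => wt e (T i)) ⟨0, Finset.mem_univ _⟩
      refine ⟨T i0, ?_, ?_⟩
      · rw [hT]; have := i0.2; omega
      · refine (hv n).trans ?_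
        rw [catalan_succ]
        push_cast
        calc κ * e (n + 2) * ∑ i : Fin n.succ, ‖v i‖ * ‖v (n - i)‖
            = κ * ∑ i : Fin n.succ, ‖v i‖ * ‖v (n - i)‖ * e (n + 2) := by
              rw [Finset.mul_sum, Finset.mul_sum]
              exact Finset.sum_congr rfl fun i _ => by ring
          _ ≤ κ * ∑ i : Fin n.succ, (catalan i * catalan (n - i) * κ ^ n * wt e (T i0)) := by
              refine mul_le_mul_of_nonneg_left (Finset.sum_le_sum fun i _ => ?_) hκ
              refine (hTb i).trans ?_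
              exact mul_le_mul_of_nonneg_left (hi0 i (Finset.mem_univ _)) (by positivity)
          _ = (∑ i : Fin n.succ, (catalan i : ℝ) * catalan (n - i)) * κ ^ (n + 1) * wt e (T i0) := by
              rw [Finset.mul_sum, Finset.sum_mul, Finset.sum_mul]
              exact Finset.sum_congr rfl fun i _ => by ring

/-- exponential bound for the coefficients -/
lemma coeff_bound (e : ℕ → ℝ) (he0 : ∀ k, 0 ≤ e k) (he1 : ∀ k, 2 ≤ k → e k ≤ (k : ℝ) - 1)
    (he2 : ∀ k k', 2 ≤ k' → k' < k → ∀ l : ℝ, 0 < l → l ≤ e k → l ≤ e k' → l / 2 ≤ (k : ℝ) - k')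
    (κ : ℝ) (hκ : 0 ≤ κ) (v : ℕ → ℂ) (h0 : ‖v 0‖ ≤ 1)
    (hv : ∀ n, ‖v (n + 1)‖ ≤ κ * e (n + 2) * ∑ i : Fin n.succ, ‖v i‖ * ‖v (n - i)‖) (n : ℕ) :
    ‖v n‖ ≤ 32 * (128 * κ) ^ n := by
  obtain ⟨T, hT, hb⟩ := exists_tree e he0 κ hκ v h0 hv n
  have hw := wt_le e he0 he1 he2 T
  rw [hT] at hw
  have hcat : (catalan n : ℝ) ≤ 4 ^ n := by
    have h1 : catalan n ≤ 4 ^ n := by
      rw [catalan_eq_centralBinom_div]
      exact (Nat.div_le_self _ _).trans (Nat.centralBinom_le_four_pow n)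
    exact_mod_cast h1
  calc ‖v n‖ ≤ catalan n * κ ^ n * BT.wt e T := hb
    _ ≤ 4 ^ n * κ ^ n * 2 ^ (5 * (n + 1)) := by
        refine mul_le_mul (mul_le_mul_of_nonneg_right hcat (by positivity)) hw ?_ (by positivity)
        have : ∀ S : BT, 0 ≤ BT.wt e S := by
          intro S
          induction S with
          | leaf => simp [BT.wt]
          | node a c iha ihc => exact mul_nonneg (he0 _) (mul_nonneg iha ihc)
        exact this T
    _ = 32 * (128 * κ) ^ n := by
        rw [pow_mul, pow_succ, mul_pow]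
        have : (128 : ℝ) ^ n = 4 ^ n * (2 ^ 5) ^ n := by rw [← mul_pow]; norm_num
        rw [this]; ring

end Pool.Agent.Work.MP_9ac7bc_an
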