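import Mathlib
import Pool.Agent.Work.MP_9ac7bc_an.Coeff

set_option autoImplicit false

open Complex

namespace Pool.Agent.Work.MP_9ac7bc_an

/-- the rotation multiplier -/
noncomputable def lam : ℂ := Complex.exp (I * ((2 * Real.pi * Real.sqrt 2 : ℝ) : ℂ))

lemma norm_lam : ‖lam‖ = 1 := by
  unfold lam
  rw [mul_comm, Complex.norm_exp_ofReal_mul_I]

lemma lam_ne_zero : lam ≠ 0 := by
  intro h
  have := norm_lam
  rw [h, norm_zero] at this
  exact zero_ne_one this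

lemma norm_lam_pow (n : ℕ) : ‖lam ^ n‖ = 1 := by rw [norm_pow, norm_lam, one_pow]

lemma lam_pow (n : ℕ) : lam ^ n = Complex.exp (I * ((2 * Real.pi * (n * Real.sqrt 2) : ℝ) : ℂ)) := by
  unfold lam
  rw [← Complex.exp_nat_mul]
  congr 1
  push_cast
  ring

lemma norm_exp_sub_one_ge (x : ℝ) (m : ℤ) (hx : |x - m| ≤ 1 / 2) :
    4 * |x - m| ≤ ‖Complex.exp (I * ((2 * Real.pi * x : ℝ) : ℂ)) - 1‖ := by
  rw [Complex.norm_exp_I_mul_ofReal_sub_one]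
  have h1 : 2 * Real.pi * x / 2 = Real.pi * (x - m) + m * Real.pi := by ring
  rw [h1, Real.sin_add_int_mul_pi, norm_mul, norm_mul, norm_zpow, norm_neg, norm_one, one_zpow,
    one_mul, Real.norm_eq_abs, Real.norm_eq_abs, abs_of_pos (by norm_num : (0:ℝ) < 2)]
  have hpi := Real.pi_pos
  have h2 : |Real.pi * (x - m)| ≤ Real.pi / 2 := by
    rw [abs_mul, abs_of_pos hpi]
    nlinarith
  have h3 := Real.mul_abs_le_abs_sin h2
  rw [abs_mul, abs_of_pos hpi] at h3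
  have h4 : 2 / Real.pi * (Real.pi * |x - m|) = 2 * |x - m| := by field_simp
  linarith

lemma sqrt_two_dist (n : ℕ) (hn : 1 ≤ n) (m : ℤ) (h : |n * Real.sqrt 2 - m| ≤ 1 / 2) :
    1 ≤ 4 * n * |n * Real.sqrt 2 - m| := by
  have hs : Real.sqrt 2 ^ 2 = 2 := Real.sq_sqrt (by norm_num)
  have hs1 : Real.sqrt 2 < 1.5 := by
    rw [Real.sqrt_lt' (by norm_num)]; norm_num
  have hs0 : 1.4 < Real.sqrt 2 := by
    rw [Real.lt_sqrt (by norm_num)]; norm_num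
  have hn' : (1 : ℝ) ≤ n := by exact_mod_cast hn
  have hab := abs_le.1 h
  have hint : (1 : ℝ) ≤ |2 * (n : ℝ) ^ 2 - (m : ℝ) ^ 2| := by
    have h1 : (2 * (n : ℤ) ^ 2 - m ^ 2) ≠ 0 := by
      intro h0
      have h2 : (2 : ℝ) * (n : ℝ) ^ 2 = (m : ℝ) ^ 2 := by
        have : (2 * (n : ℤ) ^ 2) = m ^ 2 := by linarith
        exact_mod_cast this
      have h3 : Real.sqrt 2 = |(m : ℝ)| / n := by
        have h4 : (Real.sqrt 2 * n) ^ 2 = |(m : ℝ)| ^ 2 := by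
          rw [mul_pow, hs, sq_abs]; exact h2
        have h5 : Real.sqrt 2 * n = |(m : ℝ)| := by
          have := (pow_left_inj₀ (by positivity) (abs_nonneg _) (two_ne_zero)).1 h4
          exact this
        rw [← h5]; field_simp
      have hirr : Irrational (Real.sqrt 2) := irrational_sqrt_two
      apply hirr
      refine ⟨(|m| : ℤ) / (n : ℕ), ?_⟩
      rw [h3]; push_cast; rfl
    have h2 : (1 : ℤ) ≤ |2 * (n : ℤ) ^ 2 - m ^ 2| := Int.one_le_abs h1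
    have h3 : ((|2 * (n : ℤ) ^ 2 - m ^ 2| : ℤ) : ℝ) = |2 * (n : ℝ) ^ 2 - (m : ℝ) ^ 2| := by
      push_cast; rfl
    rw [← h3]; exact_mod_cast h2
  have hfac : 2 * (n : ℝ) ^ 2 - (m : ℝ) ^ 2 = (n * Real.sqrt 2 - m) * (n * Real.sqrt 2 + m) := by
    have : (n * Real.sqrt 2 - m) * (n * Real.sqrt 2 + m) = n ^ 2 * Real.sqrt 2 ^ 2 - (m : ℝ) ^ 2 := by ring
    rw [this, hs]; ring
  rw [hfac, abs_mul] at hint
  have hsum : |n * Real.sqrt 2 + m| ≤ 4 * n := by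
    rw [abs_le]; constructor <;> nlinarith
  calc (1 : ℝ) ≤ |n * Real.sqrt 2 - m| * |n * Real.sqrt 2 + m| := hint
    _ ≤ |n * Real.sqrt 2 - m| * (4 * n) := mul_le_mul_of_nonneg_left hsum (abs_nonneg _)
    _ = _ := by ring

lemma small_div (n : ℕ) (hn : 1 ≤ n) : 1 ≤ n * ‖lam ^ n - 1‖ := by
  rw [lam_pow]
  have h := abs_sub_round (n * Real.sqrt 2)
  have h1 := norm_exp_sub_one_ge (n * Real.sqrt 2) (round (n * Real.sqrt 2)) h
  have h2 := sqrt_two_dist n hn _ h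
  have hn' : (0 : ℝ) ≤ n := Nat.cast_nonneg n
  calc (1 : ℝ) ≤ 4 * n * |n * Real.sqrt 2 - round (n * Real.sqrt 2)| := h2
    _ = n * (4 * |n * Real.sqrt 2 - round (n * Real.sqrt 2)|) := by ring
    _ ≤ _ := mul_le_mul_of_nonneg_left h1 hn'

lemma lam_pow_sub_one_ne {n : ℕ} (hn : 1 ≤ n) : lam ^ n - 1 ≠ 0 := by
  intro h
  have := small_div n hn
  rw [h, norm_zero, mul_zero] at this
  linarith

/-- inverse small divisors, indexed by number of leaves -/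
noncomputable def eps (k : ℕ) : ℝ := ‖lam ^ (k - 1) - 1‖⁻¹

lemma eps_nonneg (k : ℕ) : 0 ≤ eps k := inv_nonneg.2 (norm_nonneg _)

lemma eps_le (k : ℕ) (hk : 2 ≤ k) : eps k ≤ (k : ℝ) - 1 := by
  unfold eps
  have hk1 : 1 ≤ k - 1 := by omega
  have h := small_div (k - 1) hk1
  have hpos : 0 < ‖lam ^ (k - 1) - 1‖ := norm_pos_iff.2 (lam_pow_sub_one_ne hk1)
  have hcast : ((k - 1 : ℕ) : ℝ) = (k : ℝ) - 1 := by
    rw [Nat.cast_sub (by omega)]; simp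
  rw [hcast] at h
  rw [inv_le_iff_one_le_mul₀ hpos]
  exact h

lemma eps_sep (k k' : ℕ) (hk' : 2 ≤ k') (hlt : k' < k) (l : ℝ) (hl : 0 < l) (h1 : l ≤ eps k)
    (h2 : l ≤ eps k') : l / 2 ≤ (k : ℝ) - k' := by
  unfold eps at h1 h2
  have hp1 : 0 < ‖lam ^ (k - 1) - 1‖ := norm_pos_iff.2 (lam_pow_sub_one_ne (by omega))
  have hp2 : 0 < ‖lam ^ (k' - 1) - 1‖ := norm_pos_iff.2 (lam_pow_sub_one_ne (by omega))
  have g1 : ‖lam ^ (k - 1) - 1‖ ≤ 1 / l := by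
    rw [le_div_iff₀ hl]
    rw [le_inv_comm₀ hl hp1] at h1
    calc ‖lam ^ (k - 1) - 1‖ * l ≤ l⁻¹ * l := mul_le_mul_of_nonneg_right h1 hl.le
      _ = 1 := inv_mul_cancel₀ hl.ne'
  have g2 : ‖lam ^ (k' - 1) - 1‖ ≤ 1 / l := by
    rw [le_div_iff₀ hl]
    rw [le_inv_comm₀ hl hp2] at h2
    calc ‖lam ^ (k' - 1) - 1‖ * l ≤ l⁻¹ * l := mul_le_mul_of_nonneg_right h2 hl.le
      _ = 1 := inv_mul_cancel₀ hl.ne'
  have e1 : lam ^ (k - 1) - lam ^ (k' - 1) = lam ^ (k' - 1) * (lam ^ (k - k') - 1) := by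
    rw [mul_sub, ← pow_add, mul_one]
    congr 2
    omega
  have g3 : ‖lam ^ (k - k') - 1‖ ≤ 2 / l := by
    have : ‖lam ^ (k - k') - 1‖ = ‖lam ^ (k - 1) - lam ^ (k' - 1)‖ := by
      rw [e1, norm_mul, norm_lam_pow, one_mul]
    rw [this]
    have e2 : lam ^ (k - 1) - lam ^ (k' - 1) = (lam ^ (k - 1) - 1) - (lam ^ (k' - 1) - 1) := by ring
    rw [e2]
    refine (norm_sub_le _ _).trans ?_
    calc _ ≤ 1 / l + 1 / l := add_le_add g1 g2
      _ = 2 / l := by ring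
  have h := small_div (k - k') (by omega)
  have hcast : ((k - k' : ℕ) : ℝ) = (k : ℝ) - k' := by rw [Nat.cast_sub hlt.le]
  rw [hcast] at h
  have hkk : 0 < (k : ℝ) - k' := by
    have : (k' : ℝ) < k := by exact_mod_cast hlt
    linarith
  have : 1 ≤ ((k : ℝ) - k') * (2 / l) := h.trans (mul_le_mul_of_nonneg_left g3 hkk.le)
  rw [mul_div_assoc', le_div_iff₀ hl] at this
  linarith

end Pool.Agent.Work.MP_9ac7bc_an
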