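import Mathlib
import Pool.Agent.Work.MP_9ac7bc_an.Dyn
import Pool.Agent.Work.MP_9ac7bc_an.SmallDiv

set_option autoImplicit false

open MeasureTheory Filter Topology

namespace Pool.Agent.Work.MP_9ac7bc_an

/-- the Henon map used in the construction -/
noncomputable def F (p : ℂ × ℂ) : ℂ × ℂ :=
  (p.2, (lam + 1 / 2) * p.2 + p.2 ^ 2 - lam / 2 * p.1)

lemma continuous_F : Continuous F := by unfold F; fun_prop

lemma measurable_F : Measurable F := continuous_F.measurable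

/-- nonrecurrent sets have measure zero -/
lemma null_of_nonrec {X : Type*} [MeasurableSpace X] {ν : Measure X} [IsFiniteMeasure ν] {f : X → X}
    (hf : MeasurePreserving f ν ν) {A : Set X} (hA : MeasurableSet A) (n0 : ℕ)
    (h : ∀ n ≥ n0, ∀ p ∈ A, f^[n] p ∉ A) : ν A = 0 := by
  have hc := hf.conservative
  have h1 := hc.ae_mem_imp_frequently_image_mem hA.nullMeasurableSet
  have h2 : ∀ᵐ x ∂ν, x ∉ A := by
    filter_upwards [h1] with x hx hxA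
    have := hx hxA
    obtain ⟨n, hn, hn'⟩ := (frequently_atTop.1 this) n0
    exact h n hn x hxA hn'
  exact measure_eq_zero_iff_ae_notMem.2 h2

/-- the big box -/
def Box : Set (ℂ × ℂ) := {p | ‖p.1‖ ≤ 4 ∧ ‖p.2‖ ≤ 4}

lemma cn1 : Continuous fun p : ℂ × ℂ => ‖p.1‖ := by fun_prop

lemma cn2 : Continuous fun p : ℂ × ℂ => ‖p.2‖ := by fun_prop

lemma isClosed_Box : IsClosed Box := by
  exact (isClosed_le cn1 continuous_const).inter (isClosed_le cn2 continuous_const)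

lemma norm_lam_add : ‖lam + 1 / 2‖ ≤ 3 / 2 := by
  refine (norm_add_le _ _).trans ?_
  rw [norm_lam]
  norm_num

lemma norm_lam_half : ‖lam / 2‖ = 1 / 2 := by
  rw [norm_div, norm_lam]; norm_num

/-- forward escaping -/
lemma F_snd_ge {p : ℂ × ℂ} (h1 : 4 < ‖p.2‖) (h2 : ‖p.1‖ ≤ ‖p.2‖) : 2 * ‖p.2‖ ≤ ‖(F p).2‖ := by
  unfold F
  have e1 : ‖p.2 ^ 2‖ = ‖p.2‖ ^ 2 := norm_pow _ _
  have e2 : ‖(lam + 1 / 2) * p.2‖ ≤ 3 / 2 * ‖p.2‖ := by
    rw [norm_mul]; exact mul_le_mul_of_nonneg_right norm_lam_add (norm_nonneg _)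
  have e3 : ‖lam / 2 * p.1‖ ≤ 1 / 2 * ‖p.2‖ := by
    rw [norm_mul, norm_lam_half]; linarith
  have e4 : ‖p.2 ^ 2‖ ≤ ‖(lam + 1 / 2) * p.2 + p.2 ^ 2 - lam / 2 * p.1‖ +
      (‖(lam + 1 / 2) * p.2‖ + ‖lam / 2 * p.1‖) := by
    have : p.2 ^ 2 = ((lam + 1 / 2) * p.2 + p.2 ^ 2 - lam / 2 * p.1) +
      (-((lam + 1 / 2) * p.2) + lam / 2 * p.1) := by ring
    calc ‖p.2 ^ 2‖ = ‖((lam + 1 / 2) * p.2 + p.2 ^ 2 - lam / 2 * p.1) +
      (-((lam + 1 / 2) * p.2) + lam / 2 * p.1)‖ := by rw [← this]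
      _ ≤ _ := (norm_add_le _ _).trans (add_le_add le_rfl ((norm_add_le _ _).trans (by rw [norm_neg])))
  rw [e1] at e4
  simp only
  nlinarith

/-- backward escaping -/
lemma F_fst_ge {p : ℂ × ℂ} (h1 : 4 < ‖(F p).1‖) (h2 : ‖(F p).2‖ ≤ ‖(F p).1‖) :
    3 * ‖(F p).1‖ ≤ ‖p.1‖ := by
  unfold F at h1 h2 ⊢
  simp only at h1 h2 ⊢
  have e1 : ‖p.2 ^ 2‖ = ‖p.2‖ ^ 2 := norm_pow _ _
  have e2 : ‖(lam + 1 / 2) * p.2‖ ≤ 3 / 2 * ‖p.2‖ := by
    rw [norm_mul]; exact mul_le_mul_of_nonneg_right norm_lam_add (norm_nonneg _)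
  have e3 : ‖lam / 2 * p.1‖ = 1 / 2 * ‖p.1‖ := by
    rw [norm_mul, norm_lam_half]
  have e4 : ‖p.2 ^ 2‖ ≤ ‖(lam + 1 / 2) * p.2 + p.2 ^ 2 - lam / 2 * p.1‖ +
      (‖(lam + 1 / 2) * p.2‖ + ‖lam / 2 * p.1‖) := by
    have : p.2 ^ 2 = ((lam + 1 / 2) * p.2 + p.2 ^ 2 - lam / 2 * p.1) +
      (-((lam + 1 / 2) * p.2) + lam / 2 * p.1) := by ring
    calc ‖p.2 ^ 2‖ = ‖((lam + 1 / 2) * p.2 + p.2 ^ 2 - lam / 2 * p.1) +
      (-((lam + 1 / 2) * p.2) + lam / 2 * p.1)‖ := by rw [← this]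
      _ ≤ _ := (norm_add_le _ _).trans (add_le_add le_rfl ((norm_add_le _ _).trans (by rw [norm_neg])))
  rw [e1, e3] at e4
  nlinarith

/-- invariant measures live on the box -/
lemma null_box_compl {ν : Measure (ℂ × ℂ)} [IsFiniteMeasure ν] (hf : MeasurePreserving F ν ν) :
    ν Boxᶜ = 0 := by
  -- forward part
  have hplus : ∀ N : ℕ, ν {p | 4 < ‖p.2‖ ∧ ‖p.1‖ ≤ ‖p.2‖ ∧ ‖p.2‖ ≤ N} = 0 := by
    intro N
    have hgrow : ∀ (n : ℕ) (p : ℂ × ℂ), 4 < ‖p.2‖ → ‖p.1‖ ≤ ‖p.2‖ →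
        4 < ‖(F^[n] p).2‖ ∧ ‖(F^[n] p).1‖ ≤ ‖(F^[n] p).2‖ ∧ 2 ^ n * ‖p.2‖ ≤ ‖(F^[n] p).2‖ := by
      intro n
      induction n with
      | zero => intro p h1 h2; simp [h1, h2]
      | succ n ih =>
        intro p h1 h2
        have h3 := F_snd_ge h1 h2
        have h4 : (F p).1 = p.2 := rfl
        have := ih (F p) (by linarith) (by rw [h4]; linarith)
        rw [Function.iterate_succ_apply]
        refine ⟨this.1, this.2.1, le_trans ?_ this.2.2⟩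
        rw [pow_succ]
        have h5 : (0 : ℝ) ≤ 2 ^ n := by positivity
        nlinarith
    obtain ⟨n0, hn0⟩ : ∃ n0 : ℕ, (N : ℝ) < 2 ^ n0 := pow_unbounded_of_one_lt _ (by norm_num)
    refine null_of_nonrec hf ?_ n0 ?_
    · exact (measurableSet_lt measurable_const cn2.measurable).inter
        ((measurableSet_le cn1.measurable cn2.measurable).inter
          (measurableSet_le cn2.measurable measurable_const))
    · rintro n hn p ⟨h1, h2, h3⟩ ⟨_, _, h4⟩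
      have := (hgrow n p h1 h2).2.2
      have h5 : (2 : ℝ) ^ n0 ≤ 2 ^ n := pow_le_pow_right₀ (by norm_num) hn
      have h6 : (0 : ℝ) < 2 ^ n0 := by positivity
      nlinarith
  have hminus : ∀ N : ℕ, ν {p | 4 < ‖p.1‖ ∧ ‖p.2‖ ≤ ‖p.1‖ ∧ ‖p.1‖ ≤ N} = 0 := by
    intro N
    have hgrow : ∀ (n : ℕ) (p : ℂ × ℂ), 4 < ‖(F^[n] p).1‖ → ‖(F^[n] p).2‖ ≤ ‖(F^[n] p).1‖ →
        4 < ‖p.1‖ ∧ ‖p.2‖ ≤ ‖p.1‖ ∧ 3 ^ n * ‖(F^[n] p).1‖ ≤ ‖p.1‖ := by
      intro n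
      induction n with
      | zero => intro p h1 h2; simpa using ⟨h1, h2⟩
      | succ n ih =>
        intro p h1 h2
        rw [Function.iterate_succ_apply] at h1 h2 ⊢
        obtain ⟨g1, g2, g3⟩ := ih (F p) h1 h2
        have h3 := F_fst_ge g1 g2
        have h4 : (F p).1 = p.2 := rfl
        rw [h4] at g1 g3 h3
        refine ⟨by linarith, by linarith, ?_⟩
        rw [pow_succ]
        nlinarith
    obtain ⟨n0, hn0⟩ : ∃ n0 : ℕ, (N : ℝ) < 3 ^ n0 := pow_unbounded_of_one_lt _ (by norm_num)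
    refine null_of_nonrec hf ?_ n0 ?_
    · exact (measurableSet_lt measurable_const cn1.measurable).inter
        ((measurableSet_le cn2.measurable cn1.measurable).inter
          (measurableSet_le cn1.measurable measurable_const))
    · rintro n hn p ⟨_, _, h3⟩ ⟨h1, h2, _⟩
      have := (hgrow n p h1 h2).2.2
      have h5 : (3 : ℝ) ^ n0 ≤ 3 ^ n := pow_le_pow_right₀ (by norm_num) hn
      have h6 : (0 : ℝ) < 3 ^ n0 := by positivity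
      nlinarith
  have hsub : Boxᶜ ⊆ (⋃ N : ℕ, {p : ℂ × ℂ | 4 < ‖p.2‖ ∧ ‖p.1‖ ≤ ‖p.2‖ ∧ ‖p.2‖ ≤ N}) ∪
      ⋃ N : ℕ, {p : ℂ × ℂ | 4 < ‖p.1‖ ∧ ‖p.2‖ ≤ ‖p.1‖ ∧ ‖p.1‖ ≤ N} := by
    intro p hp
    have hp' : ¬ (‖p.1‖ ≤ 4 ∧ ‖p.2‖ ≤ 4) := hp
    rcases le_total ‖p.1‖ ‖p.2‖ with h | h
    · left
      obtain ⟨N, hN⟩ := exists_nat_ge ‖p.2‖
      refine Set.mem_iUnion.2 ⟨N, ?_, h, hN⟩
      by_contra hc
      push Not at hc
      exact hp' ⟨h.trans hc, hc⟩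
    · right
      obtain ⟨N, hN⟩ := exists_nat_ge ‖p.1‖
      refine Set.mem_iUnion.2 ⟨N, ?_, h, hN⟩
      by_contra hc
      push Not at hc
      exact hp' ⟨hc, h.trans hc⟩
  refine measure_mono_null hsub (measure_union_null ?_ ?_)
  · exact measure_iUnion_null hplus
  · exact measure_iUnion_null hminus

end Pool.Agent.Work.MP_9ac7bc_an
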