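import Mathlib
import Pool.Agent.Work.MP_9ac7bc_an.Henon

set_option autoImplicit false

open MeasureTheory Filter Topology

namespace Pool.Agent.Work.MP_9ac7bc_an

/-- one-dimensional cell index, clamped -/
noncomputable def cl (N : ℕ) (t : ℝ) : Fin (8 * N + 1) := Fin.ofNat (8 * N + 1) (⌊(N : ℝ) * t⌋ + 4 * N).toNat

lemma cl_measurable (N : ℕ) : Measurable (cl N) := by
  have h1 : Measurable (fun t : ℝ => ⌊(N : ℝ) * t⌋) := Int.measurable_floor.comp (measurable_const_mul _)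
  exact (measurable_from_top (f := fun z : ℤ => Fin.ofNat (8 * N + 1) (z + 4 * N).toNat)).comp h1

lemma cl_val (N : ℕ) (t : ℝ) (ht : |t| ≤ 4) : ((cl N t : ℕ) : ℤ) = ⌊(N : ℝ) * t⌋ + 4 * N := by
  have hab := abs_le.1 ht
  have hN : (0 : ℝ) ≤ N := Nat.cast_nonneg N
  have h1 : -(4 * (N : ℤ)) ≤ ⌊(N : ℝ) * t⌋ := by
    rw [Int.le_floor]; push_cast; nlinarith
  have h2 : ⌊(N : ℝ) * t⌋ ≤ 4 * (N : ℤ) := by
    have : (⌊(N : ℝ) * t⌋ : ℝ) ≤ 4 * N := (Int.floor_le _).trans (by nlinarith)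
    exact_mod_cast this
  unfold cl
  rw [Fin.val_ofNat, Nat.mod_eq_of_lt (by omega), Int.toNat_of_nonneg (by omega)]

lemma cl_eq_dist (N : ℕ) (hN : 1 ≤ N) (t s : ℝ) (ht : |t| ≤ 4) (hs : |s| ≤ 4) (h : cl N t = cl N s) :
    |t - s| < 1 / N := by
  have h1 := cl_val N t ht
  have h2 := cl_val N s hs
  rw [h] at h1
  have h3 : ⌊(N : ℝ) * t⌋ = ⌊(N : ℝ) * s⌋ := by omega
  have hN' : (0 : ℝ) < N := by exact_mod_cast hN
  have h4 := Int.abs_sub_lt_one_of_floor_eq_floor h3
  rw [← mul_sub, abs_mul, abs_of_pos hN'] at h4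
  rw [lt_div_iff₀ hN']; linarith

lemma cl_near (N : ℕ) (hN : 1 ≤ N) (t s : ℝ) (ht : |t| ≤ 4) (hs : |s| ≤ 4) (L : ℕ)
    (h : |t - s| ≤ L / N) : |((cl N t : ℕ) : ℤ) - ((cl N s : ℕ) : ℤ)| ≤ L + 1 := by
  rw [cl_val N t ht, cl_val N s hs]
  have hN' : (0 : ℝ) < N := by exact_mod_cast hN
  rw [le_div_iff₀ hN'] at h
  have h1 : |(N : ℝ) * t - N * s| ≤ L := by
    rw [← mul_sub, abs_mul, abs_of_pos hN']; linarith
  have h2 := abs_le.1 h1
  have f1 := Int.floor_le ((N : ℝ) * t)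
  have f2 := Int.lt_floor_add_one ((N : ℝ) * t)
  have f3 := Int.floor_le ((N : ℝ) * s)
  have f4 := Int.lt_floor_add_one ((N : ℝ) * s)
  have g1 : ((⌊(N : ℝ) * t⌋ + 4 * N - (⌊(N : ℝ) * s⌋ + 4 * N) : ℤ) : ℝ) < L + 1 := by
    push_cast; linarith
  have g2 : (-(L + 1 : ℝ)) < ((⌊(N : ℝ) * t⌋ + 4 * N - (⌊(N : ℝ) * s⌋ + 4 * N) : ℤ) : ℝ) := by
    push_cast; linarith
  rw [abs_le]
  constructor
  · have : (-(L + 1 : ℤ)) < (⌊(N : ℝ) * t⌋ + 4 * N - (⌊(N : ℝ) * s⌋ + 4 * N) : ℤ) := by exact_mod_cast g2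
    omega
  · have : (⌊(N : ℝ) * t⌋ + 4 * N - (⌊(N : ℝ) * s⌋ + 4 * N) : ℤ) < (L + 1 : ℤ) := by exact_mod_cast g1
    omega

/-- type of cells -/
abbrev CellT (N : ℕ) : Type :=
  (Fin (8 * N + 1) × Fin (8 * N + 1)) × (Fin (8 * N + 1) × Fin (8 * N + 1))

/-- cell of a point -/
noncomputable def cell (N : ℕ) (p : ℂ × ℂ) : CellT N :=
  ((cl N p.1.re, cl N p.1.im), (cl N p.2.re, cl N p.2.im))

lemma MQ_cell (N : ℕ) : MQ (cell N) := by
  have h : ∀ g : ℂ × ℂ → ℝ, Continuous g → MQ (fun p => cl N (g p)) := by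
    intro g hg a
    have : Measurable (fun p => cl N (g p)) := (cl_measurable N).comp hg.measurable
    exact this (measurableSet_singleton a)
  exact ((h (fun p => p.1.re) (by fun_prop)).prod (h (fun p => p.1.im) (by fun_prop))).prod
    ((h (fun p => p.2.re) (by fun_prop)).prod (h (fun p => p.2.im) (by fun_prop)))

lemma cell_dist (N : ℕ) (hN : 1 ≤ N) (p p' : ℂ × ℂ) (hp : p ∈ Box) (hp' : p' ∈ Box)
    (h : cell N p = cell N p') : ‖p.1 - p'.1‖ < 2 / N ∧ ‖p.2 - p'.2‖ < 2 / N := by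
  simp only [cell, Prod.mk.injEq] at h
  obtain ⟨⟨h1, h2⟩, h3, h4⟩ := h
  have d1 := cl_eq_dist N hN _ _ ((Complex.abs_re_le_norm _).trans hp.1) ((Complex.abs_re_le_norm _).trans hp'.1) h1
  have d2 := cl_eq_dist N hN _ _ ((Complex.abs_im_le_norm _).trans hp.1) ((Complex.abs_im_le_norm _).trans hp'.1) h2
  have d3 := cl_eq_dist N hN _ _ ((Complex.abs_re_le_norm _).trans hp.2) ((Complex.abs_re_le_norm _).trans hp'.2) h3
  have d4 := cl_eq_dist N hN _ _ ((Complex.abs_im_le_norm _).trans hp.2) ((Complex.abs_im_le_norm _).trans hp'.2) h4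
  have e : (2 : ℝ) / N = 1 / N + 1 / N := by ring
  constructor
  · have := Complex.norm_le_abs_re_add_abs_im (p.1 - p'.1)
    simp only [Complex.sub_re, Complex.sub_im] at this
    linarith
  · have := Complex.norm_le_abs_re_add_abs_im (p.2 - p'.2)
    simp only [Complex.sub_re, Complex.sub_im] at this
    linarith

lemma F_snd_lip (p p' : ℂ × ℂ) (hp : p ∈ Box) (hp' : p' ∈ Box) (d : ℝ) (h1 : ‖p.1 - p'.1‖ ≤ d)
    (h2 : ‖p.2 - p'.2‖ ≤ d) : ‖(F p).2 - (F p').2‖ ≤ 10 * d := by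
  have hd : 0 ≤ d := (norm_nonneg _).trans h1
  have e : (F p).2 - (F p').2 = ((lam + 1 / 2) + (p.2 + p'.2)) * (p.2 - p'.2) - lam / 2 * (p.1 - p'.1) := by
    unfold F; ring
  rw [e]
  have n1 : ‖(lam + 1 / 2) + (p.2 + p'.2)‖ ≤ 19 / 2 := by
    refine (norm_add_le _ _).trans ?_
    have := norm_add_le p.2 p'.2
    have := norm_lam_add
    have := hp.2
    have := hp'.2
    linarith
  calc _ ≤ ‖((lam + 1 / 2) + (p.2 + p'.2)) * (p.2 - p'.2)‖ + ‖lam / 2 * (p.1 - p'.1)‖ := norm_sub_le _ _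
    _ ≤ 19 / 2 * d + 1 / 2 * d := by
        rw [norm_mul, norm_mul, norm_lam_half]
        refine add_le_add ?_ ?_
        · exact mul_le_mul n1 h2 (norm_nonneg _) (by norm_num)
        · exact mul_le_mul_of_nonneg_left h1 (by norm_num)
    _ = 10 * d := by ring

lemma cells_bound (ν : Measure (ℂ × ℂ)) [IsFiniteMeasure ν] (hf : MeasurePreserving F ν ν)
    (N : ℕ) (hN : 1 ≤ N) :
    Hent ν (fun x => (cell N (F x), cell N x)) ≤
      Hent ν (cell N) + ν.real Set.univ * Real.log (43 ^ 2) := by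
  classical
  let A : CellT N → Finset (CellT N) := fun b =>
    Finset.univ.filter fun a => ∃ p, p ∈ Box ∧ F p ∈ Box ∧ cell N p = b ∧ cell N (F p) = a
  refine cond_card ν ((MQ_cell N).comp_meas measurable_F) (MQ_cell N) (43 ^ 2) A ?_ ?_
  · intro b
    rcases (A b).eq_empty_or_nonempty with h | ⟨a0, ha0⟩
    · rw [h]; simp
    · obtain ⟨p0, hp0, hFp0, hb0, hc0⟩ := (Finset.mem_filter.1 ha0).2
      have hcard : (A b).card ≤ 43 * 43 := by
        let T : Finset (ℤ × ℤ) := Finset.Icc (((a0.2.1 : ℕ) : ℤ) - 21) (((a0.2.1 : ℕ) : ℤ) + 21) ×ˢ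
          Finset.Icc (((a0.2.2 : ℕ) : ℤ) - 21) (((a0.2.2 : ℕ) : ℤ) + 21)
        have hT : T.card = 43 * 43 := by
          simp only [T, Finset.card_product, Int.card_Icc]
          have e1 : (((a0.2.1 : ℕ) : ℤ) + 21 + 1 - (((a0.2.1 : ℕ) : ℤ) - 21)).toNat = 43 := by
            have : ((a0.2.1 : ℕ) : ℤ) + 21 + 1 - (((a0.2.1 : ℕ) : ℤ) - 21) = 43 := by ring
            rw [this]; rfl
          have e2 : (((a0.2.2 : ℕ) : ℤ) + 21 + 1 - (((a0.2.2 : ℕ) : ℤ) - 21)).toNat = 43 := by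
            have : ((a0.2.2 : ℕ) : ℤ) + 21 + 1 - (((a0.2.2 : ℕ) : ℤ) - 21) = 43 := by ring
            rw [this]; rfl
          rw [e1, e2]
        rw [← hT]
        refine Finset.card_le_card_of_injOn (fun a => (((a.2.1 : ℕ) : ℤ), ((a.2.2 : ℕ) : ℤ))) ?_ ?_
        · intro a ha
          obtain ⟨p, hp, hFp, hb, hc⟩ := (Finset.mem_filter.1 ha).2
          have hd := cell_dist N hN p p0 hp hp0 (hb.trans hb0.symm)
          have hl := F_snd_lip p p0 hp hp0 (2 / N) hd.1.le hd.2.le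
          have e20 : 10 * (2 / (N : ℝ)) = ((20 : ℕ) : ℝ) / N := by push_cast; ring
          rw [e20] at hl
          have r1 := cl_near N hN (F p).2.re (F p0).2.re ((Complex.abs_re_le_norm _).trans hFp.2)
            ((Complex.abs_re_le_norm _).trans hFp0.2) 20
            (by rw [← Complex.sub_re]; exact (Complex.abs_re_le_norm _).trans hl)
          have r2 := cl_near N hN (F p).2.im (F p0).2.im ((Complex.abs_im_le_norm _).trans hFp.2)
            ((Complex.abs_im_le_norm _).trans hFp0.2) 20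
            (by rw [← Complex.sub_im]; exact (Complex.abs_im_le_norm _).trans hl)
          have g1 : cl N (F p).2.re = a.2.1 := by rw [← hc]; rfl
          have g2 : cl N (F p).2.im = a.2.2 := by rw [← hc]; rfl
          have g3 : cl N (F p0).2.re = a0.2.1 := by rw [← hc0]; rfl
          have g4 : cl N (F p0).2.im = a0.2.2 := by rw [← hc0]; rfl
          rw [g1, g3] at r1
          rw [g2, g4] at r2
          have r1' := abs_le.1 r1
          have r2' := abs_le.1 r2
          simp only [T, Finset.coe_product, Finset.coe_Icc, Set.mem_prod, Set.mem_Icc]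
          push_cast at r1' r2'
          omega
        · intro a ha a' ha' hEq
          obtain ⟨p, hp, hFp, hb, hc⟩ := (Finset.mem_filter.1 ha).2
          obtain ⟨p', hp', hFp', hb', hc'⟩ := (Finset.mem_filter.1 ha').2
          have h1 : a.1 = b.2 := by rw [← hc, ← hb]; rfl
          have h1' : a'.1 = b.2 := by rw [← hc', ← hb']; rfl
          simp only [Prod.mk.injEq, Nat.cast_inj] at hEq
          have h2 : a.2 = a'.2 := Prod.ext (Fin.ext hEq.1) (Fin.ext hEq.2)
          exact Prod.ext (h1.trans h1'.symm) h2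
      have : ((A b).card : ℝ) ≤ ((43 * 43 : ℕ) : ℝ) := by exact_mod_cast hcard
      refine this.trans (by norm_num)
  · intro b a ha
    have hnull := null_box_compl hf
    have hnull2 : ν (F ⁻¹' Boxᶜ) = 0 := by
      rw [hf.measure_preimage isClosed_Box.measurableSet.compl.nullMeasurableSet]; exact hnull
    have hsub : (fun x => cell N (F x)) ⁻¹' {a} ∩ cell N ⁻¹' {b} ⊆ Boxᶜ ∪ F ⁻¹' Boxᶜ := by
      rintro x ⟨hx1, hx2⟩
      by_contra hc
      simp only [Set.mem_union, Set.mem_compl_iff, Set.mem_preimage, not_or, not_not] at hc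
      exact ha (Finset.mem_filter.2 ⟨Finset.mem_univ _, x, hc.1, hc.2, hx2, hx1⟩)
    have : ν ((fun x => cell N (F x)) ⁻¹' {a} ∩ cell N ⁻¹' {b}) = 0 :=
      measure_mono_null hsub (measure_union_null hnull hnull2)
    rw [measureReal_def]
    exact (congrArg ENNReal.toReal this).trans ENNReal.toReal_zero

lemma cells_approx (ν : Measure (ℂ × ℂ)) [IsFiniteMeasure ν] (hf : MeasurePreserving F ν ν)
    {α : Type*} [Fintype α] [Nonempty α] {q : ℂ × ℂ → α} (hq : MQ q) {ε : ℝ} (hε : 0 < ε) :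
    ∃ (j : ℕ) (g : CellT (j + 1) → α), ν.real {x | q x ≠ g (cell (j + 1) x)} < ε := by
  classical
  set n : ℝ := (Fintype.card α : ℝ) + 1 with hn
  have hnpos : 0 < n := by positivity
  have hε' : 0 < ε / n := by positivity
  have hK : ∀ a : α, ∃ K ⊆ q ⁻¹' {a}, IsCompact K ∧ ν ((q ⁻¹' {a}) \ K) < ENNReal.ofReal (ε / n) := by
    intro a
    exact (hq a).exists_isCompact_sdiff_lt (measure_ne_top _ _) (by simpa using hε')
  choose K hKsub hKc hKm using hK
  -- separation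
  have hsep : ∀ a a' : α, a ≠ a' → ∃ δ > 0, ∀ x ∈ K a, ∀ y ∈ K a', δ ≤ dist x y := by
    intro a a' haa'
    have hdisj : Disjoint (K a) (K a') := by
      rw [Set.disjoint_left]
      intro x hx hx'
      have h1 : q x = a := hKsub a hx
      have h2 : q x = a' := hKsub a' hx'
      exact haa' (h1.symm.trans h2)
    obtain ⟨δ, hδ, hd⟩ := hdisj.exists_thickenings (hKc a) (hKc a').isClosed
    refine ⟨δ, hδ, fun x hx y hy => ?_⟩
    by_contra hlt
    push Not at hlt
    have h1 : x ∈ Metric.thickening δ (K a) := Metric.self_subset_thickening hδ _ hx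
    have h2 : x ∈ Metric.thickening δ (K a') := Metric.mem_thickening_iff.2 ⟨y, hy, hlt⟩
    exact Set.disjoint_left.1 hd h1 h2
  have hev : ∀ a a' : α, ∀ᶠ j : ℕ in atTop, a ≠ a' → ∀ x ∈ K a, ∀ y ∈ K a',
      2 / ((j + 1 : ℕ) : ℝ) ≤ dist x y := by
    intro a a'
    by_cases haa' : a = a'
    · exact Eventually.of_forall fun j h => absurd haa' h
    · obtain ⟨δ, hδ, hd⟩ := hsep a a' haa'
      have : Tendsto (fun j : ℕ => 2 / ((j + 1 : ℕ) : ℝ)) atTop (𝓝 0) := by
        have h1 := (tendsto_one_div_add_atTop_nhds_zero_nat (𝕜 := ℝ)).const_mul 2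
        rw [mul_zero] at h1
        refine h1.congr fun j => by push_cast; ring
      filter_upwards [this.eventually (gt_mem_nhds hδ)] with j hj _ x hx y hy
      exact hj.le.trans (hd x hx y hy)
  obtain ⟨j, hj⟩ := (eventually_all.2 fun a => eventually_all.2 fun a' => hev a a').exists
  refine ⟨j, fun b => if h : ∃ a, ∃ p ∈ K a ∩ Box, cell (j + 1) p = b then h.choose else
    Classical.arbitrary α, ?_⟩
  have hgood : ∀ a, ∀ p ∈ K a, p ∈ Box →
      (if h : ∃ a', ∃ p' ∈ K a' ∩ Box, cell (j + 1) p' = cell (j + 1) p then h.choose else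
        Classical.arbitrary α) = q p := by
    intro a p hp hB
    have hex : ∃ a', ∃ p' ∈ K a' ∩ Box, cell (j + 1) p' = cell (j + 1) p := ⟨a, p, ⟨hp, hB⟩, rfl⟩
    rw [dif_pos hex]
    obtain ⟨p', ⟨hp'K, hp'B⟩, hcell⟩ := hex.choose_spec
    have hqp : q p = a := hKsub a hp
    rw [hqp]
    by_contra hne
    have h1 := hj _ _ hne p' hp'K p hp
    have h2 := cell_dist (j + 1) (by omega) p' p hp'B hB hcell
    have h3 : dist p' p < 2 / ((j + 1 : ℕ) : ℝ) := by
      rw [Prod.dist_eq, max_lt_iff, dist_eq_norm, dist_eq_norm]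
      exact h2
    linarith
  have hsub : {x | q x ≠ if h : ∃ a, ∃ p ∈ K a ∩ Box, cell (j + 1) p = cell (j + 1) x then h.choose else
      Classical.arbitrary α} ⊆ Boxᶜ ∪ ⋃ a : α, (q ⁻¹' {a} \ K a) := by
    intro x hx
    by_contra hc
    simp only [Set.mem_union, Set.mem_compl_iff, Set.mem_iUnion, Set.mem_sdiff, not_or, not_not,
      not_exists, not_and] at hc
    have hxK : x ∈ K (q x) := hc.2 (q x) rfl
    exact hx (hgood (q x) x hxK hc.1).symm
  have hle : ν {x | q x ≠ if h : ∃ a, ∃ p ∈ K a ∩ Box, cell (j + 1) p = cell (j + 1) x then h.choose else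
      Classical.arbitrary α} ≤ ∑ _a : α, ENNReal.ofReal (ε / n) := by
    refine (measure_mono hsub).trans ((measure_union_le _ _).trans ?_)
    rw [null_box_compl hf, zero_add]
    refine (measure_iUnion_le _).trans ?_
    rw [tsum_fintype]
    exact Finset.sum_le_sum fun a _ => (hKm a).le
  rw [Finset.sum_const, nsmul_eq_mul, Finset.card_univ] at hle
  have hlt : ((Fintype.card α : ℕ) : ENNReal) * ENNReal.ofReal (ε / n) < ENNReal.ofReal ε := by
    rw [← ENNReal.ofReal_natCast, ← ENNReal.ofReal_mul (by positivity)]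
    rw [ENNReal.ofReal_lt_ofReal_iff hε]
    rw [mul_div_assoc', div_lt_iff₀ hnpos, hn]
    nlinarith
  have h3 := hle.trans_lt hlt
  rw [measureReal_def]
  have := (ENNReal.toReal_lt_toReal (measure_ne_top _ _) ENNReal.ofReal_ne_top).2 h3
  rwa [ENNReal.toReal_ofReal hε.le] at this

/-- uniform bound for the entropy of the Henon map -/
theorem rate_le_log (ν : Measure (ℂ × ℂ)) [IsFiniteMeasure ν] (hf : MeasurePreserving F ν ν)
    {α : Type*} [Fintype α] {q : ℂ × ℂ → α} (hq : MQ q) :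
    RateLe ν F q (ν.real Set.univ * Real.log (43 ^ 2)) := by
  have : Nonempty α := ⟨q 0⟩
  refine RateLe.of_cells hf hq _ (mul_nonneg measureReal_nonneg (Real.log_nonneg (by norm_num)))
    (fun j => CellT (j + 1)) (fun j => cell (j + 1)) (fun j => MQ_cell _)
    (fun j => cells_bound ν hf _ (by omega)) (fun ε hε => cells_approx ν hf hq hε)

end Pool.Agent.Work.MP_9ac7bc_an
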