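import Mathlib
import Pool.Agent.Work.MP_9ac7bc_an.SmallDiv

set_option autoImplicit false

open Filter Topology

namespace Pool.Agent.Work.MP_9ac7bc_an

/-- small denominators of the linearisation problem -/
noncomputable def dk (k : ℕ) : ℂ := (lam ^ k - lam) * (1 - (1 / 2) * (lam ^ k)⁻¹)

/-- coefficients of the linearisation -/
noncomputable def vc : ℕ → ℂ
  | 0 => 1
  | n + 1 => (∑ i : Fin n.succ, vc i * vc (n - i)) / dk (n + 2)

lemma vc_zero : vc 0 = 1 := by rw [vc]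

lemma vc_succ (n : ℕ) : vc (n + 1) = (∑ i : Fin n.succ, vc i * vc (n - i)) / dk (n + 2) := by
  rw [vc]

lemma norm_one_sub_ge (k : ℕ) : 1 / 2 ≤ ‖1 - (1 / 2) * (lam ^ k)⁻¹‖ := by
  have h1 : ‖(1 / 2 : ℂ) * (lam ^ k)⁻¹‖ = 1 / 2 := by
    rw [norm_mul, norm_inv, norm_lam_pow]; norm_num
  have h2 := norm_sub_norm_le (1 : ℂ) ((1 / 2) * (lam ^ k)⁻¹)
  rw [h1, norm_one] at h2
  linarith

lemma norm_dk_ge (n : ℕ) : 1 / 2 * ‖lam ^ (n + 1) - 1‖ ≤ ‖dk (n + 2)‖ := by
  unfold dk
  have e : lam ^ (n + 2) - lam = lam * (lam ^ (n + 1) - 1) := by ring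
  rw [e, norm_mul, norm_mul, norm_lam, one_mul, mul_comm]
  exact mul_le_mul_of_nonneg_left (norm_one_sub_ge _) (norm_nonneg _)

lemma dk_ne_zero (n : ℕ) : dk (n + 2) ≠ 0 := by
  intro h
  have := norm_dk_ge n
  rw [h, norm_zero] at this
  have hpos : 0 < ‖lam ^ (n + 1) - 1‖ := norm_pos_iff.2 (lam_pow_sub_one_ne (by omega))
  linarith

lemma norm_vc_succ_le (n : ℕ) :
    ‖vc (n + 1)‖ ≤ 2 * eps (n + 2) * ∑ i : Fin n.succ, ‖vc i‖ * ‖vc (n - i)‖ := by
  rw [vc_succ, norm_div]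
  have hpos : 0 < ‖lam ^ (n + 1) - 1‖ := norm_pos_iff.2 (lam_pow_sub_one_ne (by omega))
  have hd := norm_dk_ge n
  have hs : ‖∑ i : Fin n.succ, vc i * vc (n - i)‖ ≤ ∑ i : Fin n.succ, ‖vc i‖ * ‖vc (n - i)‖ := by
    refine (norm_sum_le _ _).trans (Finset.sum_le_sum fun i _ => ?_)
    rw [norm_mul]
  have hs0 : 0 ≤ ∑ i : Fin n.succ, ‖vc i‖ * ‖vc (n - i)‖ := (norm_nonneg _).trans hs
  have he : eps (n + 2) = ‖lam ^ (n + 1) - 1‖⁻¹ := by unfold eps; rfl
  rw [he]
  calc ‖∑ i : Fin n.succ, vc i * vc (n - i)‖ / ‖dk (n + 2)‖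
      ≤ (∑ i : Fin n.succ, ‖vc i‖ * ‖vc (n - i)‖) / (1 / 2 * ‖lam ^ (n + 1) - 1‖) :=
        div_le_div₀ hs0 hs (by positivity) hd
    _ = _ := by field_simp

lemma norm_vc_le (n : ℕ) : ‖vc n‖ ≤ 32 * 256 ^ n := by
  have := coeff_bound eps eps_nonneg eps_le eps_sep 2 (by norm_num) vc (by rw [vc_zero]; simp)
    norm_vc_succ_le n
  norm_num at this ⊢
  exact this

/-- radius on which everything converges -/
noncomputable def r1 : ℝ := 1 / 512

lemma r1_pos : 0 < r1 := by unfold r1; norm_num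

lemma norm_term_le (n : ℕ) {z : ℂ} (hz : ‖z‖ ≤ r1) : ‖vc n * z ^ n‖ ≤ 32 * (1 / 2) ^ n := by
  rw [norm_mul, norm_pow]
  have h1 := norm_vc_le n
  have h2 : ‖z‖ ^ n ≤ (1 / 512) ^ n := pow_le_pow_left₀ (norm_nonneg _) hz n
  calc ‖vc n‖ * ‖z‖ ^ n ≤ (32 * 256 ^ n) * (1 / 512) ^ n :=
        mul_le_mul h1 h2 (by positivity) (by positivity)
    _ = 32 * (1 / 2) ^ n := by
        rw [mul_assoc, ← mul_pow]; norm_num

lemma summable_bound : Summable (fun n : ℕ => 32 * (1 / 2 : ℝ) ^ n) :=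
  (summable_geometric_of_lt_one (by norm_num) (by norm_num)).mul_left _

lemma summable_norm_term {z : ℂ} (hz : ‖z‖ ≤ r1) : Summable (fun n => ‖vc n * z ^ n‖) :=
  Summable.of_nonneg_of_le (fun _ => norm_nonneg _) (fun n => norm_term_le n hz) summable_bound

/-- the power series -/
noncomputable def V (z : ℂ) : ℂ := ∑' n, vc n * z ^ n

/-- the linearising parametrisation -/
noncomputable def u (z : ℂ) : ℂ := z * V z

lemma hasSum_V {z : ℂ} (hz : ‖z‖ ≤ r1) : HasSum (fun n => vc n * z ^ n) (V z) :=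
  (summable_norm_term hz).of_norm.hasSum

lemma differentiableOn_V : DifferentiableOn ℂ V (Metric.ball 0 r1) := by
  unfold V
  refine Complex.differentiableOn_tsum_of_summable_norm summable_bound (fun n => ?_)
    Metric.isOpen_ball (fun n w hw => ?_)
  · fun_prop
  · refine norm_term_le n ?_
    rw [Metric.mem_ball, dist_zero_right] at hw
    exact hw.le

lemma V_zero : V 0 = 1 := by
  unfold V
  rw [tsum_eq_single 0]
  · simp [vc_zero]
  · intro n hn
    simp [hn]

lemma hasStrictDerivAt_u : HasStrictDerivAt u 1 0 := by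
  have hV : DifferentiableOn ℂ u (Metric.ball 0 r1) :=
    differentiableOn_id.mul differentiableOn_V
  have han : AnalyticAt ℂ u 0 := hV.analyticAt (Metric.ball_mem_nhds _ r1_pos)
  have hs := han.hasStrictDerivAt
  have hd : deriv u 0 = 1 := by
    have hVd : DifferentiableAt ℂ V 0 :=
      differentiableOn_V.differentiableAt (Metric.ball_mem_nhds _ r1_pos)
    have h1 : HasDerivAt u (1 * V 0 + 0 * deriv V 0) 0 := (hasDerivAt_id (0 : ℂ)).mul hVd.hasDerivAt
    rw [h1.deriv, V_zero]; simp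
  rwa [hd] at hs

lemma u_zero : u 0 = 0 := by unfold u; simp

/-- the functional equation -/
lemma u_eq {z : ℂ} (hz : ‖z‖ ≤ r1) :
    u (lam * z) + lam / 2 * u (lam⁻¹ * z) = (lam + 1 / 2) * u z + u z ^ 2 := by
  have hn1 : ‖lam * z‖ ≤ r1 := by rw [norm_mul, norm_lam, one_mul]; exact hz
  have hn2 : ‖lam⁻¹ * z‖ ≤ r1 := by rw [norm_mul, norm_inv, norm_lam, inv_one, one_mul]; exact hz
  have h1 := hasSum_V hn1
  have h2 := hasSum_V hn2
  have h3 := hasSum_V hz
  -- linear part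
  have hlin : HasSum (fun n => dk (n + 1) * (vc n * z ^ n))
      (lam * V (lam * z) + lam / 2 * (lam⁻¹ * V (lam⁻¹ * z)) - (lam + 1 / 2) * V z) := by
    have := ((h1.mul_left lam).add ((h2.mul_left lam⁻¹).mul_left (lam / 2))).sub
      (h3.mul_left (lam + 1 / 2))
    refine this.congr_fun ?_ |> fun h => h
    intro n
    have hl := lam_ne_zero
    unfold dk
    rw [mul_pow, mul_pow, inv_pow]
    field_simp
    ring
  -- square
  have hsq : HasSum (fun n => (∑ i : Fin n.succ, vc i * vc (n - i)) * z ^ n) (V z ^ 2) := by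
    have h4 := (summable_norm_term hz)
    have h5 := tsum_mul_tsum_eq_tsum_sum_antidiagonal_of_summable_norm h4 h4
    have h6 := summable_norm_sum_mul_antidiagonal_of_summable_norm h4 h4
    have h7 : (fun n => ∑ kl ∈ Finset.HasAntidiagonal.antidiagonal n, vc kl.1 * z ^ kl.1 * (vc kl.2 * z ^ kl.2)) =
        fun n => (∑ i : Fin n.succ, vc i * vc (n - i)) * z ^ n := by
      funext n
      rw [Finset.Nat.sum_antidiagonal_eq_sum_range_succ
        (fun i j => vc i * z ^ i * (vc j * z ^ j)), Finset.sum_range, Finset.sum_mul]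
      refine Finset.sum_congr rfl fun i _ => ?_
      have hi : (i : ℕ) ≤ n := by have := i.2; omega
      have : z ^ n = z ^ (i : ℕ) * z ^ (n - i) := by rw [← pow_add]; congr 1; omega
      rw [this]; ring
    have h8 := h6.of_norm.hasSum
    rw [← h5, h7] at h8
    have h9 : V z ^ 2 = (∑' n, vc n * z ^ n) * ∑' n, vc n * z ^ n := by unfold V; ring
    rw [h9]; exact h8
  -- shift
  have hd1 : dk 1 = 0 := by unfold dk; simp
  have hshift : HasSum (fun n => dk (n + 2) * (vc (n + 1) * z ^ (n + 1)))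
      (lam * V (lam * z) + lam / 2 * (lam⁻¹ * V (lam⁻¹ * z)) - (lam + 1 / 2) * V z) := by
    have := (hasSum_nat_add_iff' (f := fun n => dk (n + 1) * (vc n * z ^ n)) 1).2 hlin
    simpa [hd1] using this
  have hz2 : HasSum (fun n => dk (n + 2) * (vc (n + 1) * z ^ (n + 1))) (z * V z ^ 2) := by
    have := hsq.mul_left z
    refine this.congr_fun ?_ |> fun h => h
    intro n
    rw [vc_succ]
    have := dk_ne_zero n
    field_simp
    ring
  have huniq := hshift.unique hz2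
  unfold u
  have hl := lam_ne_zero
  linear_combination z * huniq

end Pool.Agent.Work.MP_9ac7bc_an
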