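import Mathlib
import Pool.Agent.Work.MP_9ac7bc_an.Siegel
import Pool.Agent.Work.MP_9ac7bc_an.Henon

set_option autoImplicit false

open MeasureTheory Filter Topology Metric

namespace Pool.Agent.Work.MP_9ac7bc_an

lemma exists_radius : ∃ r : ℝ, 0 < r ∧ r < r1 ∧
    (∀ z ∈ closedBall (0 : ℂ) r, ∀ z' ∈ closedBall (0 : ℂ) r,
      ‖u z - u z' - (z - z')‖ ≤ 1 / 10 * ‖z - z'‖) ∧
    (∀ (b : ℂ) (ε : ℝ), 0 ≤ ε → closedBall b ε ⊆ closedBall 0 r →
      Set.SurjOn u (closedBall b ε) (closedBall (u b) (9 / 10 * ε))) := by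
  have hs : HasStrictFDerivAt u ((ContinuousLinearEquiv.refl ℂ ℂ : ℂ ≃L[ℂ] ℂ) : ℂ →L[ℂ] ℂ) 0 := by
    have h := hasStrictDerivAt_u.hasStrictFDerivAt
    have e : ContinuousLinearMap.toSpanSingleton ℂ (1 : ℂ) =
        ((ContinuousLinearEquiv.refl ℂ ℂ : ℂ ≃L[ℂ] ℂ) : ℂ →L[ℂ] ℂ) := by
      ext; simp
    rwa [e] at h
  obtain ⟨s, hs1, hs2⟩ := hs.approximates_deriv_on_nhds (c := 1 / 10) (Or.inr (by norm_num))
  obtain ⟨r0, hr0, hr0s⟩ := Metric.mem_nhds_iff.1 hs1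
  refine ⟨min (r0 / 2) (r1 / 2), ?_, ?_, ?_, ?_⟩
  · exact lt_min (by linarith) (by have := r1_pos; linarith)
  · exact (min_le_right _ _).trans_lt (by have := r1_pos; linarith)
  · intro z hz z' hz'
    have hsub : closedBall (0 : ℂ) (min (r0 / 2) (r1 / 2)) ⊆ s :=
      (closedBall_subset_ball ((min_le_left _ _).trans_lt (by linarith))).trans hr0s
    have := hs2 z (hsub hz) z' (hsub hz')
    simpa using this
  · intro b ε hε hb
    have hsub : closedBall (0 : ℂ) (min (r0 / 2) (r1 / 2)) ⊆ s :=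
      (closedBall_subset_ball ((min_le_left _ _).trans_lt (by linarith))).trans hr0s
    have := hs2.surjOn_closedBall_of_nonlinearRightInverse
      (ContinuousLinearEquiv.toNonlinearRightInverse (ContinuousLinearEquiv.refl ℂ ℂ)) hε (hb.trans hsub)
    refine this.mono subset_rfl (closedBall_subset_closedBall ?_)
    refine mul_le_mul_of_nonneg_right ?_ hε
    have hn : ((ContinuousLinearEquiv.toNonlinearRightInverse (ContinuousLinearEquiv.refl ℂ ℂ)).nnnorm : ℝ) = 1 := by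
      show ‖(((ContinuousLinearEquiv.refl ℂ ℂ).symm : ℂ ≃L[ℂ] ℂ) : ℂ →L[ℂ] ℂ)‖ = 1
      exact ContinuousLinearMap.norm_id
    rw [hn]
    norm_num

/-- the working radius -/
noncomputable def rr : ℝ := exists_radius.choose

lemma rr_pos : 0 < rr := exists_radius.choose_spec.1
lemma rr_lt : rr < r1 := exists_radius.choose_spec.2.1

lemma u_approx {z z' : ℂ} (hz : ‖z‖ ≤ rr) (hz' : ‖z'‖ ≤ rr) :
    ‖u z - u z' - (z - z')‖ ≤ 1 / 10 * ‖z - z'‖ :=
  exists_radius.choose_spec.2.2.1 z (mem_closedBall_zero_iff.2 hz) z' (mem_closedBall_zero_iff.2 hz')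

lemma u_lip {z z' : ℂ} (hz : ‖z‖ ≤ rr) (hz' : ‖z'‖ ≤ rr) : ‖u z - u z'‖ ≤ 11 / 10 * ‖z - z'‖ := by
  have h := u_approx hz hz'
  have : u z - u z' = (u z - u z' - (z - z')) + (z - z') := by ring
  rw [this]
  refine (norm_add_le _ _).trans ?_
  linarith

lemma u_anti {z z' : ℂ} (hz : ‖z‖ ≤ rr) (hz' : ‖z'‖ ≤ rr) : 9 / 10 * ‖z - z'‖ ≤ ‖u z - u z'‖ := by
  have h := u_approx hz hz'
  have : z - z' = (u z - u z') - (u z - u z' - (z - z')) := by ring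
  have h2 : ‖z - z'‖ ≤ ‖u z - u z'‖ + ‖u z - u z' - (z - z')‖ := by
    calc ‖z - z'‖ = ‖(u z - u z') - (u z - u z' - (z - z'))‖ := by rw [← this]
      _ ≤ _ := norm_sub_le _ _
  linarith

lemma u_inj {z z' : ℂ} (hz : ‖z‖ ≤ rr) (hz' : ‖z'‖ ≤ rr) (h : u z = u z') : z = z' := by
  have := u_anti hz hz'
  rw [h, sub_self, norm_zero] at this
  have h2 : ‖z - z'‖ ≤ 0 := by linarith
  exact sub_eq_zero.1 (norm_le_zero_iff.1 h2)

/-- local surjectivity -/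
lemma u_surj {b x : ℂ} {ε : ℝ} (hε : 0 ≤ ε) (hb : ‖b‖ + ε ≤ rr) (hx : ‖x - u b‖ ≤ 9 / 10 * ε) :
    ∃ z, ‖z - b‖ ≤ ε ∧ ‖z‖ ≤ rr ∧ u z = x ∧ 9 / 10 * ‖z - b‖ ≤ ‖x - u b‖ := by
  have hsub : closedBall b ε ⊆ closedBall 0 rr := by
    refine closedBall_subset_closedBall' ?_
    rw [dist_zero_right]; linarith
  obtain ⟨z, hz, hzx⟩ := exists_radius.choose_spec.2.2.2 b ε hε hsub
    (show x ∈ closedBall (u b) (9 / 10 * ε) by rw [mem_closedBall, dist_eq_norm]; exact hx)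
  have hzr : ‖z‖ ≤ rr := mem_closedBall_zero_iff.1 (hsub hz)
  rw [mem_closedBall, dist_eq_norm] at hz
  refine ⟨z, hz, hzr, hzx, ?_⟩
  rw [← hzx]
  exact u_anti hzr (by linarith)

/-- coordinates near the invariant disc -/
noncomputable def Psi (z w : ℂ) : ℂ × ℂ := (u z, u (lam * z) + w)

lemma norm_lam_mul (z : ℂ) : ‖lam * z‖ = ‖z‖ := by rw [norm_mul, norm_lam, one_mul]

lemma norm_lam_inv_mul (z : ℂ) : ‖lam⁻¹ * z‖ = ‖z‖ := by
  rw [norm_mul, norm_inv, norm_lam, inv_one, one_mul]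

lemma Psi_inj {z w z' w' : ℂ} (hz : ‖z‖ ≤ rr) (hz' : ‖z'‖ ≤ rr) (h : Psi z w = Psi z' w') :
    z = z' ∧ w = w' := by
  unfold Psi at h
  rw [Prod.mk.injEq] at h
  have h1 := u_inj hz hz' h.1
  subst h1
  exact ⟨rfl, add_left_cancel h.2⟩

lemma F_Psi_step {z w : ℂ} (hz : ‖z‖ ≤ rr / 2) (hw : ‖w‖ ≤ 9 / 10 * (rr / 2)) :
    ∃ z' w', F (Psi z w) = Psi z' w' ∧ ‖z' - lam * z‖ ≤ 10 / 9 * ‖w‖ ∧ ‖w'‖ ≤ 2 / 3 * ‖w‖ := by
  have hr := rr_pos
  have h1 := rr_lt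
  obtain ⟨z', hz'1, hz'2, hz'3, hz'4⟩ := u_surj (b := lam * z) (x := u (lam * z) + w) (ε := rr / 2)
    (by linarith) (by rw [norm_lam_mul]; linarith) (by simpa using hw)
  have hw' : 9 / 10 * ‖z' - lam * z‖ ≤ ‖w‖ := by simpa using hz'4
  refine ⟨z', lam / 2 * (u (lam⁻¹ * z') - u z), ?_, by linarith, ?_⟩
  · have hfe := u_eq (z := z') (by linarith)
    unfold F Psi
    simp only
    rw [← hz'3]
    refine Prod.ext rfl ?_
    simp only
    linear_combination (-1 : ℂ) * hfe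
  · rw [norm_mul, norm_lam_half]
    have hl := u_lip (z := lam⁻¹ * z') (z' := z) (by rw [norm_lam_inv_mul]; exact hz'2) (by linarith)
    have e : ‖lam⁻¹ * z' - z‖ = ‖z' - lam * z‖ := by
      have : lam⁻¹ * z' - z = lam⁻¹ * (z' - lam * z) := by
        have := lam_ne_zero
        field_simp
      rw [this, norm_lam_inv_mul]
    rw [e] at hl
    have := norm_nonneg w
    linarith

lemma F_Psi_orbit {z w : ℂ} (hz : ‖z‖ ≤ rr / 4) (hw : ‖w‖ ≤ rr / 16) (n : ℕ) :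
    ∃ z' w', F^[n] (Psi z w) = Psi z' w' ∧
      ‖z'‖ ≤ rr / 4 + 10 / 3 * (1 - (2 / 3) ^ n) * (rr / 16) ∧ ‖w'‖ ≤ (2 / 3) ^ n * (rr / 16) := by
  have hr := rr_pos
  induction n with
  | zero => exact ⟨z, w, rfl, by simpa using hz, by simpa using hw⟩
  | succ n ih =>
    obtain ⟨z1, w1, h1, h2, h3⟩ := ih
    have hp : (0 : ℝ) < (2 / 3) ^ n := by positivity
    have hp1 : ((2 : ℝ) / 3) ^ n ≤ 1 := pow_le_one₀ (by norm_num) (by norm_num)
    have hz1 : ‖z1‖ ≤ rr / 2 := by nlinarith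
    have hw1 : ‖w1‖ ≤ 9 / 10 * (rr / 2) := by nlinarith
    obtain ⟨z2, w2, g1, g2, g3⟩ := F_Psi_step hz1 hw1
    refine ⟨z2, w2, ?_, ?_, ?_⟩
    · rw [Function.iterate_succ_apply', h1, g1]
    · have : ‖z2‖ ≤ ‖z2 - lam * z1‖ + ‖lam * z1‖ := by
        calc ‖z2‖ = ‖(z2 - lam * z1) + lam * z1‖ := by ring_nf
          _ ≤ _ := norm_add_le _ _
      rw [norm_lam_mul] at this
      rw [pow_succ]
      nlinarith
    · rw [pow_succ]
      nlinarith

lemma F_Psi_zero {z : ℂ} (hz : ‖z‖ ≤ rr) : F (Psi z 0) = Psi (lam * z) 0 := by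
  have h1 := rr_lt
  have hfe := u_eq (z := lam * z) (by rw [norm_lam_mul]; linarith)
  have e : lam⁻¹ * (lam * z) = z := by
    rw [← mul_assoc, inv_mul_cancel₀ lam_ne_zero, one_mul]
  rw [e] at hfe
  unfold F Psi
  simp only [add_zero]
  refine Prod.ext rfl ?_
  simp only
  linear_combination (-1 : ℂ) * hfe

lemma F_iter_Psi_zero {z : ℂ} (hz : ‖z‖ ≤ rr) (n : ℕ) : F^[n] (Psi z 0) = Psi (lam ^ n * z) 0 := by
  induction n with
  | zero => simp
  | succ n ih =>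
    rw [Function.iterate_succ_apply', ih, F_Psi_zero (by rw [norm_mul, norm_lam_pow, one_mul]; exact hz),
      ← mul_assoc, ← pow_succ']

lemma continuousOn_u : ContinuousOn u (closedBall 0 rr) := by
  have h1 : DifferentiableOn ℂ u (ball 0 r1) := differentiableOn_id.mul differentiableOn_V
  exact h1.continuousOn.mono (closedBall_subset_ball rr_lt)

lemma continuousOn_Psi : ContinuousOn (fun p : ℂ × ℂ => Psi p.1 p.2) {p | ‖p.1‖ ≤ rr} := by
  unfold Psi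
  refine ContinuousOn.prodMk ?_ ?_
  · exact continuousOn_u.comp continuousOn_fst fun p hp => mem_closedBall_zero_iff.2 hp
  · refine ContinuousOn.add ?_ continuousOn_snd
    refine continuousOn_u.comp (by fun_prop) fun p hp => mem_closedBall_zero_iff.2 ?_
    rw [norm_lam_mul]; exact hp

/-- trapped neighbourhood -/
def Om : Set (ℂ × ℂ) := (fun p : ℂ × ℂ => Psi p.1 p.2) '' {p | ‖p.1‖ ≤ rr / 4 ∧ ‖p.2‖ ≤ rr / 16}

/-- the invariant disc -/
def Dd : Set (ℂ × ℂ) := (fun z : ℂ => Psi z 0) '' closedBall 0 (rr / 4)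

lemma isCompact_two {a b c : ℝ} : IsCompact {p : ℂ × ℂ | ‖p.1‖ ≤ a ∧ (c ≤ ‖p.2‖ ∧ ‖p.2‖ ≤ b)} := by
  have : {p : ℂ × ℂ | ‖p.1‖ ≤ a ∧ (c ≤ ‖p.2‖ ∧ ‖p.2‖ ≤ b)} =
      closedBall 0 a ×ˢ (closedBall 0 b ∩ {w | c ≤ ‖w‖}) := by
    ext p
    simp only [Set.mem_ofPred_eq, Set.mem_prod, mem_closedBall_zero_iff, Set.mem_inter_iff]
    tauto
  rw [this]
  refine (isCompact_closedBall _ _).prod ((isCompact_closedBall _ _).inter_right ?_)
  exact isClosed_le continuous_const continuous_norm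

lemma isCompact_Om : IsCompact Om := by
  have h := isCompact_two (a := rr / 4) (b := rr / 16) (c := 0)
  have e : {p : ℂ × ℂ | ‖p.1‖ ≤ rr / 4 ∧ (0 ≤ ‖p.2‖ ∧ ‖p.2‖ ≤ rr / 16)} =
      {p | ‖p.1‖ ≤ rr / 4 ∧ ‖p.2‖ ≤ rr / 16} := by
    ext p; simp
  rw [e] at h
  refine h.image_of_continuousOn (continuousOn_Psi.mono fun p hp => ?_)
  have := rr_pos
  have h1 : ‖p.1‖ ≤ rr / 4 := hp.1
  show ‖p.1‖ ≤ rr
  linarith

lemma isCompact_Dd : IsCompact Dd := by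
  refine (isCompact_closedBall _ _).image_of_continuousOn ?_
  refine continuousOn_Psi.comp (f := fun z : ℂ => (z, (0 : ℂ))) (by fun_prop) fun z hz => ?_
  have := rr_pos
  have h1 := mem_closedBall_zero_iff.1 hz
  show ‖z‖ ≤ rr
  linarith

/-- the trapped part outside the disc is null for invariant measures -/
lemma null_Om_diff {ν : Measure (ℂ × ℂ)} [IsFiniteMeasure ν] (hf : MeasurePreserving F ν ν) :
    ν (Om \ Dd) = 0 := by
  have hr := rr_pos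
  let A : ℕ → Set (ℂ × ℂ) := fun k => (fun p : ℂ × ℂ => Psi p.1 p.2) ''
    {p | ‖p.1‖ ≤ rr / 4 ∧ ((1 / (k + 1) : ℝ) ≤ ‖p.2‖ ∧ ‖p.2‖ ≤ rr / 16)}
  have hA : ∀ k, ν (A k) = 0 := by
    intro k
    obtain ⟨n0, hn0⟩ : ∃ n0 : ℕ, (2 / 3 : ℝ) ^ n0 * (rr / 16) < 1 / (k + 1) := by
      have h1 : Tendsto (fun n : ℕ => (2 / 3 : ℝ) ^ n * (rr / 16)) atTop (𝓝 (0 * (rr / 16))) :=
        (tendsto_pow_atTop_nhds_zero_of_lt_one (by norm_num) (by norm_num)).mul_const _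
      rw [zero_mul] at h1
      exact (h1.eventually (gt_mem_nhds (by positivity))).exists
    refine null_of_nonrec hf ?_ n0 ?_
    · have hc : IsCompact (A k) := by
        refine (isCompact_two (a := rr / 4) (b := rr / 16) (c := 1 / (k + 1))).image_of_continuousOn
          (continuousOn_Psi.mono fun p hp => ?_)
        have h1 : ‖p.1‖ ≤ rr / 4 := hp.1
        show ‖p.1‖ ≤ rr
        linarith
      exact hc.isClosed.measurableSet
    · rintro n hn _ ⟨p, ⟨hp1, hp2, hp3⟩, rfl⟩ ⟨p', ⟨hp'1, hp'2, hp'3⟩, he⟩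
      obtain ⟨z', w', h1, h2, h3⟩ := F_Psi_orbit hp1 hp3 n
      simp only at he
      rw [h1] at he
      have hpn : (2 / 3 : ℝ) ^ n ≤ 1 := pow_le_one₀ (by norm_num) (by norm_num)
      have hpp : (0 : ℝ) < (2 / 3) ^ n := by positivity
      have hz' : ‖z'‖ ≤ rr := by nlinarith
      have := (Psi_inj (by linarith) hz' he).2
      rw [this] at hp'2
      have h4 : (2 / 3 : ℝ) ^ n ≤ (2 / 3) ^ n0 := pow_le_pow_of_le_one (by norm_num) (by norm_num) hn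
      nlinarith
  refine measure_mono_null ?_ (measure_iUnion_null hA)
  rintro _ ⟨⟨p, ⟨hp1, hp2⟩, rfl⟩, hnot⟩
  have hw : p.2 ≠ 0 := by
    intro h0
    exact hnot ⟨p.1, mem_closedBall_zero_iff.2 hp1, by simp [h0]⟩
  obtain ⟨k, hk⟩ := exists_nat_one_div_lt (norm_pos_iff.2 hw)
  exact Set.mem_iUnion.2 ⟨k, p, ⟨hp1, hk.le, hp2⟩, rfl⟩

/-- a uniform neighbourhood of the invariant circle is trapped -/
lemma near_circle {p : ℂ × ℂ} {z0 : ℂ} (hz0 : ‖z0‖ = rr / 8) (h : dist p (Psi z0 0) ≤ rr / 40) :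
    p ∈ Om := by
  have hr := rr_pos
  rw [Prod.dist_eq, max_le_iff, dist_eq_norm, dist_eq_norm] at h
  unfold Psi at h
  simp only [add_zero] at h
  obtain ⟨z, h1, h2, h3, h4⟩ := u_surj (b := z0) (x := p.1) (ε := rr / 8) (by linarith) (by linarith)
    (by linarith)
  refine ⟨(z, p.2 - u (lam * z)), ⟨?_, ?_⟩, ?_⟩
  · show ‖z‖ ≤ rr / 4
    have : ‖z‖ ≤ ‖z - z0‖ + ‖z0‖ := by
      calc ‖z‖ = ‖(z - z0) + z0‖ := by ring_nf
        _ ≤ _ := norm_add_le _ _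
    linarith
  · show ‖p.2 - u (lam * z)‖ ≤ rr / 16
    have e : p.2 - u (lam * z) = (p.2 - u (lam * z0)) + (u (lam * z0) - u (lam * z)) := by ring
    rw [e]
    refine (norm_add_le _ _).trans ?_
    have hl := u_lip (z := lam * z0) (z' := lam * z) (by rw [norm_lam_mul]; linarith)
      (by rw [norm_lam_mul]; exact h2)
    have e2 : ‖lam * z0 - lam * z‖ = ‖z - z0‖ := by
      rw [← mul_sub, norm_lam_mul, norm_sub_rev]
    rw [e2] at hl
    linarith [h.1, h.2]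
  · unfold Psi
    simp [h3]

end Pool.Agent.Work.MP_9ac7bc_an
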