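import Mathlib
import Pool.Agent.Work.MP_9ac7bc_an.Local
import Pool.Agent.Work.MP_9ac7bc_an.Cells

set_option autoImplicit false

open MeasureTheory Filter Topology Metric

namespace Pool.Agent.Work.MP_9ac7bc_an

lemma lam_pow_sub_one_le (n : ℕ) (j : ℤ) :
    ‖lam ^ n - 1‖ ≤ 2 * Real.pi * |n * Real.sqrt 2 - j| := by
  have h1 : lam ^ n = Complex.exp (Complex.I * ((2 * Real.pi * (n * Real.sqrt 2 - j) : ℝ) : ℂ)) := by
    rw [lam_pow]
    have : Complex.I * ((2 * Real.pi * (n * Real.sqrt 2) : ℝ) : ℂ) =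
        Complex.I * ((2 * Real.pi * (n * Real.sqrt 2 - j) : ℝ) : ℂ) + j * (2 * Real.pi * Complex.I) := by
      push_cast; ring
    rw [this, Complex.exp_add, Complex.exp_int_mul_two_pi_mul_I, mul_one]
  rw [h1]
  refine (Real.norm_exp_I_mul_ofReal_sub_one_le).trans ?_
  rw [Real.norm_eq_abs, abs_mul, abs_of_pos (by positivity : (0 : ℝ) < 2 * Real.pi)]

/-- Dirichlet approximation -/
lemma exists_good (n : ℕ) (hn : 1 ≤ n) : ∃ k : ℕ, 1 ≤ k ∧ k ≤ n ∧
    ‖lam ^ k - 1‖ ≤ 2 * Real.pi / (n + 1) := by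
  obtain ⟨j, k, hk0, hkn, h⟩ := Real.exists_int_int_abs_mul_sub_le (Real.sqrt 2) (n := n) (by omega)
  refine ⟨k.toNat, by omega, by omega, ?_⟩
  have hk : ((k.toNat : ℕ) : ℝ) = (k : ℝ) := by
    have : ((k.toNat : ℕ) : ℤ) = k := Int.toNat_of_nonneg hk0.le
    exact_mod_cast this
  refine (lam_pow_sub_one_le k.toNat j).trans ?_
  rw [hk]
  calc 2 * Real.pi * |(k : ℝ) * Real.sqrt 2 - j| ≤ 2 * Real.pi * (1 / (n + 1)) :=
        mul_le_mul_of_nonneg_left h (by positivity)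
    _ = _ := by ring

lemma exists_rigid : ∃ m : ℕ → ℕ, (∀ j, 1 ≤ m j) ∧ Tendsto (fun j => ‖lam ^ m j - 1‖) atTop (𝓝 0) := by
  have h : ∀ j : ℕ, ∃ k : ℕ, 1 ≤ k ∧ ‖lam ^ k - 1‖ ≤ 2 * Real.pi / ((j + 1 : ℕ) + 1) := by
    intro j
    obtain ⟨k, h1, _, h3⟩ := exists_good (j + 1) (by omega)
    exact ⟨k, h1, h3⟩
  choose m hm1 hm2 using h
  refine ⟨m, hm1, squeeze_zero (fun _ => norm_nonneg _) hm2 ?_⟩
  have h1 := (tendsto_one_div_add_atTop_nhds_zero_nat (𝕜 := ℝ)).const_mul (2 * Real.pi)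
  rw [mul_zero] at h1
  have h2 := (tendsto_add_atTop_iff_nat (f := fun n : ℕ => 2 * Real.pi * (1 / ((n : ℝ) + 1))) 1).2 h1
  refine h2.congr fun j => by ring

/-- compact sets on which a finite partition is locally constant, uniformly -/
lemma exists_compact_sep {X : Type*} [MetricSpace X] [MeasurableSpace X] [BorelSpace X]
    (ν : Measure X) [IsFiniteMeasure ν] [ν.InnerRegularCompactLTTop]
    {α : Type*} [Fintype α] {q : X → α} (hq : MQ q) {ε : ℝ} (hε : 0 < ε) :
    ∃ K : Set X, IsCompact K ∧ ν.real Kᶜ < ε ∧ ∃ δ > 0, ∀ x ∈ K, ∀ y ∈ K, dist x y < δ → q x = q y := by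
  classical
  set n : ℝ := (Fintype.card α : ℝ) + 1 with hn
  have hnpos : 0 < n := by positivity
  have hε' : 0 < ε / n := by positivity
  have hK : ∀ a : α, ∃ K ⊆ q ⁻¹' {a}, IsCompact K ∧ ν ((q ⁻¹' {a}) \ K) < ENNReal.ofReal (ε / n) := by
    intro a
    exact (hq a).exists_isCompact_sdiff_lt (measure_ne_top _ _) (by simpa using hε')
  choose K hKsub hKc hKm using hK
  have hsep : ∀ a a' : α, ∃ δ > 0, a ≠ a' → ∀ x ∈ K a, ∀ y ∈ K a', δ ≤ dist x y := by
    intro a a'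
    by_cases haa' : a = a'
    · exact ⟨1, one_pos, fun h => absurd haa' h⟩
    have hdisj : Disjoint (K a) (K a') := by
      rw [Set.disjoint_left]
      intro x hx hx'
      have h1 : q x = a := hKsub a hx
      have h2 : q x = a' := hKsub a' hx'
      exact haa' (h1.symm.trans h2)
    obtain ⟨δ, hδ, hd⟩ := hdisj.exists_thickenings (hKc a) (hKc a').isClosed
    refine ⟨δ, hδ, fun _ x hx y hy => ?_⟩
    by_contra hlt
    push Not at hlt
    have h1 : x ∈ Metric.thickening δ (K a) := Metric.self_subset_thickening hδ _ hx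
    have h2 : x ∈ Metric.thickening δ (K a') := Metric.mem_thickening_iff.2 ⟨y, hy, hlt⟩
    exact Set.disjoint_left.1 hd h1 h2
  choose δ hδpos hδ using hsep
  refine ⟨⋃ a, K a, isCompact_iUnion hKc, ?_, ?_⟩
  · have hsub : (⋃ a, K a)ᶜ ⊆ ⋃ a : α, (q ⁻¹' {a} \ K a) := by
      intro x hx
      refine Set.mem_iUnion.2 ⟨q x, rfl, fun h => hx (Set.mem_iUnion.2 ⟨q x, h⟩)⟩
    have hle : ν (⋃ a, K a)ᶜ ≤ ∑ _a : α, ENNReal.ofReal (ε / n) := by
      refine (measure_mono hsub).trans ((measure_iUnion_le _).trans ?_)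
      rw [tsum_fintype]
      exact Finset.sum_le_sum fun a _ => (hKm a).le
    rw [Finset.sum_const, nsmul_eq_mul, Finset.card_univ] at hle
    have hlt : ((Fintype.card α : ℕ) : ENNReal) * ENNReal.ofReal (ε / n) < ENNReal.ofReal ε := by
      rw [← ENNReal.ofReal_natCast, ← ENNReal.ofReal_mul (by positivity)]
      rw [ENNReal.ofReal_lt_ofReal_iff hε]
      rw [mul_div_assoc', div_lt_iff₀ hnpos, hn]
      nlinarith
    have h3 := hle.trans_lt hlt
    rw [measureReal_def]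
    have := (ENNReal.toReal_lt_toReal (measure_ne_top _ _) ENNReal.ofReal_ne_top).2 h3
    rwa [ENNReal.toReal_ofReal hε.le] at this
  · rcases isEmpty_or_nonempty α with he | hne
    · refine ⟨1, one_pos, fun x hx => ?_⟩
      obtain ⟨a, _⟩ := Set.mem_iUnion.1 hx
      exact (he.false a).elim
    · obtain ⟨p, hp⟩ := Finite.exists_min (fun p : α × α => δ p.1 p.2)
      refine ⟨δ p.1 p.2, hδpos _ _, fun x hx y hy hxy => ?_⟩
      obtain ⟨a, ha⟩ := Set.mem_iUnion.1 hx
      obtain ⟨b, hb⟩ := Set.mem_iUnion.1 hy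
      have h1 : q x = a := hKsub a ha
      have h2 : q y = b := hKsub b hb
      rw [h1, h2]
      by_contra hab
      have h3 := hδ a b hab x ha y hb
      have h4 := hp (a, b)
      simp only at h4
      linarith

lemma F_injective : Function.Injective F := by
  intro p p' h
  unfold F at h
  rw [Prod.mk.injEq] at h
  obtain ⟨h1, h2⟩ := h
  rw [h1] at h2
  have h3 : lam / 2 * p.1 = lam / 2 * p'.1 := by linear_combination (-1 : ℂ) * h2
  have h4 : p.1 = p'.1 := mul_left_cancel₀ (div_ne_zero lam_ne_zero two_ne_zero) h3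
  exact Prod.ext h4 h1

lemma F_preimage_Dd : F ⁻¹' Dd = Dd := by
  have hr := rr_pos
  ext p
  constructor
  · rintro ⟨z, hz, he⟩
    rw [mem_closedBall_zero_iff] at hz
    have h1 : F (Psi (lam⁻¹ * z) 0) = F p := by
      rw [F_Psi_zero (by rw [norm_lam_inv_mul]; linarith), ← he, ← mul_assoc,
        mul_inv_cancel₀ lam_ne_zero, one_mul]
    rw [← F_injective h1]
    exact ⟨lam⁻¹ * z, by rw [mem_closedBall_zero_iff, norm_lam_inv_mul]; exact hz, rfl⟩
  · rintro ⟨z, hz, rfl⟩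
    rw [mem_closedBall_zero_iff] at hz
    show F (Psi z 0) ∈ Dd
    rw [F_Psi_zero (by linarith)]
    exact ⟨lam * z, by rw [mem_closedBall_zero_iff, norm_lam_mul]; exact hz, rfl⟩

lemma Dd_subset_Om : Dd ⊆ Om := by
  have hr := rr_pos
  rintro _ ⟨z, hz, rfl⟩
  rw [mem_closedBall_zero_iff] at hz
  exact ⟨(z, 0), ⟨hz, by simpa using (by positivity : (0 : ℝ) ≤ rr / 16)⟩, rfl⟩

/-- points of the disc return uniformly close along the rigidity sequence -/
lemma Dd_return {p : ℂ × ℂ} (hp : p ∈ Dd) (m : ℕ) : dist p (F^[m] p) ≤ 11 / 10 * rr * ‖lam ^ m - 1‖ := by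
  have hr := rr_pos
  obtain ⟨z, hz, rfl⟩ := hp
  rw [mem_closedBall_zero_iff] at hz
  simp only
  rw [F_iter_Psi_zero (by linarith)]
  unfold Psi
  simp only [add_zero]
  have e1 : ‖z - lam ^ m * z‖ ≤ rr * ‖lam ^ m - 1‖ := by
    have : z - lam ^ m * z = -((lam ^ m - 1) * z) := by ring
    rw [this, norm_neg, norm_mul, mul_comm]
    exact mul_le_mul_of_nonneg_right (by linarith) (norm_nonneg _)
  rw [Prod.dist_eq, max_le_iff, dist_eq_norm, dist_eq_norm]
  constructor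
  · refine (u_lip (by linarith) (by rw [norm_mul, norm_lam_pow, one_mul]; linarith)).trans ?_
    nlinarith
  · refine (u_lip (by rw [norm_lam_mul]; linarith)
      (by rw [norm_lam_mul, norm_mul, norm_lam_pow, one_mul]; linarith)).trans ?_
    have e2 : lam * z - lam * (lam ^ m * z) = lam * (z - lam ^ m * z) := by ring
    rw [e2, norm_lam_mul]
    nlinarith

/-- zero entropy on the disc -/
lemma rate_disc (ν : Measure (ℂ × ℂ)) [IsFiniteMeasure ν] (hf : MeasurePreserving F ν ν)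
    (hD : ν Ddᶜ = 0) {α : Type*} [Fintype α] {q : ℂ × ℂ → α} (hq : MQ q) :
    RateLe ν F q 0 := by
  obtain ⟨m, hm1, hm2⟩ := exists_rigid
  refine RateLe.of_rigid hf hq m hm1 ?_
  rw [Metric.tendsto_nhds]
  intro ε hε
  obtain ⟨K, hKc, hKm, δ, hδ, hKδ⟩ := exists_compact_sep ν hq (half_pos hε)
  have h1 : Tendsto (fun j => 11 / 10 * rr * ‖lam ^ m j - 1‖) atTop (𝓝 0) := by
    have := hm2.const_mul (11 / 10 * rr)
    rwa [mul_zero] at this
  filter_upwards [h1.eventually (gt_mem_nhds hδ)] with j hj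
  rw [Real.dist_eq, sub_zero, abs_of_nonneg measureReal_nonneg]
  have hsub : {x | q x ≠ q (F^[m j] x)} ⊆ (Kᶜ ∪ (F^[m j]) ⁻¹' Kᶜ) ∪ Ddᶜ := by
    intro x hx
    by_contra hc
    simp only [Set.mem_union, Set.mem_compl_iff, Set.mem_preimage, not_or, not_not] at hc
    obtain ⟨⟨c1, c2⟩, c3⟩ := hc
    exact hx (hKδ x c1 _ c2 ((Dd_return c3 _).trans_lt hj))
  have hpre : ν.real ((F^[m j]) ⁻¹' Kᶜ) = ν.real Kᶜ :=
    (hf.iterate (m j)).measureReal_preimage hKc.isClosed.measurableSet.compl.nullMeasurableSet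
  have hDr : ν.real Ddᶜ = 0 := by rw [measureReal_def, hD]; rfl
  calc ν.real {x | q x ≠ q (F^[m j] x)} ≤ ν.real ((Kᶜ ∪ (F^[m j]) ⁻¹' Kᶜ) ∪ Ddᶜ) := measureReal_mono hsub
    _ ≤ ν.real (Kᶜ ∪ (F^[m j]) ⁻¹' Kᶜ) + ν.real Ddᶜ := measureReal_union_le _ _
    _ ≤ (ν.real Kᶜ + ν.real ((F^[m j]) ⁻¹' Kᶜ)) + ν.real Ddᶜ :=
        add_le_add (measureReal_union_le _ _) le_rfl
    _ < ε := by rw [hpre, hDr]; linarith

/-- entropy is bounded by the mass outside the trapped region -/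
theorem rate_total (ν : Measure (ℂ × ℂ)) [IsFiniteMeasure ν] (hf : MeasurePreserving F ν ν)
    {α : Type*} [Fintype α] {q : ℂ × ℂ → α} (hq : MQ q) :
    RateLe ν F q (ν.real Omᶜ * Real.log (43 ^ 2)) := by
  have hDm : MeasurableSet Dd := isCompact_Dd.isClosed.measurableSet
  have e : ν = ν.restrict Dd + ν.restrict Ddᶜ := (Measure.restrict_add_restrict_compl hDm).symm
  have hf1 : MeasurePreserving F (ν.restrict Dd) (ν.restrict Dd) := by
    have := hf.restrict_preimage hDm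
    rwa [F_preimage_Dd] at this
  have hf2 : MeasurePreserving F (ν.restrict Ddᶜ) (ν.restrict Ddᶜ) := by
    have := hf.restrict_preimage hDm.compl
    rwa [Set.preimage_compl, F_preimage_Dd] at this
  have h1 := rate_disc (ν.restrict Dd) hf1 (by
    rw [Measure.restrict_apply hDm.compl]; simp) hq
  have h2 := rate_le_log (ν.restrict Ddᶜ) hf2 hq
  have h3 := h1.add_measure h2
  rw [← e, zero_add] at h3
  have hmass : (ν.restrict Ddᶜ).real Set.univ = ν.real Omᶜ := by
    rw [measureReal_def, measureReal_def, Measure.restrict_apply_univ]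
    congr 1
    refine le_antisymm ?_ (measure_mono (Set.compl_subset_compl.2 Dd_subset_Om))
    have hsub : Ddᶜ ⊆ Omᶜ ∪ (Om \ Dd) := by
      intro x hx
      by_cases hO : x ∈ Om
      · right; exact ⟨hO, hx⟩
      · left; exact hO
    refine (measure_mono hsub).trans ((measure_union_le _ _).trans ?_)
    rw [null_Om_diff hf, add_zero]
  rwa [hmass] at h3

end Pool.Agent.Work.MP_9ac7bc_an
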