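import Mathlib
import Pool.Agent.Work.MP_9ac7bc_an.Disc
import Pool.Agent.Work.MP_9ac7bc_an.Defs

set_option autoImplicit false

open MeasureTheory Filter Topology Metric

namespace Pool.Agent.Work.MP_9ac7bc_an

/-- the circle `ℝ/ℤ` -/
abbrev T1 : Type := AddCircle (1 : ℝ)

/-- rotation number -/
noncomputable def al : T1 := ((Real.sqrt 2 : ℝ) : T1)

/-- the character `θ ↦ exp(2πiθ)` -/
noncomputable def ec (θ : T1) : ℂ := (AddCircle.toCircle θ : ℂ)

lemma continuous_ec : Continuous ec :=
  continuous_subtype_val.comp AddCircle.continuous_toCircle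

lemma norm_ec (θ : T1) : ‖ec θ‖ = 1 := Circle.norm_coe _

lemma ec_add (θ θ' : T1) : ec (θ + θ') = ec θ * ec θ' := by
  unfold ec
  rw [AddCircle.toCircle_add, Circle.coe_mul]

lemma ec_al : ec al = lam := by
  unfold ec al lam
  rw [AddCircle.toCircle_apply_mk, Circle.coe_exp]
  congr 1
  push_cast
  ring

lemma ec_inj {θ θ' : T1} (h : ec θ = ec θ') : θ = θ' :=
  AddCircle.injective_toCircle one_ne_zero (Subtype.ext h)

lemma ec_nsmul (n : ℕ) (θ : T1) : ec (n • θ) = ec θ ^ n := by
  induction n with
  | zero =>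
    rw [zero_smul, pow_zero]
    unfold ec
    rw [AddCircle.toCircle_zero]; simp
  | succ n ih => rw [succ_nsmul, ec_add, ih, pow_succ]

/-- embedding of the circle -/
noncomputable def E (θ : T1) : ℂ × ℂ := Psi ((rr / 8 : ℝ) * ec θ) 0

lemma norm_E_arg (θ : T1) : ‖((rr / 8 : ℝ) : ℂ) * ec θ‖ = rr / 8 := by
  have hr := rr_pos
  rw [norm_mul, norm_ec, mul_one, Complex.norm_real, Real.norm_eq_abs, abs_of_pos (by linarith)]

lemma continuous_E : Continuous E := by
  have hr := rr_pos
  have h := continuousOn_Psi.comp_continuous (f := fun θ : T1 => (((rr / 8 : ℝ) : ℂ) * ec θ, (0 : ℂ)))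
    (by have := continuous_ec; fun_prop) (fun θ => by
      show ‖((rr / 8 : ℝ) : ℂ) * ec θ‖ ≤ rr
      rw [norm_E_arg]; linarith)
  exact h

lemma E_inj {θ θ' : T1} (h : E θ = E θ') : θ = θ' := by
  have hr := rr_pos
  have h1 := (Psi_inj (by rw [norm_E_arg]; linarith) (by rw [norm_E_arg]; linarith) h).1
  have h2 : ((rr / 8 : ℝ) : ℂ) ≠ 0 := by
    simp only [ne_eq, Complex.ofReal_eq_zero]; linarith
  exact ec_inj (mul_left_cancel₀ h2 h1)

lemma F_E (θ : T1) : F (E θ) = E (θ + al) := by
  have hr := rr_pos
  unfold E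
  rw [F_Psi_zero (by rw [norm_E_arg]; linarith), ec_add, ec_al]
  congr 1
  ring

lemma F_iter_E (n : ℕ) (θ : T1) : F^[n] (E θ) = E (θ + n • al) := by
  induction n with
  | zero => simp
  | succ n ih => rw [Function.iterate_succ_apply', ih, F_E, add_assoc, succ_nsmul]

/-- Haar probability measure on the circle -/
noncomputable abbrev hm : Measure T1 := AddCircle.haarAddCircle

/-- the invariant circle -/
def Lam : Set (ℂ × ℂ) := Set.range E

lemma isCompact_Lam : IsCompact Lam := isCompact_range continuous_E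

lemma Lam_nonempty : Lam.Nonempty := ⟨E 0, 0, rfl⟩

lemma isClosedEmbedding_E : IsClosedEmbedding E :=
  continuous_E.isClosedEmbedding fun _ _ h => E_inj h

lemma measurableEmbedding_E : MeasurableEmbedding E := isClosedEmbedding_E.measurableEmbedding

/-- the equilibrium state -/
noncomputable def mu0 : Measure (ℂ × ℂ) := hm.map E

instance : IsProbabilityMeasure mu0 :=
  Measure.isProbabilityMeasure_map continuous_E.measurable.aemeasurable

lemma measurePreserving_rot : MeasurePreserving (fun θ : T1 => θ + al) hm hm :=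
  measurePreserving_add_right hm al

lemma measurePreserving_mu0 : MeasurePreserving F mu0 mu0 := by
  refine ⟨measurable_F, ?_⟩
  unfold mu0
  rw [Measure.map_map measurable_F continuous_E.measurable]
  have : F ∘ E = E ∘ (fun θ : T1 => θ + al) := funext F_E
  rw [this, ← Measure.map_map continuous_E.measurable (measurable_add_const al),
    measurePreserving_rot.map_eq]

lemma isInvProb_mu0 : IsInvProb F mu0 := ⟨inferInstance, measurePreserving_mu0⟩

/-- unique ergodicity of the irrational rotation -/
lemma unique_rot (ν : Measure T1) [IsProbabilityMeasure ν]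
    (h : MeasurePreserving (fun θ : T1 => θ + al) ν ν) : ν = hm := by
  -- invariance under integer multiples
  have hint : ∀ (f : BoundedContinuousFunction T1 ℝ) (g : T1),
      ∫ θ, f (θ + g) ∂ν = ∫ θ, f θ ∂ν := by
    intro f
    have hcont : Continuous (fun g : T1 => ∫ θ, f (θ + g) ∂ν) := by
      refine continuous_of_dominated (bound := fun _ => ‖f‖) ?_ ?_ ?_ ?_
      · intro g
        exact (f.continuous.comp (continuous_add_right g)).aestronglyMeasurable
      · intro g
        exact Eventually.of_forall fun θ => f.norm_coe_le_norm _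
      · exact integrable_const _
      · exact Eventually.of_forall fun θ => f.continuous.comp (continuous_const.add continuous_id)
    have hone : ∀ g : T1, ∫ θ, f (θ + (al + g)) ∂ν = ∫ θ, f (θ + g) ∂ν := by
      intro g
      have h1 := h.integral_comp (Homeomorph.addRight al).measurableEmbedding (fun θ => f (θ + g))
      rw [← h1]
      refine integral_congr_ae (Eventually.of_forall fun θ => ?_)
      simp only
      rw [add_assoc]
    have hz : ∀ n : ℤ, ∫ θ, f (θ + n • al) ∂ν = ∫ θ, f θ ∂ν := by
      intro n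
      induction n using Int.induction_on with
      | zero => simp
      | succ n ih =>
        rw [← ih, ← hone ((n : ℤ) • al)]
        congr 1
        funext θ
        rw [add_smul, one_smul, add_comm al]
      | pred n ih =>
        rw [← ih, ← hone ((-(n : ℤ) - 1) • al)]
        congr 1
        funext θ
        congr 2
        rw [sub_smul, one_smul]; abel
    have hdense : DenseRange (fun n : ℤ => n • al) := by
      have := (AddCircle.denseRange_zsmul_coe_iff (a := Real.sqrt 2) (p := 1)).2
        (by rw [div_one]; exact irrational_sqrt_two)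
      exact this
    have heq : (fun g : T1 => ∫ θ, f (θ + g) ∂ν) = fun _ => ∫ θ, f θ ∂ν := by
      refine hdense.equalizer hcont continuous_const ?_
      funext n
      exact hz n
    intro g
    exact congrFun heq g
  have hinv : ν.IsAddLeftInvariant := by
    refine ⟨fun g => ?_⟩
    have hp : IsProbabilityMeasure (ν.map (fun x => g + x)) :=
      Measure.isProbabilityMeasure_map (measurable_const_add g).aemeasurable
    refine ext_of_forall_integral_eq_of_IsFiniteMeasure fun f => ?_
    rw [integral_map (measurable_const_add g).aemeasurable f.continuous.aestronglyMeasurable]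
    rw [← hint f g]
    refine integral_congr_ae (Eventually.of_forall fun θ => ?_)
    simp only
    rw [add_comm]
  have := Measure.isAddInvariant_eq_smul_of_compactSpace ν hm
  have h1 : ν Set.univ = 1 := measure_univ
  rw [this] at h1
  simp only [Measure.smul_apply, measure_univ, smul_eq_mul, ENNReal.smul_def, mul_one] at h1
  rw [this, ENNReal.smul_def, h1, one_smul]

/-- invariant probability measures carried by the circle -/
lemma unique_on_circle (ν : Measure (ℂ × ℂ)) (hν : IsInvProb F ν) (h : ν Lamᶜ = 0) : ν = mu0 := by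
  have := hν.1
  have hmap : (ν.comap E).map E = ν := by
    rw [measurableEmbedding_E.map_comap]
    refine Measure.restrict_eq_self_of_ae_mem ?_
    rw [ae_iff]
    exact h
  have hprob : IsProbabilityMeasure (ν.comap E) := by
    refine ⟨?_⟩
    have h1 : ((ν.comap E).map E) Set.univ = 1 := by rw [hmap]; exact measure_univ
    rwa [Measure.map_apply continuous_E.measurable MeasurableSet.univ, Set.preimage_univ] at h1
  have hmp : MeasurePreserving (fun θ : T1 => θ + al) (ν.comap E) (ν.comap E) := by
    refine ⟨measurable_add_const al, ?_⟩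
    have h1 : (((ν.comap E).map (fun θ : T1 => θ + al))).map E = (ν.comap E).map E := by
      rw [Measure.map_map continuous_E.measurable (measurable_add_const al)]
      have h2 : E ∘ (fun θ : T1 => θ + al) = F ∘ E := (funext F_E).symm
      rw [h2, ← Measure.map_map measurable_F continuous_E.measurable, hmap]
      exact hν.2.map_eq
    have h3 := congrArg (Measure.comap E) h1
    rwa [measurableEmbedding_E.comap_map, measurableEmbedding_E.comap_map] at h3
  have h4 := unique_rot (ν.comap E) hmp
  rw [← hmap, h4]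
  rfl

/-! ### the weight -/

/-- entropy bound -/
noncomputable def MM : ℝ := Real.log (43 ^ 2)

lemma MM_nonneg : 0 ≤ MM := Real.log_nonneg (by norm_num)

/-- depth of the weight outside the trapped region -/
noncomputable def KK : ℝ := MM + 1

lemma KK_pos : 0 < KK := by have := MM_nonneg; unfold KK; linarith

/-- the weight -/
noncomputable def wgt (p : ℂ × ℂ) : ℝ := -min KK (KK / (rr / 40) * infDist p Lam)

lemma wgt_nonpos (p : ℂ × ℂ) : wgt p ≤ 0 := by
  have hr := rr_pos
  have hK := KK_pos
  unfold wgt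
  have : 0 ≤ min KK (KK / (rr / 40) * infDist p Lam) :=
    le_min hK.le (mul_nonneg (by positivity) infDist_nonneg)
  linarith

lemma wgt_ge (p : ℂ × ℂ) : -KK ≤ wgt p := by
  unfold wgt
  have := min_le_left KK (KK / (rr / 40) * infDist p Lam)
  linarith

lemma continuous_wgt : Continuous wgt := by
  unfold wgt
  have := continuous_infDist_pt Lam
  fun_prop

lemma wgt_outside {p : ℂ × ℂ} (hp : p ∉ Om) : wgt p = -KK := by
  have hr := rr_pos
  have hK := KK_pos
  have hd : rr / 40 ≤ infDist p Lam := by
    by_contra hlt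
    push Not at hlt
    obtain ⟨_, ⟨θ, rfl⟩, hθ⟩ := (infDist_lt_iff Lam_nonempty).1 hlt
    exact hp (near_circle (norm_E_arg θ) hθ.le)
  unfold wgt
  rw [min_eq_left]
  calc KK = KK / (rr / 40) * (rr / 40) := by field_simp
    _ ≤ KK / (rr / 40) * infDist p Lam := mul_le_mul_of_nonneg_left hd (by positivity)

lemma wgt_eq_zero_iff {p : ℂ × ℂ} : wgt p = 0 ↔ p ∈ Lam := by
  have hr := rr_pos
  have hK := KK_pos
  rw [isCompact_Lam.isClosed.mem_iff_infDist_zero Lam_nonempty]
  unfold wgt
  constructor
  · intro h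
    have h1 : min KK (KK / (rr / 40) * infDist p Lam) = 0 := by linarith
    rcases min_choice KK (KK / (rr / 40) * infDist p Lam) with h2 | h2
    · rw [h2] at h1; linarith
    · rw [h2] at h1
      rcases mul_eq_zero.1 h1 with h3 | h3
      · have : 0 < KK / (rr / 40) := by positivity
        linarith
      · exact h3
  · intro h
    rw [h, mul_zero, min_eq_right hK.le, neg_zero]

lemma isHolder_wgt : IsHolder wgt := by
  have hr := rr_pos
  have hK := KK_pos
  refine ⟨KK / (rr / 40), 1, one_pos, le_rfl, fun p p' => ?_⟩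
  rw [Real.rpow_one]
  unfold wgt
  have h1 : |min KK (KK / (rr / 40) * infDist p Lam) - min KK (KK / (rr / 40) * infDist p' Lam)| ≤
      |KK / (rr / 40) * infDist p Lam - KK / (rr / 40) * infDist p' Lam| := by
    refine (abs_min_sub_min_le_max _ _ _ _).trans ?_
    rw [sub_self, abs_zero]
    exact max_le (abs_nonneg _) le_rfl
  have h2 : |infDist p Lam - infDist p' Lam| ≤ dist p p' := by
    have := (lipschitz_infDist_pt Lam).dist_le_mul p p'
    rw [Real.dist_eq] at this
    simpa using this
  calc |(-min KK (KK / (rr / 40) * infDist p Lam)) - (-min KK (KK / (rr / 40) * infDist p' Lam))|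
      = |min KK (KK / (rr / 40) * infDist p Lam) - min KK (KK / (rr / 40) * infDist p' Lam)| := by
        rw [← abs_neg]; congr 1; ring
    _ ≤ _ := h1
    _ = KK / (rr / 40) * |infDist p Lam - infDist p' Lam| := by
        rw [← mul_sub, abs_mul, abs_of_pos (by positivity)]
    _ ≤ _ := mul_le_mul_of_nonneg_left h2 (by positivity)

lemma MQ_of_measurable {k : ℕ} {q : ℂ × ℂ → Fin k} (hq : Measurable q) : MQ q :=
  fun a => hq (measurableSet_singleton a)

lemma ksEntropy_le (ν : Measure (ℂ × ℂ)) (hν : IsInvProb F ν) :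
    ksEntropy F ν ≤ ((ν.real Omᶜ * MM : ℝ) : EReal) := by
  have := hν.1
  unfold ksEntropy
  refine iSup_le fun k => iSup_le fun q => iSup_le fun hq => ?_
  exact (rate_total ν hν.2 (MQ_of_measurable hq)).partEntropy_le

lemma ksEntropy_nonneg {X : Type*} [MeasurableSpace X] (f : X → X) (ν : Measure X)
    [IsProbabilityMeasure ν] : 0 ≤ ksEntropy f ν := by
  unfold ksEntropy
  have h1 : (0 : EReal) ≤ partEntropy ν f (fun _ : X => (0 : Fin 1)) := by
    unfold partEntropy
    have : ∀ n, Hent ν (itin f (fun _ : X => (0 : Fin 1)) n) = 0 := by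
      intro n
      unfold Hent
      refine Finset.sum_eq_zero fun a _ => ?_
      have : itin f (fun _ : X => (0 : Fin 1)) n ⁻¹' {a} = Set.univ := by
        ext x
        simp only [Set.mem_preimage, Set.mem_singleton_iff, Set.mem_univ, iff_true]
        exact Subsingleton.elim _ _
      rw [this]
      simp
    simp [this]
  refine h1.trans ?_
  refine le_iSup_of_le 1 (le_iSup_of_le (fun _ : X => (0 : Fin 1)) (le_iSup_of_le measurable_const ?_))
  exact le_rfl

lemma integrable_wgt (ν : Measure (ℂ × ℂ)) [IsFiniteMeasure ν] : Integrable wgt ν := by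
  refine Integrable.of_bound continuous_wgt.aestronglyMeasurable KK (Eventually.of_forall fun p => ?_)
  rw [Real.norm_eq_abs, abs_le]
  exact ⟨wgt_ge p, (wgt_nonpos p).trans KK_pos.le⟩

/-- free energy is nonpositive, and zero only for `mu0` -/
lemma freeEnergy_le (ν : Measure (ℂ × ℂ)) (hν : IsInvProb F ν) :
    freeEnergy F wgt ν ≤ ((-ν.real Omᶜ + ∫ p in Om, wgt p ∂ν : ℝ) : EReal) := by
  have := hν.1
  unfold freeEnergy
  have hOm : MeasurableSet Om := isCompact_Om.isClosed.measurableSet
  have h1 : ∫ p, wgt p ∂ν = (∫ p in Om, wgt p ∂ν) + (-KK) * ν.real Omᶜ := by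
    rw [← integral_add_compl hOm (integrable_wgt ν)]
    congr 1
    rw [setIntegral_congr_fun hOm.compl (g := fun _ => -KK) (fun p hp => wgt_outside hp)]
    rw [setIntegral_const, smul_eq_mul, mul_comm]
  have h2 := ksEntropy_le ν hν
  calc ksEntropy F ν + ((∫ p, wgt p ∂ν : ℝ) : EReal)
      ≤ ((ν.real Omᶜ * MM : ℝ) : EReal) + ((∫ p, wgt p ∂ν : ℝ) : EReal) := by gcongr
    _ = ((ν.real Omᶜ * MM + ∫ p, wgt p ∂ν : ℝ) : EReal) := by rw [← EReal.coe_add]
    _ = _ := by
        congr 1
        rw [h1]
        unfold KK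
        ring

lemma freeEnergy_nonpos (ν : Measure (ℂ × ℂ)) (hν : IsInvProb F ν) : freeEnergy F wgt ν ≤ 0 := by
  have := hν.1
  refine (freeEnergy_le ν hν).trans ?_
  have h1 : ∫ p in Om, wgt p ∂ν ≤ 0 := integral_nonpos fun p => wgt_nonpos p
  have h2 : 0 ≤ ν.real Omᶜ := measureReal_nonneg
  have : (-ν.real Omᶜ + ∫ p in Om, wgt p ∂ν : ℝ) ≤ 0 := by linarith
  exact_mod_cast this

lemma eq_mu0_of_zero (ν : Measure (ℂ × ℂ)) (hν : IsInvProb F ν) (h : freeEnergy F wgt ν = 0) :
    ν = mu0 := by
  have := hν.1
  have h0 := freeEnergy_le ν hν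
  rw [h] at h0
  have h1 : ∫ p in Om, wgt p ∂ν ≤ 0 := integral_nonpos fun p => wgt_nonpos p
  have h2 : 0 ≤ ν.real Omᶜ := measureReal_nonneg
  have h3 : (0 : ℝ) ≤ -ν.real Omᶜ + ∫ p in Om, wgt p ∂ν := by exact_mod_cast h0
  have h4 : ν.real Omᶜ = 0 := by linarith
  have h5 : ∫ p in Om, wgt p ∂ν = 0 := by linarith
  have h6 : ν Omᶜ = 0 := by
    rw [measureReal_def, ENNReal.toReal_eq_zero_iff] at h4
    exact h4.resolve_right (measure_ne_top _ _)
  have h7 : (fun p => -wgt p) =ᵐ[ν.restrict Om] 0 := by
    rw [← integral_eq_zero_iff_of_nonneg (fun p => neg_nonneg.2 (wgt_nonpos p))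
      (integrable_wgt _).neg]
    rw [integral_neg, h5, neg_zero]
  have hOm : MeasurableSet Om := isCompact_Om.isClosed.measurableSet
  refine unique_on_circle ν hν ?_
  have h8 : ∀ᵐ p ∂ν, p ∈ Lam := by
    rw [Filter.EventuallyEq, ae_restrict_iff' hOm] at h7
    have h9 : ∀ᵐ p ∂ν, p ∈ Om := by rw [ae_iff]; exact h6
    filter_upwards [h7, h9] with p hp hpO
    have := hp hpO
    simp only [Pi.zero_apply, neg_eq_zero] at this
    exact wgt_eq_zero_iff.1 this
  rw [ae_iff] at h8
  exact h8

lemma freeEnergy_mu0 : freeEnergy F wgt mu0 = 0 := by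
  refine le_antisymm (freeEnergy_nonpos _ isInvProb_mu0) ?_
  unfold freeEnergy
  have h1 : ∫ p, wgt p ∂mu0 = 0 := by
    unfold mu0
    rw [integral_map continuous_E.measurable.aemeasurable continuous_wgt.aestronglyMeasurable]
    have : ∀ θ, wgt (E θ) = 0 := fun θ => wgt_eq_zero_iff.2 ⟨θ, rfl⟩
    simp [this]
  rw [h1]
  simpa using ksEntropy_nonneg F mu0

theorem isUniqueEquilibrium_mu0 : IsUniqueEquilibrium F wgt mu0 := by
  have hP : pressure F wgt = 0 := by
    unfold pressure
    refine le_antisymm (iSup_le fun ν => iSup_le fun hν => freeEnergy_nonpos ν hν) ?_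
    refine le_iSup_of_le mu0 (le_iSup_of_le isInvProb_mu0 ?_)
    exact freeEnergy_mu0.ge
  refine ⟨⟨isInvProb_mu0, by rw [hP, freeEnergy_mu0]⟩, fun μ' hμ' => ?_⟩
  exact eq_mu0_of_zero μ' hμ'.1 (by rw [hμ'.2, hP])

theorem isHenon_F : IsHenon F := by
  have h := IsHenon.single (Polynomial.C (lam + 1 / 2) * Polynomial.X + Polynomial.X ^ 2) (lam / 2)
    (by
      have : (Polynomial.C (lam + 1 / 2) * Polynomial.X + Polynomial.X ^ 2 : Polynomial ℂ).natDegree = 2 := by
        compute_degree!
      rw [this]) (div_ne_zero lam_ne_zero two_ne_zero)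
  have e : henonStep (Polynomial.C (lam + 1 / 2) * Polynomial.X + Polynomial.X ^ 2) (lam / 2) = F := by
    funext p
    unfold henonStep F
    simp
  rwa [e] at h

end Pool.Agent.Work.MP_9ac7bc_an
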