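import Mathlib
import Pool.Agent.Work.MP_9ac7bc_an.Circle

set_option autoImplicit false

open MeasureTheory Filter Topology Metric

namespace Pool.Agent.Work.MP_9ac7bc_an

lemma norm_pow_sub_pow_le' (a b : ℂ) (ha : ‖a‖ = 1) (hb : ‖b‖ = 1) (q : ℕ) :
    ‖a ^ q - b ^ q‖ ≤ q * ‖a - b‖ := by
  induction q with
  | zero => simp
  | succ q ih =>
    have e : a ^ (q + 1) - b ^ (q + 1) = a * (a ^ q - b ^ q) + (a - b) * b ^ q := by ring
    rw [e]
    refine (norm_add_le _ _).trans ?_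
    rw [norm_mul, norm_mul, ha, one_mul, norm_pow, hb, one_pow, mul_one]
    push_cast
    linarith

lemma ec_sub_le (θ θ' : T1) : ‖ec θ - ec θ'‖ ≤ 9 / rr * dist (E θ) (E θ') := by
  have hr := rr_pos
  have h1 := u_anti (z := ((rr / 8 : ℝ) : ℂ) * ec θ) (z' := ((rr / 8 : ℝ) : ℂ) * ec θ')
    (by rw [norm_E_arg]; linarith) (by rw [norm_E_arg]; linarith)
  have h2 : ‖((rr / 8 : ℝ) : ℂ) * ec θ - ((rr / 8 : ℝ) : ℂ) * ec θ'‖ = rr / 8 * ‖ec θ - ec θ'‖ := by
    rw [← mul_sub, norm_mul, Complex.norm_real, Real.norm_eq_abs, abs_of_pos (by linarith)]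
  have h3 : ‖u (((rr / 8 : ℝ) : ℂ) * ec θ) - u (((rr / 8 : ℝ) : ℂ) * ec θ')‖ ≤ dist (E θ) (E θ') := by
    unfold E Psi
    rw [Prod.dist_eq, dist_eq_norm]
    exact le_max_left _ _
  rw [h2] at h1
  have h4 := h1.trans h3
  have h5 : ‖ec θ - ec θ'‖ * rr ≤ 9 * dist (E θ) (E θ') := by
    have := dist_nonneg (x := E θ) (y := E θ')
    nlinarith
  rw [div_mul_eq_mul_div, le_div_iff₀ hr]
  exact h5

/-- extension of the characters to `ℂ²` -/
lemma exists_cq (q : ℕ) : ∃ c : ℂ × ℂ → ℝ, (∀ p, |c p| ≤ 1) ∧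
    (∀ p p', |c p - c p'| ≤ 9 / rr * q * dist p p') ∧ ∀ θ, c (E θ) = (ec θ ^ q).re := by
  have hr := rr_pos
  let f : ℂ × ℂ → ℝ := fun p => (ec (Function.invFun E p) ^ q).re
  have hfE : ∀ θ, f (E θ) = (ec θ ^ q).re := by
    intro θ
    simp only [f]
    rw [Function.leftInverse_invFun (fun _ _ h => E_inj h) θ]
  have hK : 0 ≤ 9 / rr * (q : ℝ) := by positivity
  have hlip : LipschitzOnWith (Real.toNNReal (9 / rr * q)) f Lam := by
    refine LipschitzOnWith.of_dist_le_mul ?_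
    rintro _ ⟨θ, rfl⟩ _ ⟨θ', rfl⟩
    rw [hfE, hfE, Real.coe_toNNReal _ hK, Real.dist_eq, ← Complex.sub_re]
    refine (Complex.abs_re_le_norm _).trans ?_
    refine (norm_pow_sub_pow_le' _ _ (norm_ec _) (norm_ec _) q).trans ?_
    have := mul_le_mul_of_nonneg_left (ec_sub_le θ θ') (Nat.cast_nonneg q)
    calc (q : ℝ) * ‖ec θ - ec θ'‖ ≤ q * (9 / rr * dist (E θ) (E θ')) := this
      _ = _ := by ring
  obtain ⟨g, hg1, hg2⟩ := hlip.extend_real
  refine ⟨fun p => max (-1) (min 1 (g p)), fun p => ?_, fun p p' => ?_, fun θ => ?_⟩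
  · rw [abs_le]
    exact ⟨le_max_left _ _, max_le (by norm_num) (min_le_left _ _)⟩
  · have h1 : |max (-1) (min 1 (g p)) - max (-1) (min 1 (g p'))| ≤ |min 1 (g p) - min 1 (g p')| := by
      refine (abs_max_sub_max_le_max _ _ _ _).trans ?_
      rw [sub_self, abs_zero]; exact max_le (abs_nonneg _) le_rfl
    have h2 : |min 1 (g p) - min 1 (g p')| ≤ |g p - g p'| := by
      refine (abs_min_sub_min_le_max _ _ _ _).trans ?_
      rw [sub_self, abs_zero]; exact max_le (abs_nonneg _) le_rfl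
    have h3 := hg1.dist_le_mul p p'
    rw [Real.dist_eq, Real.coe_toNNReal _ hK] at h3
    exact h1.trans (h2.trans h3)
  · have h1 : g (E θ) = (ec θ ^ q).re := by rw [← hg2 ⟨θ, rfl⟩, hfE]
    simp only
    rw [h1]
    have h2 : |(ec θ ^ q).re| ≤ 1 := by
      refine (Complex.abs_re_le_norm _).trans ?_
      rw [norm_pow, norm_ec, one_pow]
    have h3 := abs_le.1 h2
    rw [min_eq_right h3.2, max_eq_right h3.1]

/-- the extended character -/
noncomputable def cq (q : ℕ) : ℂ × ℂ → ℝ := (exists_cq q).choose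

lemma abs_cq_le (q : ℕ) (p : ℂ × ℂ) : |cq q p| ≤ 1 := (exists_cq q).choose_spec.1 p

lemma cq_lip (q : ℕ) (p p' : ℂ × ℂ) : |cq q p - cq q p'| ≤ 9 / rr * q * dist p p' :=
  (exists_cq q).choose_spec.2.1 p p'

lemma cq_E (q : ℕ) (θ : T1) : cq q (E θ) = (ec θ ^ q).re := (exists_cq q).choose_spec.2.2 θ

lemma continuous_cq (q : ℕ) : Continuous (cq q) := by
  have hr := rr_pos
  refine (LipschitzWith.of_dist_le_mul (K := Real.toNNReal (9 / rr * q)) fun p p' => ?_).continuous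
  rw [Real.dist_eq, Real.coe_toNNReal _ (by positivity)]
  exact cq_lip q p p'

/-- coefficients -/
noncomputable def aj (j q : ℕ) : ℝ := (1 / 2) ^ j * (q : ℝ) ^ (-(1 / 4) : ℝ)

lemma aj_nonneg (j q : ℕ) : 0 ≤ aj j q := by
  unfold aj
  exact mul_nonneg (by positivity) (Real.rpow_nonneg (Nat.cast_nonneg q) _)

lemma aj_le (j q : ℕ) (hq : 1 ≤ q) : aj j q ≤ (1 / 2) ^ j := by
  unfold aj
  have h1 : (q : ℝ) ^ (-(1 / 4) : ℝ) ≤ 1 :=
    Real.rpow_le_one_of_one_le_of_nonpos (by exact_mod_cast hq) (by norm_num)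
  have h2 : (0 : ℝ) ≤ (1 / 2) ^ j := by positivity
  nlinarith

lemma exists_good_large (N : ℕ) : ∃ k : ℕ, N ≤ k ∧ 1 ≤ k ∧ ‖lam ^ k - 1‖ ≤ 2 * Real.pi / k := by
  have hpi := Real.pi_pos
  obtain ⟨n, hn⟩ := exists_nat_ge (N * (2 * Real.pi))
  obtain ⟨k, h1, h2, h3⟩ := exists_good (n + 1) (by omega)
  have hk : (0 : ℝ) < k := by exact_mod_cast h1
  refine ⟨k, ?_, h1, ?_⟩
  · have h4 := small_div k h1
    have h5 : (1 : ℝ) ≤ k * (2 * Real.pi / (((n + 1 : ℕ) : ℝ) + 1)) :=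
      h4.trans (mul_le_mul_of_nonneg_left h3 hk.le)
    rw [mul_div_assoc', le_div_iff₀ (by positivity)] at h5
    push_cast at h5
    have h6 : (N : ℝ) * (2 * Real.pi) ≤ k * (2 * Real.pi) := by linarith
    have h7 : (N : ℝ) ≤ k := le_of_mul_le_mul_right h6 (by positivity)
    exact_mod_cast h7
  · refine h3.trans ?_
    have h8 : (k : ℝ) ≤ ((n + 1 : ℕ) : ℝ) + 1 := by
      have : (k : ℝ) ≤ ((n + 1 : ℕ) : ℝ) := by exact_mod_cast h2
      linarith
    gcongr

lemma exists_next (j q : ℕ) : ∃ q' : ℕ, 4096 * q ≤ q' ∧ 128 ≤ q' ∧ ‖lam ^ q' - 1‖ ≤ 2 * Real.pi / q' ∧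
    4 * (q : ℝ) + j ≤ aj j q' * Real.sqrt ((q' / 64 : ℕ) : ℝ) / 8 := by
  have ht : Tendsto (fun k : ℕ => (1 / 2 : ℝ) ^ j * (k : ℝ) ^ (1 / 4 : ℝ) / 96) atTop atTop := by
    have h1 : Tendsto (fun k : ℕ => (k : ℝ) ^ (1 / 4 : ℝ)) atTop atTop :=
      (tendsto_rpow_atTop (by norm_num)).comp tendsto_natCast_atTop_atTop
    have h2 := h1.const_mul_atTop (by positivity : (0 : ℝ) < (1 / 2) ^ j)
    exact h2.atTop_div_const (by norm_num)
  obtain ⟨N, hN⟩ := eventually_atTop.1 (ht.eventually_ge_atTop (4 * (q : ℝ) + j))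
  obtain ⟨k, hk1, hk2, hk3⟩ := exists_good_large (max N (max (4096 * q) 128))
  refine ⟨k, ?_, ?_, hk3, ?_⟩
  · exact (le_max_left _ _).trans ((le_max_right _ _).trans hk1)
  · exact (le_max_right _ _).trans ((le_max_right _ _).trans hk1)
  · have hk128 : 128 ≤ k := (le_max_right _ _).trans ((le_max_right _ _).trans hk1)
    refine (hN k ((le_max_left _ _).trans hk1)).trans ?_
    have hkpos : (0 : ℝ) < k := by have : 0 < k := by omega
                                   exact_mod_cast this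
    have h1 : (k : ℝ) / 128 ≤ ((k / 64 : ℕ) : ℝ) := by
      have h2 : k ≤ 128 * (k / 64) := by omega
      have h3 : (k : ℝ) ≤ 128 * ((k / 64 : ℕ) : ℝ) := by exact_mod_cast h2
      linarith
    have h4 : Real.sqrt k / 12 ≤ Real.sqrt ((k / 64 : ℕ) : ℝ) := by
      have : Real.sqrt k / 12 = Real.sqrt (k / 144) := by
        rw [Real.sqrt_div' _ (by norm_num)]
        have : Real.sqrt 144 = 12 := by
          rw [show (144 : ℝ) = 12 ^ 2 by norm_num]; exact Real.sqrt_sq (by norm_num)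
        rw [this]
      rw [this]
      refine Real.sqrt_le_sqrt (le_trans ?_ h1)
      have : (0 : ℝ) < k := hkpos
      rw [div_le_div_iff₀ (by norm_num) (by norm_num)]
      nlinarith
    have h5 : (k : ℝ) ^ (1 / 4 : ℝ) = (k : ℝ) ^ (-(1 / 4) : ℝ) * Real.sqrt k := by
      rw [Real.sqrt_eq_rpow, ← Real.rpow_add hkpos]; norm_num
    rw [h5]
    unfold aj
    have h6 : 0 ≤ (1 / 2 : ℝ) ^ j * (k : ℝ) ^ (-(1 / 4) : ℝ) :=
      mul_nonneg (by positivity) (Real.rpow_nonneg hkpos.le _)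
    have h7 := mul_le_mul_of_nonneg_left h4 h6
    linarith

/-- the sparse sequence of frequencies -/
noncomputable def qs : ℕ → ℕ
  | 0 => 1
  | j + 1 => (exists_next (j + 1) (qs j)).choose

lemma qs_succ_spec (j : ℕ) : 4096 * qs j ≤ qs (j + 1) ∧ 128 ≤ qs (j + 1) ∧
    ‖lam ^ qs (j + 1) - 1‖ ≤ 2 * Real.pi / qs (j + 1) ∧
    4 * (qs j : ℝ) + ((j + 1 : ℕ) : ℝ) ≤ aj (j + 1) (qs (j + 1)) *
      Real.sqrt ((qs (j + 1) / 64 : ℕ) : ℝ) / 8 := by
  have := (exists_next (j + 1) (qs j)).choose_spec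
  rw [show qs (j + 1) = (exists_next (j + 1) (qs j)).choose from rfl]
  exact this

lemma qs_pos (j : ℕ) : 1 ≤ qs j := by
  cases j with
  | zero => exact le_rfl
  | succ j => have := (qs_succ_spec j).2.1; omega

lemma qs_mono : Monotone qs := by
  refine monotone_nat_of_le_succ fun j => ?_
  have := (qs_succ_spec j).1
  omega

/-- coefficients of the observable -/
noncomputable def co (j : ℕ) : ℝ := aj j (qs j)

lemma co_nonneg (j : ℕ) : 0 ≤ co j := aj_nonneg _ _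

lemma co_le (j : ℕ) : co j ≤ (1 / 2) ^ j := aj_le _ _ (qs_pos j)

lemma summable_half : Summable (fun j : ℕ => (1 / 2 : ℝ) ^ j) :=
  summable_geometric_of_lt_one (by norm_num) (by norm_num)

lemma tsum_half : ∑' j : ℕ, (1 / 2 : ℝ) ^ j = 2 := by
  rw [tsum_geometric_of_lt_one (by norm_num) (by norm_num)]; norm_num

/-- the observable -/
noncomputable def obs (p : ℂ × ℂ) : ℝ := ∑' j, co j * cq (qs j) p

lemma norm_obs_term_le (j : ℕ) (p : ℂ × ℂ) : ‖co j * cq (qs j) p‖ ≤ (1 / 2) ^ j := by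
  rw [norm_mul, Real.norm_eq_abs, Real.norm_eq_abs, abs_of_nonneg (co_nonneg j)]
  have := abs_cq_le (qs j) p
  have := co_le j
  have := co_nonneg j
  nlinarith [abs_nonneg (cq (qs j) p)]

lemma summable_obs (p : ℂ × ℂ) : Summable (fun j => co j * cq (qs j) p) :=
  Summable.of_norm_bounded summable_half (fun j => norm_obs_term_le j p)

lemma isHolder_obs : IsHolder obs := by
  have hr := rr_pos
  refine ⟨4 * (9 / rr) ^ (1 / 4 : ℝ), 1 / 4, by norm_num, by norm_num, fun p p' => ?_⟩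
  set d := dist p p' with hd
  have hd0 : 0 ≤ d := dist_nonneg
  have hterm : ∀ j, ‖co j * cq (qs j) p - co j * cq (qs j) p'‖ ≤
      (2 * (9 / rr) ^ (1 / 4 : ℝ) * d ^ (1 / 4 : ℝ)) * (1 / 2) ^ j := by
    intro j
    rw [← mul_sub, norm_mul, Real.norm_eq_abs, Real.norm_eq_abs, abs_of_nonneg (co_nonneg j)]
    have hq : (0 : ℝ) < qs j := by exact_mod_cast (Nat.lt_of_lt_of_le Nat.zero_lt_one (qs_pos j))
    have h1 : |cq (qs j) p - cq (qs j) p'| ≤ 2 * (9 / rr * qs j * d) ^ (1 / 4 : ℝ) := by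
      rcases le_total 1 (9 / rr * qs j * d) with h | h
      · have h2 : |cq (qs j) p - cq (qs j) p'| ≤ 2 := by
          refine (abs_sub _ _).trans ?_
          have := abs_cq_le (qs j) p
          have := abs_cq_le (qs j) p'
          linarith
        have h3 : 1 ≤ (9 / rr * qs j * d) ^ (1 / 4 : ℝ) := Real.one_le_rpow h (by norm_num)
        linarith
      · have h2 := cq_lip (qs j) p p'
        rw [← hd] at h2
        have h0 : 0 ≤ 9 / rr * qs j * d := by positivity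
        have h3 : 9 / rr * qs j * d ≤ (9 / rr * qs j * d) ^ (1 / 4 : ℝ) := by
          rcases h0.eq_or_lt with h00 | h00
          · rw [← h00]; exact Real.rpow_nonneg le_rfl _
          · conv_lhs => rw [← Real.rpow_one (9 / rr * qs j * d)]
            exact Real.rpow_le_rpow_of_exponent_ge h00 h (by norm_num)
        have h4 : 0 ≤ (9 / rr * qs j * d) ^ (1 / 4 : ℝ) := Real.rpow_nonneg h0 _
        linarith
    have h5 : (9 / rr * qs j * d) ^ (1 / 4 : ℝ) =
        (9 / rr) ^ (1 / 4 : ℝ) * (qs j : ℝ) ^ (1 / 4 : ℝ) * d ^ (1 / 4 : ℝ) := by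
      rw [Real.mul_rpow (by positivity) hd0, Real.mul_rpow (by positivity) hq.le]
    have h6 : (qs j : ℝ) ^ (-(1 / 4) : ℝ) * (qs j : ℝ) ^ (1 / 4 : ℝ) = 1 := by
      rw [← Real.rpow_add hq]; norm_num
    calc co j * |cq (qs j) p - cq (qs j) p'|
        ≤ co j * (2 * (9 / rr * qs j * d) ^ (1 / 4 : ℝ)) :=
          mul_le_mul_of_nonneg_left h1 (co_nonneg j)
      _ = (2 * (9 / rr) ^ (1 / 4 : ℝ) * d ^ (1 / 4 : ℝ)) * (1 / 2) ^ j *
          ((qs j : ℝ) ^ (-(1 / 4) : ℝ) * (qs j : ℝ) ^ (1 / 4 : ℝ)) := by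
          rw [h5]; unfold co aj; ring
      _ = _ := by rw [h6, mul_one]
  have h1 : obs p - obs p' = ∑' j, (co j * cq (qs j) p - co j * cq (qs j) p') :=
    ((summable_obs p).tsum_sub (summable_obs p')).symm
  rw [h1, ← Real.norm_eq_abs]
  have h2 := tsum_of_norm_bounded ((summable_half.hasSum).mul_left
    (2 * (9 / rr) ^ (1 / 4 : ℝ) * d ^ (1 / 4 : ℝ))) hterm
  refine h2.trans (le_of_eq ?_)
  rw [tsum_half]
  ring

/-- partial exponential sums -/
noncomputable def gs (n q : ℕ) : ℂ := ∑ k ∈ Finset.range n, (lam ^ q) ^ k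

lemma norm_gs_le_n (n q : ℕ) : ‖gs n q‖ ≤ n := by
  unfold gs
  refine (norm_sum_le _ _).trans ?_
  have : ∀ k ∈ Finset.range n, ‖(lam ^ q) ^ k‖ ≤ 1 := by
    intro k _
    rw [norm_pow, norm_lam_pow, one_pow]
  refine (Finset.sum_le_sum this).trans ?_
  simp

lemma norm_gs_le_q (n q : ℕ) (hq : 1 ≤ q) : ‖gs n q‖ ≤ 2 * q := by
  have hne := lam_pow_sub_one_ne hq
  have h1 : gs n q * (lam ^ q - 1) = (lam ^ q) ^ n - 1 := geom_sum_mul _ _
  have h2 : ‖gs n q‖ * ‖lam ^ q - 1‖ ≤ 2 := by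
    rw [← norm_mul, h1]
    refine (norm_sub_le _ _).trans ?_
    rw [norm_pow, norm_lam_pow, one_pow, norm_one]; norm_num
  have h3 := small_div q hq
  have h4 : (0 : ℝ) ≤ q := Nat.cast_nonneg q
  have h5 := norm_nonneg (gs n q)
  calc ‖gs n q‖ = ‖gs n q‖ * 1 := (mul_one _).symm
    _ ≤ ‖gs n q‖ * (q * ‖lam ^ q - 1‖) := mul_le_mul_of_nonneg_left h3 h5
    _ = q * (‖gs n q‖ * ‖lam ^ q - 1‖) := by ring
    _ ≤ q * 2 := mul_le_mul_of_nonneg_left h2 h4
    _ = 2 * q := by ring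

lemma norm_gs_sub (n q : ℕ) (hq : 1 ≤ q) (h : ‖lam ^ q - 1‖ ≤ 2 * Real.pi / q) (hn : 64 * n ≤ q) :
    ‖gs n q - n‖ ≤ n / 8 := by
  have hpi := Real.pi_lt_four
  have hqpos : (0 : ℝ) < q := by exact_mod_cast hq
  have e : gs n q - n = ∑ k ∈ Finset.range n, ((lam ^ q) ^ k - 1) := by
    unfold gs
    rw [Finset.sum_sub_distrib]; simp
  rw [e]
  refine (norm_sum_le _ _).trans ?_
  have hk : ∀ k ∈ Finset.range n, ‖(lam ^ q) ^ k - 1‖ ≤ 1 / 8 := by
    intro k hk
    have hkn : (k : ℝ) ≤ n := by exact_mod_cast (Finset.mem_range.1 hk).le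
    have h1 := norm_pow_sub_pow_le' (lam ^ q) 1 (norm_lam_pow q) norm_one k
    rw [one_pow] at h1
    refine h1.trans ?_
    have h2 : (k : ℝ) * ‖lam ^ q - 1‖ ≤ n * (2 * Real.pi / q) :=
      mul_le_mul hkn h (norm_nonneg _) (Nat.cast_nonneg n)
    refine h2.trans ?_
    rw [mul_div_assoc', div_le_iff₀ hqpos]
    have h3 : (64 : ℝ) * n ≤ q := by exact_mod_cast hn
    have h4 : (0 : ℝ) ≤ n := Nat.cast_nonneg n
    nlinarith
  refine (Finset.sum_le_sum hk).trans ?_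
  simp
  linarith

lemma cq_orbit (q n : ℕ) (θ : T1) :
    ∑ k ∈ Finset.range n, cq q (F^[k] (E θ)) = (ec θ ^ q * gs n q).re := by
  have h1 : ∀ k, cq q (F^[k] (E θ)) = (ec θ ^ q * (lam ^ q) ^ k).re := by
    intro k
    rw [F_iter_E, cq_E, ec_add, ec_nsmul, ec_al, mul_pow, ← pow_mul, ← pow_mul, mul_comm k q]
  simp only [h1]
  rw [← Complex.re_sum, ← Finset.mul_sum]
  rfl

lemma birkhoff_obs (n : ℕ) (θ : T1) :
    birkhoff F obs n (E θ) = ∑' j, co j * (ec θ ^ qs j * gs n (qs j)).re := by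
  unfold birkhoff obs
  rw [← Summable.tsum_finsetSum (fun k _ => summable_obs _)]
  congr 1
  funext j
  rw [← Finset.mul_sum, cq_orbit]

lemma abs_re_term_le (j n : ℕ) (θ : T1) : |(ec θ ^ qs j * gs n (qs j)).re| ≤ ‖gs n (qs j)‖ := by
  refine (Complex.abs_re_le_norm _).trans ?_
  rw [norm_mul, norm_pow, norm_ec, one_pow, one_mul]

/-- times along which the Birkhoff sums are large -/
noncomputable def nj (j : ℕ) : ℕ := qs j / 64

lemma birkhoff_main (j : ℕ) (θ : T1) :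
    |birkhoff F obs (nj (j + 1)) (E θ) - co (j + 1) * nj (j + 1) * (ec θ ^ qs (j + 1)).re| ≤
      3 / 8 * (co (j + 1) * nj (j + 1)) := by
  obtain ⟨s1, s2, s3, s4⟩ := qs_succ_spec j
  set n := nj (j + 1) with hn
  have hn64 : 64 * n ≤ qs (j + 1) := by rw [hn, nj]; omega
  have hn1 : 1 ≤ n := by rw [hn, nj]; omega
  have hn1' : (1 : ℝ) ≤ n := by exact_mod_cast hn1
  set f : ℕ → ℝ := fun i => co i * (ec θ ^ qs i * gs n (qs i)).re with hf
  have hfbound : ∀ i, ‖f i‖ ≤ n * (1 / 2) ^ i := by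
    intro i
    rw [hf]
    simp only
    rw [norm_mul, Real.norm_eq_abs, Real.norm_eq_abs, abs_of_nonneg (co_nonneg i)]
    have h1 := (abs_re_term_le i n θ).trans (norm_gs_le_n n (qs i))
    have h2 := co_le i
    have h3 := co_nonneg i
    calc co i * |(ec θ ^ qs i * gs n (qs i)).re| ≤ (1 / 2) ^ i * n :=
          mul_le_mul h2 h1 (abs_nonneg _) (by positivity)
      _ = _ := by ring
  have hsum : Summable f := Summable.of_norm_bounded (summable_half.mul_left (n : ℝ)) hfbound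
  rw [birkhoff_obs]
  have hsplit := (hsum.sum_add_tsum_nat_add (j + 2)).symm
  have hsplit2 : ∑' i, f i = ∑ i ∈ Finset.range (j + 1), f i + f (j + 1) + ∑' i, f (i + (j + 2)) := by
    rw [hsplit, Finset.sum_range_succ]
  have hshow : (∑' i, co i * (ec θ ^ qs i * gs n (qs i)).re) = ∑' i, f i := rfl
  rw [hshow, hsplit2]
  -- low frequencies
  have hlow : |∑ i ∈ Finset.range (j + 1), f i| ≤ co (j + 1) * n / 8 := by
    have h1 : ∀ i ∈ Finset.range (j + 1), |f i| ≤ (1 / 2) ^ i * (2 * qs j) := by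
      intro i hi
      have hij : i ≤ j := by have := Finset.mem_range.1 hi; omega
      rw [hf]
      simp only
      rw [abs_mul, abs_of_nonneg (co_nonneg i)]
      have h2 := (abs_re_term_le i n θ).trans (norm_gs_le_q n (qs i) (qs_pos i))
      have h3 : (qs i : ℝ) ≤ qs j := by exact_mod_cast qs_mono hij
      exact mul_le_mul (co_le i) (by linarith) (abs_nonneg _) (by positivity)
    have h2 : |∑ i ∈ Finset.range (j + 1), f i| ≤ ∑ i ∈ Finset.range (j + 1), (1 / 2 : ℝ) ^ i * (2 * qs j) :=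
      (Finset.abs_sum_le_sum_abs _ _).trans (Finset.sum_le_sum h1)
    have h3 : ∑ i ∈ Finset.range (j + 1), (1 / 2 : ℝ) ^ i * (2 * qs j) ≤ 2 * (2 * qs j) := by
      rw [← Finset.sum_mul]
      refine mul_le_mul_of_nonneg_right ?_ (by positivity)
      have hst := summable_half.sum_le_tsum (Finset.range (j + 1)) (fun i _ => by positivity)
      rwa [tsum_half] at hst
    have h4 : Real.sqrt ((qs (j + 1) / 64 : ℕ) : ℝ) ≤ n := by
      have : ((qs (j + 1) / 64 : ℕ) : ℝ) = (n : ℝ) := rfl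
      rw [this]
      rw [Real.sqrt_le_left (by positivity)]
      nlinarith
    have h5 : aj (j + 1) (qs (j + 1)) * Real.sqrt ((qs (j + 1) / 64 : ℕ) : ℝ) / 8 ≤ co (j + 1) * n / 8 := by
      have := mul_le_mul_of_nonneg_left h4 (co_nonneg (j + 1))
      unfold co at this ⊢
      linarith
    have h6 : (0 : ℝ) ≤ ((j + 1 : ℕ) : ℝ) := Nat.cast_nonneg _
    linarith
  -- the resonant frequency
  have hres : |f (j + 1) - co (j + 1) * n * (ec θ ^ qs (j + 1)).re| ≤ co (j + 1) * n / 8 := by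
    have h1 := norm_gs_sub n (qs (j + 1)) (qs_pos _) s3 hn64
    have e : f (j + 1) - co (j + 1) * n * (ec θ ^ qs (j + 1)).re =
        co (j + 1) * (ec θ ^ qs (j + 1) * (gs n (qs (j + 1)) - n)).re := by
      rw [hf]
      simp only
      rw [mul_sub, Complex.sub_re, mul_sub]
      congr 1
      have : (ec θ ^ qs (j + 1) * (n : ℂ)).re = n * (ec θ ^ qs (j + 1)).re := by
        rw [mul_comm, ← Complex.ofReal_natCast, Complex.re_ofReal_mul]
      rw [this]; ring
    rw [e, abs_mul, abs_of_nonneg (co_nonneg _)]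
    have h2 : |(ec θ ^ qs (j + 1) * (gs n (qs (j + 1)) - n)).re| ≤ n / 8 := by
      refine (Complex.abs_re_le_norm _).trans ?_
      rw [norm_mul, norm_pow, norm_ec, one_pow, one_mul]
      exact h1
    calc _ ≤ co (j + 1) * (n / 8) := mul_le_mul_of_nonneg_left h2 (co_nonneg _)
      _ = _ := by ring
  -- high frequencies
  have hhigh : |∑' i, f (i + (j + 2))| ≤ co (j + 1) * n / 8 := by
    have h1 : ∀ i, ‖f (i + (j + 2))‖ ≤ (co (j + 1) * n / 16) * (1 / 2) ^ i := by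
      intro i
      rw [hf]
      simp only
      rw [norm_mul, Real.norm_eq_abs, Real.norm_eq_abs, abs_of_nonneg (co_nonneg _)]
      have h2 := (abs_re_term_le (i + (j + 2)) n θ).trans (norm_gs_le_n n _)
      have h3 : co (i + (j + 2)) ≤ co (j + 1) / 16 * (1 / 2) ^ i := by
        unfold co aj
        have hq0 : (0 : ℝ) < qs (j + 1) := by exact_mod_cast (Nat.lt_of_lt_of_le Nat.zero_lt_one (qs_pos _))
        have h4 : 4096 * qs (j + 1) ≤ qs (i + (j + 2)) :=
          (qs_succ_spec (j + 1)).1.trans (qs_mono (by omega))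
        have h5 : (4096 : ℝ) * qs (j + 1) ≤ qs (i + (j + 2)) := by exact_mod_cast h4
        have h6 : (qs (i + (j + 2)) : ℝ) ^ (-(1 / 4) : ℝ) ≤ (4096 * (qs (j + 1) : ℝ)) ^ (-(1 / 4) : ℝ) :=
          Real.rpow_le_rpow_of_nonpos (by positivity) h5 (by norm_num)
        have h7 : (4096 * (qs (j + 1) : ℝ)) ^ (-(1 / 4) : ℝ) = 1 / 8 * (qs (j + 1) : ℝ) ^ (-(1 / 4) : ℝ) := by
          rw [Real.mul_rpow (by norm_num) hq0.le]
          congr 1
          rw [show (4096 : ℝ) = 8 ^ (4 : ℝ) by norm_num, ← Real.rpow_mul (by norm_num)]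
          norm_num
        rw [h7] at h6
        have h8 : (1 / 2 : ℝ) ^ (i + (j + 2)) = (1 / 2) ^ i * (1 / 2) ^ (j + 1) * (1 / 2) := by
          rw [← pow_add, ← pow_succ]; congr 1
        have h9 := mul_le_mul_of_nonneg_left h6 (by positivity : (0 : ℝ) ≤ (1 / 2) ^ (i + (j + 2)))
        refine h9.trans (le_of_eq ?_)
        rw [h8]; ring
      calc co (i + (j + 2)) * |(ec θ ^ qs (i + (j + 2)) * gs n (qs (i + (j + 2)))).re|
          ≤ (co (j + 1) / 16 * (1 / 2) ^ i) * n :=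
            mul_le_mul h3 h2 (abs_nonneg _) (by have := co_nonneg (j + 1); positivity)
        _ = _ := by ring
    have h2 := tsum_of_norm_bounded ((summable_half.hasSum).mul_left (co (j + 1) * n / 16)) h1
    rw [tsum_half, Real.norm_eq_abs] at h2
    linarith
  have e : ∑ i ∈ Finset.range (j + 1), f i + f (j + 1) + ∑' i, f (i + (j + 2)) -
      co (j + 1) * n * (ec θ ^ qs (j + 1)).re = ∑ i ∈ Finset.range (j + 1), f i +
      (f (j + 1) - co (j + 1) * n * (ec θ ^ qs (j + 1)).re) + ∑' i, f (i + (j + 2)) := by ring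
  rw [e]
  have t1 := abs_add_le (∑ i ∈ Finset.range (j + 1), f i +
      (f (j + 1) - co (j + 1) * n * (ec θ ^ qs (j + 1)).re)) (∑' i, f (i + (j + 2)))
  have t2 := abs_add_le (∑ i ∈ Finset.range (j + 1), f i)
      (f (j + 1) - co (j + 1) * n * (ec θ ^ qs (j + 1)).re)
  linarith

end Pool.Agent.Work.MP_9ac7bc_an
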