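import Mathlib
import Pool.Agent.Work.MP_9ac7bc_an.Obs

set_option autoImplicit false

open MeasureTheory Filter Topology Metric

namespace Pool.Agent.Work.MP_9ac7bc_an

lemma integrable_re_pow (q : ℕ) : Integrable (fun θ : T1 => (ec θ ^ q).re) hm := by
  refine Integrable.of_bound (Continuous.aestronglyMeasurable (by have := continuous_ec; fun_prop)) 1
    (Eventually.of_forall fun θ => ?_)
  rw [Real.norm_eq_abs]
  refine (Complex.abs_re_le_norm _).trans ?_
  rw [norm_pow, norm_ec, one_pow]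

lemma integral_re_pow (q : ℕ) (hq : 1 ≤ q) : ∫ θ : T1, (ec θ ^ q).re ∂hm = 0 := by
  have hq' : (q : ℝ) ≠ 0 := by
    have : 0 < q := hq
    positivity
  set t : T1 := ((1 / (2 * q) : ℝ) : T1) with ht
  have h1 : ec t ^ q = -1 := by
    rw [← ec_nsmul]
    have : q • t = ((1 / 2 : ℝ) : T1) := by
      rw [ht, ← AddCircle.coe_nsmul]
      congr 1
      rw [nsmul_eq_mul]
      field_simp
    rw [this]
    unfold ec
    rw [AddCircle.toCircle_apply_mk, Circle.coe_exp]
    have : ((2 * Real.pi / 1 * (1 / 2) : ℝ) : ℂ) * Complex.I = Real.pi * Complex.I := by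
      push_cast; ring
    rw [this, Complex.exp_pi_mul_I]
  have h2 := (measurePreserving_add_right hm t).integral_comp
    (Homeomorph.addRight t).measurableEmbedding (fun θ => (ec θ ^ q).re)
  have h3 : ∀ θ, (ec (θ + t) ^ q).re = -(ec θ ^ q).re := by
    intro θ
    rw [ec_add, mul_pow, h1, mul_neg_one, Complex.neg_re]
  simp only [h3] at h2
  rw [integral_neg] at h2
  linarith

lemma integral_obs : ∫ p, obs p ∂mu0 = 0 := by
  have hE : ∫ p, obs p ∂mu0 = ∫ θ, obs (E θ) ∂hm := by
    unfold mu0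
    exact measurableEmbedding_E.integral_map _
  rw [hE]
  unfold obs
  have hint : ∀ j, Integrable (fun θ : T1 => co j * cq (qs j) (E θ)) hm := by
    intro j
    simp only [cq_E]
    exact (integrable_re_pow _).const_mul _
  have hs : Summable (fun j => ∫ θ : T1, ‖co j * cq (qs j) (E θ)‖ ∂hm) := by
    refine Summable.of_nonneg_of_le (fun j => integral_nonneg fun θ => norm_nonneg _)
      (fun j => ?_) summable_half
    calc ∫ θ : T1, ‖co j * cq (qs j) (E θ)‖ ∂hm ≤ ∫ _θ : T1, (1 / 2 : ℝ) ^ j ∂hm :=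
          integral_mono_of_nonneg (Eventually.of_forall fun θ => norm_nonneg _)
            (integrable_const _) (Eventually.of_forall fun θ => norm_obs_term_le j _)
      _ = (1 / 2) ^ j := by simp
  have h1 := hasSum_integral_of_summable_integral_norm hint hs
  have h2 : ∀ j, ∫ θ : T1, co j * cq (qs j) (E θ) ∂hm = 0 := by
    intro j
    simp only [cq_E]
    rw [integral_const_mul, integral_re_pow _ (qs_pos j), mul_zero]
  simp only [h2] at h1
  exact h1.unique hasSum_zero

/-- mass of the set where the character is not small -/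
noncomputable def cc : ℝ := hm.real {θ : T1 | 1 / 2 ≤ |(ec θ).re|}

lemma cc_pos : 0 < cc := by
  have ho : IsOpen {θ : T1 | 1 / 2 < |(ec θ).re|} := by
    have := continuous_ec
    exact isOpen_lt continuous_const (by fun_prop)
  have hne : {θ : T1 | 1 / 2 < |(ec θ).re|}.Nonempty := by
    refine ⟨0, ?_⟩
    have : ec 0 = 1 := by unfold ec; rw [AddCircle.toCircle_zero]; simp
    show 1 / 2 < |(ec 0).re|
    rw [this]; norm_num
  have hpos := ho.measure_pos hm hne
  have hsub : {θ : T1 | 1 / 2 < |(ec θ).re|} ⊆ {θ : T1 | 1 / 2 ≤ |(ec θ).re|} := by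
    intro θ h
    have h' : 1 / 2 < |(ec θ).re| := h
    exact h'.le
  unfold cc
  rw [measureReal_def]
  exact ENNReal.toReal_pos (hpos.trans_le (measure_mono hsub)).ne' (measure_ne_top _ _)

lemma mass_pow (q : ℕ) (hq : 1 ≤ q) : hm.real {θ : T1 | 1 / 2 ≤ |(ec θ ^ q).re|} = cc := by
  have hmp : MeasurePreserving (fun θ : T1 => (q : ℤ) • θ) hm hm :=
    Measure.measurePreserving_zsmul hm (by exact_mod_cast (Nat.one_le_iff_ne_zero.1 hq))
  have hmeas : MeasurableSet {θ : T1 | 1 / 2 ≤ |(ec θ).re|} := by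
    have := continuous_ec
    exact (isClosed_le continuous_const (by fun_prop)).measurableSet
  have := hmp.measureReal_preimage hmeas.nullMeasurableSet
  unfold cc
  rw [← this]
  congr 1
  ext θ
  simp only [Set.mem_ofPred_eq, Set.mem_preimage]
  rw [natCast_zsmul, ec_nsmul]

lemma nj_large (j : ℕ) : (j : ℝ) + 1 ≤ nj (j + 1) := by
  obtain ⟨s1, s2, s3, s4⟩ := qs_succ_spec j
  have h1 : co (j + 1) ≤ 1 := (co_le _).trans (pow_le_one₀ (by norm_num) (by norm_num))
  have h0 := co_nonneg (j + 1)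
  have hn1 : 1 ≤ nj (j + 1) := by rw [nj]; omega
  have hn1' : (1 : ℝ) ≤ nj (j + 1) := by exact_mod_cast hn1
  have h4 : Real.sqrt ((qs (j + 1) / 64 : ℕ) : ℝ) ≤ nj (j + 1) := by
    have : ((qs (j + 1) / 64 : ℕ) : ℝ) = (nj (j + 1) : ℝ) := rfl
    rw [this, Real.sqrt_le_left (by positivity)]
    nlinarith
  have h5 : aj (j + 1) (qs (j + 1)) * Real.sqrt ((qs (j + 1) / 64 : ℕ) : ℝ) ≤ 1 * nj (j + 1) :=
    mul_le_mul h1 h4 (Real.sqrt_nonneg _) zero_le_one
  have h6 : (0 : ℝ) ≤ 4 * (qs j : ℝ) := by positivity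
  push_cast at s4
  linarith

lemma tendsto_nj : Tendsto (fun j => nj (j + 1)) atTop atTop := by
  refine tendsto_atTop_mono (f := fun j => j) (fun j => ?_) tendsto_id
  have := nj_large j
  have h : ((j : ℕ) : ℝ) ≤ (nj (j + 1) : ℝ) := by linarith
  exact_mod_cast h

lemma Zn_large (j : ℕ) (θ : T1) (hθ : 1 / 2 ≤ |(ec θ ^ qs (j + 1)).re|) :
    (j : ℝ) + 1 ≤ |Zn F mu0 obs (nj (j + 1)) (E θ)| := by
  obtain ⟨s1, s2, s3, s4⟩ := qs_succ_spec j
  have h1 := birkhoff_main j θ
  set n := nj (j + 1) with hn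
  have hn1 : 1 ≤ n := by rw [hn, nj]; omega
  have hn1' : (1 : ℝ) ≤ n := by exact_mod_cast hn1
  have h0 := co_nonneg (j + 1)
  have h2 : co (j + 1) * n * (1 / 2) ≤ |co (j + 1) * n * (ec θ ^ qs (j + 1)).re| := by
    rw [abs_mul, abs_of_nonneg (by positivity : (0 : ℝ) ≤ co (j + 1) * n)]
    exact mul_le_mul_of_nonneg_left hθ (by positivity)
  have h3 : co (j + 1) * n / 8 ≤ |birkhoff F obs n (E θ)| := by
    have h4 := abs_sub_abs_le_abs_sub (co (j + 1) * n * (ec θ ^ qs (j + 1)).re)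
      (birkhoff F obs n (E θ))
    rw [abs_sub_comm] at h4
    linarith
  unfold Zn
  rw [integral_obs, mul_zero, sub_zero, abs_div, abs_of_nonneg (Real.sqrt_nonneg _)]
  have hs : 0 < Real.sqrt n := Real.sqrt_pos.2 (by linarith)
  rw [le_div_iff₀ hs]
  refine le_trans ?_ h3
  have h5 : (j : ℝ) + 1 ≤ co (j + 1) * Real.sqrt n / 8 := by
    have : ((qs (j + 1) / 64 : ℕ) : ℝ) = (n : ℝ) := rfl
    rw [this] at s4
    have h6 : (0 : ℝ) ≤ 4 * (qs j : ℝ) := by positivity
    push_cast at s4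
    unfold co
    linarith
  have h7 : Real.sqrt n * Real.sqrt n = n := Real.mul_self_sqrt (by linarith)
  calc ((j : ℝ) + 1) * Real.sqrt n ≤ (co (j + 1) * Real.sqrt n / 8) * Real.sqrt n :=
        mul_le_mul_of_nonneg_right h5 hs.le
    _ = co (j + 1) * (Real.sqrt n * Real.sqrt n) / 8 := by ring
    _ = _ := by rw [h7]

lemma mass_small (L : ℝ) (j : ℕ) (hL : L ≤ j) :
    mu0.real {p | Zn F mu0 obs (nj (j + 1)) p ∈ Set.Ioo (-L) L} ≤ 1 - cc := by
  have hcont : Measurable obs := by
    obtain ⟨C, r, hr0, hr1, h⟩ := isHolder_obs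
    have hC : Continuous obs := by
      rw [continuous_iff_continuousAt]
      intro p
      rw [ContinuousAt, tendsto_iff_norm_sub_tendsto_zero]
      have h1 : Tendsto (fun p' => C * dist p' p ^ r) (𝓝 p) (𝓝 (C * 0 ^ r)) := by
        have h2 : Continuous fun p' : ℂ × ℂ => C * dist p' p ^ r :=
          continuous_const.mul ((continuous_id.dist continuous_const).rpow_const
            fun _ => Or.inr hr0.le)
        have h3 := h2.tendsto p
        simpa using h3
      rw [Real.zero_rpow hr0.ne', mul_zero] at h1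
      exact squeeze_zero (fun _ => norm_nonneg _) (fun p' => by
        rw [Real.norm_eq_abs]; exact h p' p) h1
    exact hC.measurable
  have hZ : Measurable (Zn F mu0 obs (nj (j + 1))) := by
    unfold Zn birkhoff
    refine Measurable.div_const (Measurable.sub_const ?_ _) _
    exact Finset.measurable_sum _ fun k _ => hcont.comp (measurable_F.iterate k)
  have hset : MeasurableSet {p | Zn F mu0 obs (nj (j + 1)) p ∈ Set.Ioo (-L) L} := hZ measurableSet_Ioo
  have h1 : mu0.real {p | Zn F mu0 obs (nj (j + 1)) p ∈ Set.Ioo (-L) L} =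
      hm.real (E ⁻¹' {p | Zn F mu0 obs (nj (j + 1)) p ∈ Set.Ioo (-L) L}) := by
    rw [measureReal_def, measureReal_def]
    congr 1
    exact Measure.map_apply continuous_E.measurable hset
  rw [h1]
  have hmeas : MeasurableSet {θ : T1 | 1 / 2 ≤ |(ec θ ^ qs (j + 1)).re|} := by
    have := continuous_ec
    exact (isClosed_le continuous_const (by fun_prop)).measurableSet
  have hsub : E ⁻¹' {p | Zn F mu0 obs (nj (j + 1)) p ∈ Set.Ioo (-L) L} ⊆
      {θ : T1 | 1 / 2 ≤ |(ec θ ^ qs (j + 1)).re|}ᶜ := by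
    intro θ hθ hc
    have h2 := Zn_large j θ hc
    have h3 : |Zn F mu0 obs (nj (j + 1)) (E θ)| < L := abs_lt.2 hθ
    linarith
  refine (measureReal_mono hsub).trans ?_
  rw [probReal_compl_eq_one_sub hmeas, mass_pow _ (qs_pos _)]

lemma limit_le {L ℓ : ℝ}
    (h : Tendsto (fun n : ℕ => mu0.real {p | Zn F mu0 obs n p ∈ Set.Ioo (-L) L}) atTop (𝓝 ℓ)) :
    ℓ ≤ 1 - cc := by
  have h1 := h.comp tendsto_nj
  refine le_of_tendsto h1 ?_
  obtain ⟨N, hN⟩ := exists_nat_ge L
  filter_upwards [eventually_ge_atTop N] with j hj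
  refine mass_small L j (hN.trans ?_)
  exact_mod_cast hj

theorem not_CLT (σ : ℝ) (hσ : 0 ≤ σ) : ¬ SatisfiesCLT F mu0 obs σ := by
  rintro ⟨h1, h2⟩
  have hc := cc_pos
  rcases hσ.eq_or_lt with h0 | hpos
  · have := limit_le (h2 h0.symm 1 one_pos)
    linarith
  · have hb : (0 : ℝ) < 1 / (2 * σ ^ 2) := by positivity
    have hG : ∀ n : ℕ, (Real.sqrt (2 * Real.pi * σ ^ 2))⁻¹ *
        ∫ t in Set.Ioo (-(n : ℝ)) n, Real.exp (-t ^ 2 / (2 * σ ^ 2)) ≤ 1 - cc := fun n =>
      limit_le (h1 hpos _ Set.ordConnected_Ioo)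
    have hint : Integrable (fun t : ℝ => Real.exp (-t ^ 2 / (2 * σ ^ 2))) := by
      have := integrable_exp_neg_mul_sq hb
      refine this.congr (Eventually.of_forall fun t => ?_)
      simp only
      congr 1
      ring
    have hcov : AECover volume atTop (fun n : ℕ => Set.Ioo (-(n : ℝ)) n) :=
      aecover_Ioo (tendsto_neg_atTop_atBot.comp tendsto_natCast_atTop_atTop)
        tendsto_natCast_atTop_atTop
    have hlim := hcov.integral_tendsto_of_countably_generated hint
    have hval : ∫ t : ℝ, Real.exp (-t ^ 2 / (2 * σ ^ 2)) = Real.sqrt (2 * Real.pi * σ ^ 2) := by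
      have := integral_gaussian (1 / (2 * σ ^ 2))
      have e : (fun t : ℝ => Real.exp (-t ^ 2 / (2 * σ ^ 2))) =
          fun t : ℝ => Real.exp (-(1 / (2 * σ ^ 2)) * t ^ 2) := by
        funext t; congr 1; ring
      rw [e, this]
      congr 1
      field_simp
    rw [hval] at hlim
    have hlim2 := hlim.const_mul (Real.sqrt (2 * Real.pi * σ ^ 2))⁻¹
    have hsq : Real.sqrt (2 * Real.pi * σ ^ 2) ≠ 0 := by
      have : 0 < 2 * Real.pi * σ ^ 2 := by have := Real.pi_pos; positivity
      exact (Real.sqrt_pos.2 this).ne'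
    rw [inv_mul_cancel₀ hsq] at hlim2
    have := le_of_tendsto' hlim2 hG
    linarith

end Pool.Agent.Work.MP_9ac7bc_an
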